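import Pool.Agent.Lib.MP_1dedaf_gt.ED.B

/-!
# MP_1dedaf_gt, BL: blocks, definitions
-/

set_option autoImplicit false

open MeasureTheory Set Filter Topology
open scoped ENNReal NNReal Pointwise

namespace Pool.Agent.Lib.MP_1dedaf_gt.BL

open Pool.Agent.Lib.MP_1dedaf_gt.SC
open Pool.Agent.Lib.MP_1dedaf_gt.EG

/-- A convex body. -/
structure Body {n : ℕ} (K : Set (E n)) : Prop where
  conv : Convex ℝ K
  comp : IsCompact K
  int : (interior K).Nonempty

/-- A shape: a convex body with the origin in the interior. -/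
structure Sh {d : ℕ} (S : Set (E d)) : Prop where
  conv : Convex ℝ S
  comp : IsCompact S
  zero : (0 : E d) ∈ interior S

/-- The point `(x, y)` of `R^N × R^d`. -/
noncomputable def app {N d : ℕ} (x : E N) (y : E d) : E (N + d) :=
  WithLp.toLp 2 (Fin.append x.ofLp y.ofLp)

/-- The first part. -/
noncomputable def fst {N d : ℕ} (p : E (N + d)) : E N :=
  WithLp.toLp 2 (fun i => p (Fin.castAdd d i))

/-- The second part. -/
noncomputable def snd {N d : ℕ} (p : E (N + d)) : E d :=
  WithLp.toLp 2 (fun i => p (Fin.natAdd N i))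

/-- The section `K_y`. -/
def sec {N d : ℕ} (K : Set (E (N + d))) (y : E d) : Set (E N) := {x | app x y ∈ K}

/-- `K<r>`: all `x` with `{x} × r S` in `K`. -/
def hol {N d : ℕ} (K : Set (E (N + d))) (S : Set (E d)) (r : ℝ) : Set (E N) :=
  {x | ∀ s ∈ S, app x (r • s) ∈ K}

/-- The body with one mirror which has the same slices. -/
def til {N d : ℕ} (K : Set (E (N + d))) (S : Set (E d)) : Set (E (N + 1)) :=
  {p | ini p ∈ hol K S |p (Fin.last N)|}

/-- `K` is a block body with the shape `S`: membership of `(x, y)` depends only on `x` and on the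
gauge of `y`. -/
def Blk {N d : ℕ} (K : Set (E (N + d))) (S : Set (E d)) : Prop :=
  ∀ x y y', gauge S y' = gauge S y → app x y ∈ K → app x y' ∈ K

/-- The theorem for a class of sets: bodies, centered, the inequality, the equality cases. -/
structure Thm {n : ℕ} (X : Set (E n) → Prop) : Prop where
  body : ∀ K, X K → Body K
  cent : ∀ K, X K → ∫ x in K, x = 0
  ineq : ∀ t : ℝ, 0 < t → t < 1 → ∀ K C, X K → X C →
    volume K ^ (1 - t) * volume C ^ t ≤ volume (logC t K C)
  str : ∀ t : ℝ, 0 < t → t < 1 → ∀ K C, X K → X C →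
    volume (logC t K C) = volume K ^ (1 - t) * volume C ^ t → ∃ Λ π, Str K C Λ π

/-- The class of block bodies over two classes. -/
def XB {N d : ℕ} (X : Set (E N) → Prop) (Y : Set (E d) → Prop) (K : Set (E (N + d))) : Prop :=
  Body K ∧ (∃ S, Y S ∧ Blk K S) ∧ ∀ y, (interior (sec K y)).Nonempty → X (sec K y)

/-- The situation of an equality pair of block bodies: `a` is the height of `K`, `ρ a` the height
of `C`. -/
structure EqB {N d : ℕ} (t : ℝ) (K C : Set (E (N + d))) (S T : Set (E d)) (a ρ : ℝ) : Prop where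
  t0 : 0 < t
  t1 : t < 1
  a0 : 0 < a
  r0 : 0 < ρ
  bK : Body K
  bC : Body C
  sS : Sh S
  sT : Sh T
  kS : Blk K S
  kT : Blk C T
  mK : Mir (til K S) a
  mC : Mir (til C T) (ρ * a)
  iK : ∀ z, 0 ≤ z → z < a → (0 : E N) ∈ interior (hol K S z)
  iC : ∀ z, 0 ≤ z → z < a → (0 : E N) ∈ interior (hol C T (ρ * z))
  kW : Blk (logC t K C) (logC t S T)
  sl : ∀ z, 0 < z → z < a →
    hol (logC t K C) (logC t S T) (ρ ^ t * z) = logC t (hol K S z) (hol C T (ρ * z))
  str : ∀ z, 0 < z → z < a → ∃ Λ π, Str (hol K S z) (hol C T (ρ * z)) Λ π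
  stS : ∃ Λ π, Str S T Λ π

end Pool.Agent.Lib.MP_1dedaf_gt.BL

/-!
# MP_1dedaf_gt, BL, row 0: geometry of `app`
-/

set_option autoImplicit false

open MeasureTheory Set Filter Topology
open scoped ENNReal NNReal Pointwise

namespace Pool.Agent.Lib.MP_1dedaf_gt.BL

open Pool.Agent.Lib.MP_1dedaf_gt.SC
open Pool.Agent.Lib.MP_1dedaf_gt.EG

section R0

variable {N d : ℕ}

lemma r0_l (x : E N) (y : E d) (i : Fin N) : app x y (Fin.castAdd d i) = x i := by
  show Fin.append x.ofLp y.ofLp (Fin.castAdd d i) = x.ofLp i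
  rw [Fin.append_left]

lemma r0_r (x : E N) (y : E d) (j : Fin d) : app x y (Fin.natAdd N j) = y j := by
  show Fin.append x.ofLp y.ofLp (Fin.natAdd N j) = y.ofLp j
  rw [Fin.append_right]

lemma r0_fst (p : E (N + d)) (i : Fin N) : fst p i = p (Fin.castAdd d i) := rfl

lemma r0_snd (p : E (N + d)) (j : Fin d) : snd p j = p (Fin.natAdd N j) := rfl

lemma r0_ext {p q : E (N + d)} (h1 : ∀ i : Fin N, p (Fin.castAdd d i) = q (Fin.castAdd d i))
    (h2 : ∀ j : Fin d, p (Fin.natAdd N j) = q (Fin.natAdd N j)) : p = q := by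
  ext k
  exact Fin.addCases (motive := fun k => p k = q k) h1 h2 k

lemma app_eta (p : E (N + d)) : app (fst p) (snd p) = p :=
  r0_ext (fun i => by rw [r0_l, r0_fst]) (fun j => by rw [r0_r, r0_snd])

lemma fst_app (x : E N) (y : E d) : fst (app x y) = x := by
  ext i
  rw [r0_fst, r0_l]

lemma snd_app (x : E N) (y : E d) : snd (app x y) = y := by
  ext j
  rw [r0_snd, r0_r]

lemma inner_app (x u : E N) (y v : E d) :
    (inner ℝ (app x y) (app u v) : ℝ) = inner ℝ x u + inner ℝ y v := by
  simp only [PiLp.inner_apply]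
  rw [Fin.sum_univ_add]
  simp only [r0_l, r0_r]

lemma app_comb (a b : ℝ) (x x' : E N) (y y' : E d) :
    a • app x y + b • app x' y' = app (a • x + b • x') (a • y + b • y') := by
  refine r0_ext (fun i => ?_) (fun j => ?_)
  · rw [r0_l]
    simp only [PiLp.add_apply, PiLp.smul_apply, r0_l]
  · rw [r0_r]
    simp only [PiLp.add_apply, PiLp.smul_apply, r0_r]

lemma app_smul (a : ℝ) (x : E N) (y : E d) : a • app x y = app (a • x) (a • y) := by
  refine r0_ext (fun i => ?_) (fun j => ?_)
  · rw [r0_l]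
    simp only [PiLp.smul_apply, r0_l]
  · rw [r0_r]
    simp only [PiLp.smul_apply, r0_r]

lemma app_zero : app (0 : E N) (0 : E d) = 0 := by
  refine r0_ext (fun i => ?_) (fun j => ?_)
  · rw [r0_l]; rfl
  · rw [r0_r]; rfl

lemma app_inj {x x' : E N} {y y' : E d} (h : app x y = app x' y') : x = x' ∧ y = y' :=
  ⟨by rw [← fst_app x y, h, fst_app], by rw [← snd_app x y, h, snd_app]⟩

/-- `app` as a linear map. -/
noncomputable def r0_lin (N d : ℕ) : (E N × E d) →ₗ[ℝ] E (N + d) where
  toFun p := app p.1 p.2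
  map_add' p q := by
    have h := app_comb 1 1 p.1 q.1 p.2 q.2
    simp only [one_smul] at h
    exact h.symm
  map_smul' a p := (app_smul a p.1 p.2).symm

lemma app_sum {ι : Type*} (s : Finset ι) (f : ι → E N) (g : ι → E d) :
    ∑ i ∈ s, app (f i) (g i) = app (∑ i ∈ s, f i) (∑ i ∈ s, g i) := by
  have h := map_sum (r0_lin N d) (fun i => (f i, g i)) s
  have h2 : (∑ i ∈ s, (f i, g i)) = ((∑ i ∈ s, f i), (∑ i ∈ s, g i)) := by
    ext1
    · exact Prod.fst_sum
    · exact Prod.snd_sum
  rw [h2] at h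
  exact h.symm

lemma cont_app : Continuous (fun p : E N × E d => app p.1 p.2) :=
  (r0_lin N d).continuous_of_finiteDimensional

lemma cont_fst : Continuous (fst : E (N + d) → E N) := by
  unfold fst
  fun_prop

lemma cont_snd : Continuous (snd : E (N + d) → E d) := by
  unfold snd
  fun_prop

lemma sec_comp {K : Set (E (N + d))} (hK : IsCompact K) (y : E d) : IsCompact (sec K y) := by
  have h1 : sec K y = fst '' (K ∩ snd ⁻¹' {y}) := by
    ext x
    constructor
    · intro hx
      exact ⟨app x y, ⟨hx, by simp [snd_app]⟩, fst_app x y⟩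
    · rintro ⟨p, ⟨hp, hy⟩, rfl⟩
      have hy' : snd p = y := hy
      show app (fst p) y ∈ K
      rw [← hy', app_eta]
      exact hp
  rw [h1]
  exact (hK.inter_right (isClosed_singleton.preimage cont_snd)).image cont_fst

lemma sec_conv {K : Set (E (N + d))} (hK : Convex ℝ K) (y : E d) : Convex ℝ (sec K y) := by
  intro x hx x' hx' a b ha hb hab
  have h := hK hx hx' ha hb hab
  rw [app_comb, ← add_smul, hab, one_smul] at h
  exact h

/-- The block-diagonal map. -/
noncomputable def dia (T : E N →L[ℝ] E N) (U : E d →L[ℝ] E d) : E (N + d) →L[ℝ] E (N + d) :=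
  LinearMap.toContinuousLinearMap
    { toFun := fun p => app (T (fst p)) (U (snd p))
      map_add' := fun p q => by
        have h1 : fst (p + q) = fst p + fst q := rfl
        have h2 : snd (p + q) = snd p + snd q := rfl
        rw [h1, h2, map_add, map_add]
        have h := app_comb 1 1 (T (fst p)) (T (fst q)) (U (snd p)) (U (snd q))
        simp only [one_smul] at h
        exact h.symm
      map_smul' := fun a p => by
        have h1 : fst (a • p) = a • fst p := rfl
        have h2 : snd (a • p) = a • snd p := rfl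
        rw [h1, h2, map_smul, map_smul, RingHom.id_apply, app_smul] }

lemma dia_app (T : E N →L[ℝ] E N) (U : E d →L[ℝ] E d) (x : E N) (y : E d) :
    dia T U (app x y) = app (T x) (U y) := by
  show app (T (fst (app x y))) (U (snd (app x y))) = app (T x) (U y)
  rw [fst_app, snd_app]

end R0

end Pool.Agent.Lib.MP_1dedaf_gt.BL

/-!
# MP_1dedaf_gt, BL row 1: Fubini
-/

set_option autoImplicit false

open MeasureTheory Set Filter Topology
open scoped ENNReal NNReal Pointwise

namespace Pool.Agent.Lib.MP_1dedaf_gt.BL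

open Pool.Agent.Lib.MP_1dedaf_gt.SC
open Pool.Agent.Lib.MP_1dedaf_gt.EG

/-- `Fin.append` as a volume preserving map. -/
lemma r1_mp_append (N d : ℕ) :
    MeasurePreserving (fun p : (Fin N → ℝ) × (Fin d → ℝ) => Fin.append p.1 p.2)
      ((volume : Measure (Fin N → ℝ)).prod (volume : Measure (Fin d → ℝ)))
      (volume : Measure (Fin (N + d) → ℝ)) := by
  have h1 := volume_measurePreserving_sumPiEquivProdPi_symm (fun _ : Fin N ⊕ Fin d => ℝ)
  have h2 := volume_measurePreserving_piCongrLeft (fun _ : Fin (N + d) => ℝ)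
    (finSumFinEquiv (m := N) (n := d))
  have h3 := h2.comp h1
  have h4 : (fun p : (Fin N → ℝ) × (Fin d → ℝ) => Fin.append p.1 p.2) =
      ⇑(MeasurableEquiv.piCongrLeft (fun _ : Fin (N + d) => ℝ) (finSumFinEquiv (m := N) (n := d))) ∘
        ⇑(MeasurableEquiv.sumPiEquivProdPi (fun _ : Fin N ⊕ Fin d => ℝ)).symm := by
    funext p
    funext i
    refine Fin.addCases (fun a => ?_) (fun b => ?_) i
    · have h5 := Equiv.piCongrLeft_apply_apply (fun _ : Fin (N + d) => ℝ)
        (finSumFinEquiv (m := N) (n := d))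
        ((MeasurableEquiv.sumPiEquivProdPi (fun _ : Fin N ⊕ Fin d => ℝ)).symm p) (Sum.inl a)
      rw [Fin.append_left]
      exact h5.symm
    · have h5 := Equiv.piCongrLeft_apply_apply (fun _ : Fin (N + d) => ℝ)
        (finSumFinEquiv (m := N) (n := d))
        ((MeasurableEquiv.sumPiEquivProdPi (fun _ : Fin N ⊕ Fin d => ℝ)).symm p) (Sum.inr b)
      rw [Fin.append_right]
      exact h5.symm
  rw [h4]
  exact h3

/-- ROW 1: Fubini. -/
theorem mp_app (N d : ℕ) : MeasurePreserving (fun p : E N × E d => app p.1 p.2)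
    ((volume : Measure (E N)).prod (volume : Measure (E d))) volume := by
  have h1 := EuclideanSpace.volume_preserving_symm_measurableEquiv_toLp (Fin N)
  have h2 := EuclideanSpace.volume_preserving_symm_measurableEquiv_toLp (Fin d)
  have h3 := (EuclideanSpace.volume_preserving_symm_measurableEquiv_toLp (Fin (N + d))).symm
  have h4 := (h3.comp (r1_mp_append N d)).comp (h1.prod h2)
  exact h4

/-- The map `(x, y) ↦ app x y` as a measurable equivalence. -/
noncomputable def r1_equiv (N d : ℕ) : (E N × E d) ≃ᵐ E (N + d) where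
  toFun := fun p => app p.1 p.2
  invFun := fun p => (fst p, snd p)
  left_inv := fun p => by
    refine Prod.ext ?_ ?_
    · ext i
      show Fin.append p.1.ofLp p.2.ofLp (Fin.castAdd d i) = p.1 i
      rw [Fin.append_left]
    · ext i
      show Fin.append p.1.ofLp p.2.ofLp (Fin.natAdd N i) = p.2 i
      rw [Fin.append_right]
  right_inv := fun p => by
    ext i
    refine Fin.addCases (fun a => ?_) (fun b => ?_) i
    · show Fin.append (fst p).ofLp (snd p).ofLp (Fin.castAdd d a) = _
      rw [Fin.append_left]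
      rfl
    · show Fin.append (fst p).ofLp (snd p).ofLp (Fin.natAdd N b) = _
      rw [Fin.append_right]
      rfl
  measurable_toFun := (mp_app N d).measurable
  measurable_invFun := by
    refine Measurable.prodMk ?_ ?_
    · refine ((PiLp.continuous_toLp 2 _).comp (continuous_pi fun i => ?_)).measurable
      exact (continuous_apply (Fin.castAdd d i)).comp (PiLp.continuous_ofLp 2 _)
    · refine ((PiLp.continuous_toLp 2 _).comp (continuous_pi fun i => ?_)).measurable
      exact (continuous_apply (Fin.natAdd N i)).comp (PiLp.continuous_ofLp 2 _)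

lemma r1_emb (N d : ℕ) : MeasurableEmbedding (fun p : E N × E d => app p.1 p.2) :=
  (r1_equiv N d).measurableEmbedding

theorem vol_app {N d : ℕ} {K : Set (E (N + d))} (hK : MeasurableSet K) :
    volume K = ∫⁻ y : E d, volume (sec K y) := by
  rw [← (mp_app N d).measure_preimage hK.nullMeasurableSet,
    Measure.prod_apply_symm ((mp_app N d).measurable hK)]
  rfl

theorem meas_sec {N d : ℕ} {K : Set (E (N + d))} (hK : MeasurableSet K) :
    Measurable fun y => volume (sec K y) :=
  measurable_measure_prodMk_right (μ := (volume : Measure (E N))) ((mp_app N d).measurable hK)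

/-- The integral of a continuous function over a compact set, pulled back. -/
lemma r1_int {N d : ℕ} {K : Set (E (N + d))} (hK : IsCompact K) (f : E (N + d) → ℝ)
    (hf : Continuous f) :
    Integrable (((fun p : E N × E d => app p.1 p.2) ⁻¹' K).indicator
      (fun p : E N × E d => f (app p.1 p.2)))
      ((volume : Measure (E N)).prod (volume : Measure (E d))) ∧
    ∫ p in K, f p = ∫ p, ((fun p : E N × E d => app p.1 p.2) ⁻¹' K).indicator
      (fun p : E N × E d => f (app p.1 p.2)) p
      ∂((volume : Measure (E N)).prod (volume : Measure (E d))) := by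
  have hm : MeasurableSet ((fun p : E N × E d => app p.1 p.2) ⁻¹' K) :=
    (mp_app N d).measurable hK.measurableSet
  constructor
  · rw [integrable_indicator_iff hm]
    have h2 : IntegrableOn f K volume := hf.continuousOn.integrableOn_compact hK
    exact ((mp_app N d).integrableOn_comp_preimage (r1_emb N d)).2 h2
  · rw [integral_indicator hm]
    exact ((mp_app N d).setIntegral_preimage_emb (r1_emb N d) f K).symm

lemma r1_cont {n : ℕ} (i : Fin n) : Continuous fun p : E n => p i :=
  (continuous_apply i).comp (PiLp.continuous_ofLp 2 _)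

/-- The two centroid formulas. -/
theorem fub_fst {N d : ℕ} {K : Set (E (N + d))} (hK : IsCompact K) (i : Fin N)
    (h : ∀ y, ∫ x in sec K y, x i = 0) : ∫ p in K, p (Fin.castAdd d i) = 0 := by
  obtain ⟨h1, h2⟩ := r1_int hK (fun p => p (Fin.castAdd d i)) (r1_cont _)
  refine h2.trans ?_
  rw [integral_prod_symm _ h1]
  have h3 : ∀ y : E d, ∫ x : E N, ((fun p : E N × E d => app p.1 p.2) ⁻¹' K).indicator
      (fun p : E N × E d => (app p.1 p.2) (Fin.castAdd d i)) (x, y) = 0 := by
    intro y
    have hm : MeasurableSet (sec K y) := by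
      have h4 : Measurable fun x : E N => app x y :=
        (mp_app N d).measurable.comp (measurable_id.prodMk measurable_const)
      exact h4 hK.measurableSet
    rw [← h y, ← integral_indicator hm]
    congr 1
    funext x
    by_cases hx : app x y ∈ K
    · rw [indicator_of_mem (show x ∈ sec K y from hx),
        indicator_of_mem (show (x, y) ∈ (fun p : E N × E d => app p.1 p.2) ⁻¹' K from hx)]
      show Fin.append x.ofLp y.ofLp (Fin.castAdd d i) = x i
      rw [Fin.append_left]
    · rw [indicator_of_notMem (show x ∉ sec K y from hx),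
        indicator_of_notMem (show (x, y) ∉ (fun p : E N × E d => app p.1 p.2) ⁻¹' K from hx)]
  simp only [h3, integral_zero]

theorem fub_snd {N d : ℕ} {K : Set (E (N + d))} (hK : IsCompact K) (j : Fin d)
    (h : ∀ x : E N, ∫ y in {y | app x y ∈ K}, y j = 0) : ∫ p in K, p (Fin.natAdd N j) = 0 := by
  obtain ⟨h1, h2⟩ := r1_int hK (fun p => p (Fin.natAdd N j)) (r1_cont _)
  refine h2.trans ?_
  rw [integral_prod _ h1]
  have h3 : ∀ x : E N, ∫ y : E d, ((fun p : E N × E d => app p.1 p.2) ⁻¹' K).indicator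
      (fun p : E N × E d => (app p.1 p.2) (Fin.natAdd N j)) (x, y) = 0 := by
    intro x
    have hm : MeasurableSet {y : E d | app x y ∈ K} := by
      have h4 : Measurable fun y : E d => app x y :=
        (mp_app N d).measurable.comp (measurable_const.prodMk measurable_id)
      exact h4 hK.measurableSet
    rw [← h x, ← integral_indicator hm]
    congr 1
    funext y
    by_cases hx : app x y ∈ K
    · rw [indicator_of_mem (show y ∈ {y : E d | app x y ∈ K} from hx),
        indicator_of_mem (show (x, y) ∈ (fun p : E N × E d => app p.1 p.2) ⁻¹' K from hx)]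
      show Fin.append x.ofLp y.ofLp (Fin.natAdd N j) = y j
      rw [Fin.append_right]
    · rw [indicator_of_notMem (show y ∉ {y : E d | app x y ∈ K} from hx),
        indicator_of_notMem (show (x, y) ∉ (fun p : E N × E d => app p.1 p.2) ⁻¹' K from hx)]
  simp only [h3, integral_zero]

end Pool.Agent.Lib.MP_1dedaf_gt.BL

/-!
# MP_1dedaf_gt, BL: integrals of functions of the gauge
-/

set_option autoImplicit false

open MeasureTheory Set Filter Topology
open scoped ENNReal NNReal Pointwise

namespace Pool.Agent.Lib.MP_1dedaf_gt.BL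

open Pool.Agent.Lib.MP_1dedaf_gt.SC
open Pool.Agent.Lib.MP_1dedaf_gt.EG

section R2

variable {d : ℕ} {S : Set (E d)}

lemma r2_nhds (hS : Sh S) : S ∈ 𝓝 (0 : E d) := mem_interior_iff_mem_nhds.1 hS.zero

lemma r2_cont (hS : Sh S) : Continuous (gauge S) := continuous_gauge hS.conv (r2_nhds hS)

lemma r2_le (hS : Sh S) {r : ℝ} (hr : 0 < r) : {y : E d | gauge S y ≤ r} = r • S := by
  ext y
  rw [mem_smul_set_iff_inv_smul_mem₀ hr.ne', mem_ofPred_eq]
  have h1 : gauge S (r⁻¹ • y) = r⁻¹ * gauge S y := by
    rw [gauge_smul_of_nonneg (inv_nonneg.2 hr.le), smul_eq_mul]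
  have h2 := gauge_le_one_iff_mem_closure (x := r⁻¹ • y) hS.conv (r2_nhds hS)
  rw [hS.comp.isClosed.closure_eq, h1] at h2
  rw [← h2, inv_mul_le_iff₀ hr, mul_one]

lemma r2_eq_zero (hS : Sh S) {y : E d} : gauge S y = 0 ↔ y = 0 :=
  gauge_eq_zero (absorbent_nhds_zero (r2_nhds hS))
    ((NormedSpace.isVonNBounded_iff ℝ).2 hS.comp.isBounded)

lemma r2_vol (hd : 0 < d) (hS : Sh S) {a : ℝ} :
    volume {y : E d | gauge S y ^ d ≤ a} = volume S * ENNReal.ofReal a := by
  rcases le_or_gt a 0 with ha | ha
  · rw [ENNReal.ofReal_of_nonpos ha, mul_zero]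
    refine measure_mono_null (t := {(0 : E d)}) ?_ ?_
    · intro y hy
      have h1 : gauge S y ^ d ≤ 0 := le_trans hy ha
      have h2 : gauge S y = 0 := by
        by_contra h3
        have h4 : 0 < gauge S y := lt_of_le_of_ne (gauge_nonneg y) (Ne.symm h3)
        exact absurd h1 (not_le.2 (pow_pos h4 d))
      exact (r2_eq_zero hS).1 h2
    · have : Nonempty (Fin d) := ⟨⟨0, hd⟩⟩
      have : Nontrivial (E d) := inferInstance
      exact measure_singleton 0
  · have hd' : (d : ℝ) ≠ 0 := by exact_mod_cast hd.ne'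
    have h1 : {y : E d | gauge S y ^ d ≤ a} = (a ^ ((1 : ℝ) / d)) • S := by
      rw [← r2_le hS (Real.rpow_pos_of_pos ha _)]
      ext y
      rw [mem_ofPred_eq, mem_ofPred_eq]
      have h2 : (a ^ ((1 : ℝ) / d)) ^ d = a := by
        rw [← Real.rpow_natCast, ← Real.rpow_mul ha.le, one_div_mul_cancel hd', Real.rpow_one]
      constructor
      · intro h
        refine le_of_pow_le_pow_left₀ hd.ne' (Real.rpow_nonneg ha.le _) ?_
        rw [h2]
        exact h
      · intro h
        rw [← h2]
        exact pow_le_pow_left₀ (gauge_nonneg y) h d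
    have h3 : (a ^ ((1 : ℝ) / d)) ^ d = a := by
      rw [← Real.rpow_natCast, ← Real.rpow_mul ha.le, one_div_mul_cancel hd', Real.rpow_one]
    rw [h1, Measure.addHaar_smul, finrank_euclideanSpace_fin, h3, abs_of_pos ha, mul_comm]

/-- The image of the Lebesgue measure. -/
lemma r2_map (hd : 0 < d) (hS : Sh S) :
    Measure.map (fun y : E d => gauge S y ^ d) volume =
      volume S • (volume.restrict (Ioi (0 : ℝ))) := by
  have hm : Measurable fun y : E d => gauge S y ^ d := ((r2_cont hS).pow d).measurable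
  have hfin : volume S ≠ ∞ := hS.comp.measure_lt_top.ne
  have key : ∀ a : ℝ, Measure.map (fun y : E d => gauge S y ^ d) volume (Iic a) =
      volume S * ENNReal.ofReal a := by
    intro a
    rw [Measure.map_apply hm measurableSet_Iic]
    exact r2_vol hd hS
  refine Measure.ext_of_Ioc' _ _ ?_ ?_
  · intro a b _
    refine ne_top_of_le_ne_top ?_ (measure_mono (Ioc_subset_Iic_self))
    rw [key]
    exact ENNReal.mul_ne_top hfin ENNReal.ofReal_ne_top
  · intro a b hab
    have h1 : Ioc a b = Iic b \ Iic a := by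
      ext x
      simp [and_comm]
    have h2 : volume.restrict (Ioi (0 : ℝ)) (Ioc a b) = ENNReal.ofReal b - ENNReal.ofReal a := by
      rw [Measure.restrict_apply measurableSet_Ioc]
      have h3 : Ioc a b ∩ Ioi (0 : ℝ) = Ioc (max a 0) b := by
        ext x
        simp only [mem_inter_iff, mem_Ioc, mem_Ioi, max_lt_iff]
        tauto
      rw [h3, Real.volume_Ioc]
      rcases le_total a 0 with ha | ha
      · rw [max_eq_right ha, sub_zero, ENNReal.ofReal_of_nonpos ha, tsub_zero]
      · rw [max_eq_left ha, ENNReal.ofReal_sub _ ha]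
    rw [h1, measure_sdiff (Iic_subset_Iic.2 hab.le) measurableSet_Iic.nullMeasurableSet, key, key,
      ← h1, Measure.smul_apply, h2, smul_eq_mul, ENNReal.mul_sub fun _ _ => hfin]
    rw [key]
    exact ENNReal.mul_ne_top hfin ENNReal.ofReal_ne_top

theorem lint_gauge {d : ℕ} (hd : 0 < d) {S : Set (E d)} (hS : Sh S) {φ : ℝ → ℝ≥0∞}
    (hφ : Measurable φ) :
    ∫⁻ y : E d, φ (gauge S y) =
      volume S * ∫⁻ ρ in Ioi (0 : ℝ), φ (ρ ^ ((1 : ℝ) / d)) := by
  have hm : Measurable fun y : E d => gauge S y ^ d := ((r2_cont hS).pow d).measurable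
  have hd' : (d : ℝ) ≠ 0 := by exact_mod_cast hd.ne'
  have h1 : ∀ y : E d, φ (gauge S y) = φ ((gauge S y ^ d) ^ ((1 : ℝ) / d)) := by
    intro y
    rw [← Real.rpow_natCast, ← Real.rpow_mul (gauge_nonneg y), mul_one_div_cancel hd',
      Real.rpow_one]
  have h2 : Measurable fun ρ : ℝ => φ (ρ ^ ((1 : ℝ) / d)) :=
    hφ.comp (measurable_id.pow_const _)
  simp only [h1]
  rw [← lintegral_map h2 hm, r2_map hd hS, lintegral_smul_measure, smul_eq_mul]

end R2

end Pool.Agent.Lib.MP_1dedaf_gt.BL

/-!
# MP_1dedaf_gt, BL row 3: `hol`, sections, gauges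
-/

set_option autoImplicit false

open MeasureTheory Set Filter Topology
open scoped ENNReal NNReal Pointwise

namespace Pool.Agent.Lib.MP_1dedaf_gt.BL

open Pool.Agent.Lib.MP_1dedaf_gt.SC
open Pool.Agent.Lib.MP_1dedaf_gt.EG

/-! ROW 3: `hol`. -/

section R3aux

variable {d : ℕ} {S : Set (E d)}

private lemma r3_zero (hS : Sh S) : (0 : E d) ∈ S := interior_subset hS.zero

private lemma r3_nhds (hS : Sh S) : S ∈ 𝓝 (0 : E d) := mem_interior_iff_mem_nhds.1 hS.zero

private lemma r3_mem_iff (hS : Sh S) (y : E d) : y ∈ S ↔ gauge S y ≤ 1 := by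
  rw [gauge_le_one_iff_mem_closure hS.conv (r3_nhds hS), hS.comp.isClosed.closure_eq]

private lemma r3_pos (hS : Sh S) (y : E d) : 0 < gauge S y ↔ y ≠ 0 :=
  gauge_pos (absorbent_nhds_zero (r3_nhds hS))
    ((NormedSpace.isVonNBounded_iff ℝ).2 hS.comp.isBounded)

private lemma r3_gz (hS : Sh S) {y : E d} (h : gauge S y = 0) : y = 0 := by
  by_contra hne
  have := (r3_pos hS y).2 hne
  rw [h] at this
  exact lt_irrefl _ this

private lemma r3_smul (S : Set (E d)) {c : ℝ} (hc : 0 ≤ c) (y : E d) :
    gauge S (c • y) = c * gauge S y := by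
  rw [gauge_smul_of_nonneg hc, smul_eq_mul]

/-- Every point is a multiple of a point of the shape. -/
private lemma r3_decomp (hS : Sh S) {y : E d} {r : ℝ} (h : gauge S y ≤ r) :
    ∃ s ∈ S, y = r • s := by
  have hr : 0 ≤ r := (gauge_nonneg y).trans h
  rcases hr.eq_or_lt with h0 | h0
  · refine ⟨0, r3_zero hS, ?_⟩
    have : gauge S y = 0 := le_antisymm (by rw [h0]; exact h) (gauge_nonneg y)
    rw [smul_zero]
    exact r3_gz hS this
  · refine ⟨r⁻¹ • y, ?_, ?_⟩
    · rw [r3_mem_iff hS, r3_smul S (inv_nonneg.2 h0.le)]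
      rw [inv_mul_le_iff₀ h0, mul_one]
      exact h
    · rw [smul_smul, mul_inv_cancel₀ h0.ne', one_smul]

end R3aux

section R3

variable {N d : ℕ} {K : Set (E (N + d))} {S : Set (E d)}

theorem hol_conv (hK : Convex ℝ K) (r : ℝ) : Convex ℝ (hol K S r) := by
  intro x hx x' hx' a b ha hb hab s hs
  have h := hK (hx s hs) (hx' s hs) ha hb hab
  rw [app_comb, ← add_smul, hab, one_smul] at h
  exact h

theorem hol_comp (hK : IsCompact K) (hS : S.Nonempty) (r : ℝ) : IsCompact (hol K S r) := by
  obtain ⟨s0, hs0⟩ := hS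
  refine (hK.image (cont_fst (N := N) (d := d))).of_isClosed_subset ?_ ?_
  · have : hol K S r = ⋂ s ∈ S, (fun x : E N => app x (r • s)) ⁻¹' K := by
      ext x
      simp only [hol, mem_ofPred_eq, mem_iInter, mem_preimage]
    rw [this]
    refine isClosed_biInter fun s _ => hK.isClosed.preimage ?_
    exact cont_app.comp (continuous_id.prodMk continuous_const)
  · intro x hx
    exact ⟨app x (r • s0), hx s0 hs0, fst_app _ _⟩

theorem hol_anti (hS : Sh S) {r r' : ℝ} (h0 : 0 ≤ r) (h : r ≤ r') : hol K S r' ⊆ hol K S r := by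
  intro x hx s hs
  have hr' : 0 ≤ r' := h0.trans h
  rcases hr'.eq_or_lt with h1 | h1
  · have h2 : r = 0 := le_antisymm (by rw [h1]; exact h) h0
    have := hx s hs
    rw [← h1] at this
    rw [h2]
    exact this
  · have h2 : (r / r') • s ∈ S := by
      rw [r3_mem_iff hS, r3_smul S (div_nonneg h0 h1.le)]
      have h3 : gauge S s ≤ 1 := (r3_mem_iff hS s).1 hs
      have h4 : r / r' ≤ 1 := (div_le_one h1).2 h
      calc r / r' * gauge S s ≤ 1 * 1 :=
            mul_le_mul h4 h3 (gauge_nonneg _) zero_le_one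
        _ = 1 := one_mul 1
    have h3 := hx _ h2
    rw [smul_smul, mul_div_cancel₀ _ h1.ne'] at h3
    exact h3

theorem hol_zero (hS : S.Nonempty) : hol K S 0 = sec K 0 := by
  ext x
  constructor
  · intro h
    obtain ⟨s, hs⟩ := hS
    have := h s hs
    rw [zero_smul] at this
    exact this
  · intro h s _
    rw [zero_smul]
    exact h

theorem sec_eq_hol (hK : Convex ℝ K) (hS : Sh S) (hB : Blk K S) (y : E d) :
    sec K y = hol K S (gauge S y) := by
  apply Subset.antisymm
  · intro x hx s hs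
    have hx' : app x y ∈ K := hx
    rcases (gauge_nonneg (s := S) y).eq_or_lt with h0 | h0
    · have hy : y = 0 := r3_gz hS h0.symm
      rw [← h0, zero_smul]
      rw [hy] at hx'
      exact hx'
    · have hy : y ≠ 0 := (r3_pos hS y).1 h0
      have h1 : 0 < gauge S (-y) := (r3_pos hS (-y)).2 (neg_ne_zero.2 hy)
      -- the point opposite to `y`
      set c : ℝ := gauge S y / gauge S (-y) with hc
      have hc0 : 0 < c := div_pos h0 h1
      have h2 : gauge S (c • (-y)) = gauge S y := by
        rw [r3_smul S hc0.le, hc, div_mul_cancel₀ _ h1.ne']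
      have h3 : app x (c • (-y)) ∈ K := hB x y _ h2 hx'
      have hc1 : 0 < 1 + c := by linarith
      have h4 : app x 0 ∈ K := by
        have h := hK hx' h3 (div_nonneg hc0.le hc1.le) (div_nonneg zero_le_one hc1.le)
          (by rw [← add_div, add_comm c 1, div_self hc1.ne'])
        rw [app_comb, ← add_smul, ← add_div, add_comm c 1, div_self hc1.ne', one_smul] at h
        have h5 : (c / (1 + c)) • y + (1 / (1 + c)) • (c • (-y)) = 0 := by
          rw [smul_neg, smul_neg, smul_smul, ← sub_eq_add_neg, ← sub_smul]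
          rw [one_div_mul_eq_div, sub_self, zero_smul]
        rw [h5] at h
        exact h
      by_cases hs0 : s = 0
      · rw [hs0, smul_zero]
        exact h4
      · have h5 : 0 < gauge S s := (r3_pos hS s).2 hs0
        have h6 : gauge S s ≤ 1 := (r3_mem_iff hS s).1 hs
        have h7 : gauge S (gauge S y • ((gauge S s)⁻¹ • s)) = gauge S y := by
          rw [r3_smul S h0.le, r3_smul S (inv_nonneg.2 h5.le), inv_mul_cancel₀ h5.ne', mul_one]
        have h8 : app x (gauge S y • ((gauge S s)⁻¹ • s)) ∈ K := hB x y _ h7 hx'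
        have h9 := hK h8 h4 h5.le (sub_nonneg.2 h6) (by ring)
        rw [app_comb, ← add_smul] at h9
        have h10 : gauge S s + (1 - gauge S s) = 1 := by ring
        rw [h10, one_smul, smul_zero, add_zero, smul_smul, smul_smul] at h9
        have h11 : gauge S s * gauge S y * (gauge S s)⁻¹ = gauge S y := by
          field_simp
        rw [h11] at h9
        exact h9
  · intro x hx
    obtain ⟨s, hs, h⟩ := r3_decomp hS (le_refl (gauge S y))
    have := hx s hs
    rw [← h] at this
    exact this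

/-- There are points with every gauge. -/
theorem exists_gauge (hd : 0 < d) (hS : Sh S) {r : ℝ} (hr : 0 ≤ r) : ∃ y, gauge S y = r := by
  have : Nonempty (Fin d) := ⟨⟨0, hd⟩⟩
  obtain ⟨v, hv⟩ := exists_ne (0 : E d)
  have h : 0 < gauge S v := (r3_pos hS v).2 hv
  refine ⟨(r / gauge S v) • v, ?_⟩
  rw [r3_smul S (div_nonneg hr h.le), div_mul_cancel₀ _ h.ne']

/-- Sections along a line: `{y : (x, y) ∈ K}` is a dilate of `S` (or empty). -/
theorem fib_eq (hd : 0 < d) (hK : Convex ℝ K) (hKc : IsCompact K) (hS : Sh S) (hB : Blk K S)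
    (x : E N) : {y : E d | app x y ∈ K} = ∅ ∨ ∃ r : ℝ, 0 ≤ r ∧ {y : E d | app x y ∈ K} = r • S := by
  rcases eq_empty_or_nonempty {y : E d | app x y ∈ K} with he | hne
  · exact Or.inl he
  right
  have hc : IsCompact {y : E d | app x y ∈ K} := by
    refine (hKc.image (cont_snd (N := N) (d := d))).of_isClosed_subset ?_ ?_
    · exact hKc.isClosed.preimage (cont_app.comp (continuous_const.prodMk continuous_id))
    · intro y hy
      exact ⟨app x y, hy, snd_app _ _⟩
  obtain ⟨y0, hy0, hmax⟩ := hc.exists_isMaxOn hne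
    (continuous_gauge hS.conv (r3_nhds hS)).continuousOn
  refine ⟨gauge S y0, gauge_nonneg _, ?_⟩
  apply Subset.antisymm
  · intro y hy
    obtain ⟨s, hs, h⟩ := r3_decomp hS (hmax hy)
    exact ⟨s, hs, h.symm⟩
  · rintro _ ⟨s, hs, rfl⟩
    have h : x ∈ sec K y0 := hy0
    rw [sec_eq_hol hK hS hB y0] at h
    exact h s hs

end R3

end Pool.Agent.Lib.MP_1dedaf_gt.BL

/-!
# MP_1dedaf_gt, BL, row 3b: the body with one mirror
-/

set_option autoImplicit false

open MeasureTheory Set Filter Topology
open scoped ENNReal NNReal Pointwise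

namespace Pool.Agent.Lib.MP_1dedaf_gt.BL

open Pool.Agent.Lib.MP_1dedaf_gt.SC
open Pool.Agent.Lib.MP_1dedaf_gt.EG

section R3b

variable {N d : ℕ} {K : Set (E (N + d))} {S : Set (E d)}

theorem slice_til (z : ℝ) : slice (til K S) z = hol K S |z| := by
  ext x
  change ini (SC.ext x z) ∈ hol K S |SC.ext x z (Fin.last N)| ↔ _
  rw [ini_ext, ext_last]

lemma r3b_mem (x : E N) (z : ℝ) : SC.ext x z ∈ til K S ↔ x ∈ hol K S |z| := by
  rw [← slice_til]
  rfl

lemma r3b_ini_comb (a b : ℝ) (p q : E (N + 1)) :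
    ini (a • p + b • q) = a • ini p + b • ini q := by
  ext i
  simp only [ini_apply, PiLp.add_apply, PiLp.smul_apply, smul_eq_mul]

theorem til_conv (hK : Convex ℝ K) (hS : Sh S) : Convex ℝ (til K S) := by
  intro p hp q hq a b ha hb hab
  have hp' : ini p ∈ hol K S |p (Fin.last N)| := hp
  have hq' : ini q ∈ hol K S |q (Fin.last N)| := hq
  change ini (a • p + b • q) ∈ hol K S |(a • p + b • q) (Fin.last N)|
  have h1 : (a • p + b • q) (Fin.last N) = a * p (Fin.last N) + b * q (Fin.last N) := by
    simp only [PiLp.add_apply, PiLp.smul_apply, smul_eq_mul]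
  rw [r3b_ini_comb, h1]
  have h2 : |a * p (Fin.last N) + b * q (Fin.last N)| ≤
      a * |p (Fin.last N)| + b * |q (Fin.last N)| := by
    refine (abs_add_le _ _).trans ?_
    rw [abs_mul, abs_mul, abs_of_nonneg ha, abs_of_nonneg hb]
  apply hol_anti hS (abs_nonneg _) h2
  intro s hs
  have h3 := hK (hp' s hs) (hq' s hs) ha hb hab
  rw [app_comb, smul_smul, smul_smul, ← add_smul] at h3
  exact h3

theorem til_comp (hd : 0 < d) (hK : IsCompact K) (hS : Sh S) : IsCompact (til K S) := by
  -- a nonzero vector of `S`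
  obtain ⟨s, hs, hs0⟩ : ∃ s ∈ S, s ≠ 0 := by
    have h1 : ∀ᶠ e : ℝ in 𝓝[>] 0, e • (EuclideanSpace.single (⟨0, hd⟩ : Fin d) (1 : ℝ)) ∈
        interior S := by
      have h2 : Tendsto (fun e : ℝ => e • (EuclideanSpace.single (⟨0, hd⟩ : Fin d) (1 : ℝ)))
          (𝓝 0) (𝓝 ((0 : ℝ) • (EuclideanSpace.single (⟨0, hd⟩ : Fin d) (1 : ℝ)))) :=
        (continuous_id.smul continuous_const).tendsto 0
      rw [zero_smul] at h2
      exact (h2.mono_left nhdsWithin_le_nhds).eventually (isOpen_interior.mem_nhds hS.zero)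
    obtain ⟨e, he1, he2⟩ := (h1.and self_mem_nhdsWithin).exists
    have he2' : (0 : ℝ) < e := he2
    refine ⟨_, interior_subset he1, ?_⟩
    intro h3
    rcases smul_eq_zero.1 h3 with h4 | h4
    · exact he2'.ne' h4
    · have h5 := congrArg (fun v : E d => v ⟨0, hd⟩) h4
      simp at h5
  -- a compact superset
  have hA : IsCompact (fst '' K) := hK.image cont_fst
  obtain ⟨M, hM⟩ : ∃ M : ℝ, ∀ p ∈ K, ‖snd p‖ ≤ M := by
    obtain ⟨M, hM⟩ := (hK.image cont_snd).isBounded.exists_norm_le
    exact ⟨M, fun p hp => hM _ (mem_image_of_mem _ hp)⟩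
  have hsn : 0 < ‖s‖ := norm_pos_iff.2 hs0
  have hC : IsCompact ((fun q : E N × ℝ => SC.ext q.1 q.2) ''
      ((fst '' K) ×ˢ (Icc (-(M / ‖s‖)) (M / ‖s‖)))) :=
    (hA.prod isCompact_Icc).image EQ.cont_ext2
  refine hC.of_isClosed_subset ?_ ?_
  · have h1 : til K S = ⋂ s ∈ S, {p : E (N + 1) |
        app (ini p) (|p (Fin.last N)| • s) ∈ K} := by
      ext p
      simp only [mem_iInter, Set.mem_ofPred_eq]
      rfl
    rw [h1]
    refine isClosed_biInter fun s _ => ?_
    have h2 : Continuous fun p : E (N + 1) => app (ini p) (|p (Fin.last N)| • s) := by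
      have h3 : Continuous fun p : E (N + 1) => |p (Fin.last N)| • s :=
        (continuous_abs.comp (EuclideanSpace.proj (𝕜 := ℝ) (Fin.last N)).continuous).smul
          continuous_const
      exact cont_app.comp (cont_ini.prodMk h3)
    exact hK.isClosed.preimage h2
  · intro p hp
    have hp' : ini p ∈ hol K S |p (Fin.last N)| := hp
    have h1 := hp' s hs
    refine ⟨(ini p, p (Fin.last N)), ⟨?_, ?_⟩, ext_ini p⟩
    · exact ⟨_, h1, fst_app _ _⟩
    · have h2 := hM _ h1
      rw [snd_app, norm_smul, Real.norm_eq_abs, abs_abs] at h2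
      have h3 : |p (Fin.last N)| ≤ M / ‖s‖ := by
        rw [le_div_iff₀ hsn]
        exact h2
      exact abs_le.1 h3

theorem til_mir (x : E N) (z : ℝ) (h : SC.ext x z ∈ til K S) : SC.ext x (-z) ∈ til K S := by
  rw [r3b_mem] at h ⊢
  rwa [abs_neg]

/-- The mirror body has a height, if its slices of positive volume contain the origin. -/
theorem mir_til (hd : 0 < d) (hK : Body K) (hS : Sh S) (hB : Blk K S)
    (h0 : ∀ r, 0 ≤ r → volume (hol K S r) ≠ 0 → (0 : E N) ∈ hol K S r) :
    ∃ m, Mir (til K S) m := by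
  have hX := til_comp hd hK.comp hS
  have hXc := til_conv hK.conv hS
  -- an interior point with `y ≠ 0`
  obtain ⟨x1, y1, hy1, hi⟩ : ∃ (x1 : E N) (y1 : E d), y1 ≠ 0 ∧ app x1 y1 ∈ interior K := by
    obtain ⟨p, hp⟩ := hK.int
    by_cases h1 : snd p = 0
    · have h2 : Continuous fun e : ℝ =>
          app (fst p) (e • (EuclideanSpace.single (⟨0, hd⟩ : Fin d) (1 : ℝ))) :=
        cont_app.comp (continuous_const.prodMk (continuous_id.smul continuous_const))
      have h3 : Tendsto (fun e : ℝ =>
          app (fst p) (e • (EuclideanSpace.single (⟨0, hd⟩ : Fin d) (1 : ℝ)))) (𝓝 0) (𝓝 p) := by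
        have h4 := h2.tendsto 0
        rw [zero_smul, ← h1, app_eta] at h4
        exact h4
      have h5 := (h3.mono_left (nhdsWithin_le_nhds (s := Ioi (0 : ℝ)))).eventually
        (isOpen_interior.mem_nhds hp)
      obtain ⟨e, he1, he2⟩ := (h5.and self_mem_nhdsWithin).exists
      have he2' : (0 : ℝ) < e := he2
      refine ⟨_, _, ?_, he1⟩
      intro h6
      rcases smul_eq_zero.1 h6 with h7 | h7
      · exact he2'.ne' h7
      · have h8 := congrArg (fun v : E d => v ⟨0, hd⟩) h7
        simp at h8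
    · exact ⟨fst p, snd p, h1, by rwa [app_eta]⟩
  -- a slice of positive volume at a positive height
  set r0 := gauge S y1 with hr0
  have hr0p : 0 < r0 :=
    (gauge_pos (absorbent_nhds_zero (mem_interior_iff_mem_nhds.1 hS.zero))
      (NormedSpace.isVonNBounded_iff ℝ |>.2 hS.comp.isBounded)).2 hy1
  set U : Set (E N) := {x | app x y1 ∈ interior K} with hU
  have hUo : IsOpen U :=
    isOpen_interior.preimage (cont_app.comp (continuous_id.prodMk continuous_const))
  have hU1 : x1 ∈ U := hi
  have hUs : U ⊆ hol K S r0 := by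
    intro x hx
    rw [hr0, ← sec_eq_hol hK.conv hS hB]
    exact interior_subset (s := K) hx
  have hXr : SC.ext x1 r0 ∈ til K S := by
    rw [r3b_mem, abs_of_pos hr0p]
    exact hUs hU1
  -- the height
  have hlast : Continuous fun p : E (N + 1) => p (Fin.last N) :=
    (EuclideanSpace.proj (𝕜 := ℝ) (Fin.last N)).continuous
  obtain ⟨q, hq, hmax⟩ := hX.exists_isMaxOn ⟨_, hXr⟩ hlast.continuousOn
  have hle : ∀ (x : E N) (z : ℝ), SC.ext x z ∈ til K S → z ≤ q (Fin.last N) := by
    intro x z hx
    have h1 : (SC.ext x z) (Fin.last N) ≤ q (Fin.last N) := hmax hx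
    rwa [ext_last] at h1
  have hpos : 0 < q (Fin.last N) := hr0p.trans_le (hle _ _ hXr)
  have hqq : SC.ext (ini q) (q (Fin.last N)) ∈ til K S := by
    rw [ext_ini]
    exact hq
  refine ⟨q (Fin.last N), hXc, hX, til_mir, hpos, ?_, hle, ?_⟩
  · have h3 : Continuous fun l : ℝ => SC.ext (0 : E N) ((1 - l) * q (Fin.last N) + l * r0) :=
      EQ.cont_ext2.comp (continuous_const.prodMk (by fun_prop))
    have h4 := EQ.closed_lim hX.isClosed h3 (fun l hl0 hl1 => by
      have hw : 0 ≤ (1 - l) * q (Fin.last N) + l * r0 :=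
        add_nonneg (mul_nonneg (sub_nonneg.2 hl1.le) hpos.le) (mul_nonneg hl0.le hr0p.le)
      rw [r3b_mem, abs_of_nonneg hw]
      apply h0 _ hw
      have h5 : {x : E N | l⁻¹ • (x - (1 - l) • ini q) ∈ U} ⊆
          hol K S ((1 - l) * q (Fin.last N) + l * r0) := by
        intro x hx
        have h6 : SC.ext (l⁻¹ • (x - (1 - l) • ini q)) r0 ∈ til K S := by
          rw [r3b_mem, abs_of_pos hr0p]
          exact hUs hx
        have h7 := hXc hqq h6 (sub_nonneg.2 hl1.le) hl0.le (by ring)
        rw [ext_comb, smul_smul, mul_inv_cancel₀ hl0.ne', one_smul, add_sub_cancel, r3b_mem,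
          abs_of_nonneg hw] at h7
        exact h7
      have h8 : IsOpen {x : E N | l⁻¹ • (x - (1 - l) • ini q) ∈ U} :=
        hUo.preimage ((continuous_id.sub continuous_const).const_smul l⁻¹)
      have h9 : {x : E N | l⁻¹ • (x - (1 - l) • ini q) ∈ U}.Nonempty := by
        refine ⟨(1 - l) • ini q + l • x1, ?_⟩
        change l⁻¹ • ((1 - l) • ini q + l • x1 - (1 - l) • ini q) ∈ U
        rw [add_sub_cancel_left, smul_smul, inv_mul_cancel₀ hl0.ne', one_smul]
        exact hU1
      exact (lt_of_lt_of_le (h8.measure_pos volume h9) (measure_mono h5)).ne')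
    have h10 : (1 - (0 : ℝ)) * q (Fin.last N) + 0 * r0 = q (Fin.last N) := by ring
    rw [h10] at h4
    exact h4
  · have h11 : {p : E (N + 1) | ini p ∈ U ∧ |p (Fin.last N)| < r0} ⊆ til K S := by
      rintro p ⟨hp1, hp2⟩
      exact hol_anti hS (abs_nonneg _) hp2.le (hUs hp1)
    have h12 : IsOpen {p : E (N + 1) | ini p ∈ U ∧ |p (Fin.last N)| < r0} :=
      (hUo.preimage cont_ini).inter (isOpen_lt (continuous_abs.comp hlast) continuous_const)
    have h13 : {p : E (N + 1) | ini p ∈ U ∧ |p (Fin.last N)| < r0}.Nonempty := by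
      refine ⟨SC.ext x1 0, ?_, ?_⟩
      · rw [ini_ext]
        exact hU1
      · rw [ext_last, abs_zero]
        exact hr0p
    exact (lt_of_lt_of_le (h12.measure_pos volume h13) (measure_mono h11)).ne'

end R3b

end Pool.Agent.Lib.MP_1dedaf_gt.BL
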