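import Pool.Agent.Lib.MP_1dedaf_gt.BL.A
import Pool.Agent.Lib.MP_1dedaf_gt.ED.D

/-!
# MP_1dedaf_gt, BL, row 4: the inclusion
-/

set_option autoImplicit false

open MeasureTheory Set Filter Topology
open scoped ENNReal NNReal Pointwise

namespace Pool.Agent.Lib.MP_1dedaf_gt.BL

open Pool.Agent.Lib.MP_1dedaf_gt.SC
open Pool.Agent.Lib.MP_1dedaf_gt.EG

theorem supp_hol {N d : ℕ} {K : Set (E (N + d))} (hK : IsCompact K) {S : Set (E d)}
    (hS : IsCompact S) (hne : S.Nonempty) {r : ℝ} (hr : 0 ≤ r) (h : (hol K S r).Nonempty)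
    (u : E N) (v : E d) : supp (hol K S r) u + r * supp S v ≤ supp K (app u v) := by
  have _ := hr
  obtain ⟨s, hs, h1⟩ := supp_attained hS hne v
  have h2 : supp (hol K S r) u ≤ supp K (app u v) - r * supp S v := by
    apply csSup_le (h.image _)
    rintro _ ⟨x, hx, rfl⟩
    have h3 := le_supp hK (app u v) (hx s hs)
    rw [inner_app, real_inner_smul_left, h1] at h3
    show inner ℝ x u ≤ _
    linarith
  linarith

/-- The sections `hol` are compact. -/
lemma r4_comp {N d : ℕ} {K : Set (E (N + d))} {S : Set (E d)} (hK : IsCompact K)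
    (hS : S.Nonempty) (r : ℝ) : IsCompact (hol K S r) := by
  obtain ⟨s, hs⟩ := hS
  have h1 : hol K S r = (⋂ s ∈ S, sec K (r • s)) := by
    ext x
    simp [hol, sec]
  have h2 : IsClosed (hol K S r) := by
    rw [h1]
    exact isClosed_biInter fun s _ => (sec_comp hK _).isClosed
  exact (sec_comp hK (r • s)).of_isClosed_subset h2 fun x hx => hx s hs

theorem incl {N d : ℕ} {t : ℝ} (ht0 : 0 < t) (ht1 : t < 1) {K C : Set (E (N + d))}
    (hK : IsCompact K) (hC : IsCompact C) {S T : Set (E d)} (hS : Sh S) (hT : Sh T) {r r' : ℝ}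
    (hr : 0 < r) (hr' : 0 < r') (h0 : (0 : E N) ∈ hol K S r) (h0' : (0 : E N) ∈ hol C T r') :
    logC t (hol K S r) (hol C T r') ⊆
      hol (logC t K C) (logC t S T) (r ^ (1 - t) * r' ^ t) := by
  have hs0 : 0 < 1 - t := by linarith
  have hSz : (0 : E d) ∈ S := interior_subset hS.zero
  have hTz : (0 : E d) ∈ T := interior_subset hT.zero
  intro x hx y hy
  intro p hp
  have hAc := r4_comp hK ⟨0, hSz⟩ r
  have hBc := r4_comp hC ⟨0, hTz⟩ r'
  rw [← app_eta p, inner_app, real_inner_smul_left]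
  have h1 := logC_all hAc hBc h0 h0' hx (fst p)
  have h2 := logC_all hS.comp hT.comp hSz hTz hy (snd p)
  have a1 := supp_nonneg hS.comp hSz (snd p)
  have a2 := supp_nonneg hT.comp hTz (snd p)
  have a3 := supp_nonneg hAc h0 (fst p)
  have a4 := supp_nonneg hBc h0' (fst p)
  have h3 : (r ^ (1 - t) * r' ^ t) * inner ℝ y (snd p) ≤
      (r * supp S (snd p)) ^ (1 - t) * (r' * supp T (snd p)) ^ t := by
    rw [Real.mul_rpow hr.le a1, Real.mul_rpow hr'.le a2]
    have h4 : 0 ≤ r ^ (1 - t) * r' ^ t := by positivity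
    calc (r ^ (1 - t) * r' ^ t) * inner ℝ y (snd p)
        ≤ (r ^ (1 - t) * r' ^ t) * (supp S (snd p) ^ (1 - t) * supp T (snd p) ^ t) :=
          mul_le_mul_of_nonneg_left h2 h4
      _ = _ := by ring
  have h5 := supp_hol hK hS.comp ⟨0, hSz⟩ hr.le ⟨0, h0⟩ (fst p) (snd p)
  have h6 := supp_hol hC hT.comp ⟨0, hTz⟩ hr'.le ⟨0, h0'⟩ (fst p) (snd p)
  have a5 : 0 ≤ r * supp S (snd p) := by positivity
  have a6 : 0 ≤ r' * supp T (snd p) := by positivity
  have h7 := holder2 ht0 ht1 a3 a4 a5 a6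
  calc inner ℝ x (fst p) + (r ^ (1 - t) * r' ^ t) * inner ℝ y (snd p)
      ≤ supp (hol K S r) (fst p) ^ (1 - t) * supp (hol C T r') (fst p) ^ t +
        (r * supp S (snd p)) ^ (1 - t) * (r' * supp T (snd p)) ^ t := add_le_add h1 h3
    _ ≤ _ := h7
    _ ≤ supp K (app (fst p) (snd p)) ^ (1 - t) * supp C (app (fst p) (snd p)) ^ t := by
        have a7 : 0 ≤ supp K (app (fst p) (snd p)) := by linarith
        have a8 : 0 ≤ supp C (app (fst p) (snd p)) := by linarith
        gcongr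

end Pool.Agent.Lib.MP_1dedaf_gt.BL

/-!
# MP_1dedaf_gt, BL, row 5: volumes of block bodies
-/

set_option autoImplicit false

open MeasureTheory Set Filter Topology
open scoped ENNReal NNReal Pointwise

namespace Pool.Agent.Lib.MP_1dedaf_gt.BL

open Pool.Agent.Lib.MP_1dedaf_gt.SC
open Pool.Agent.Lib.MP_1dedaf_gt.EG

/-! ROW 5: volumes. -/

private lemma r5_anti {N d : ℕ} (W : Set (E (N + d))) {D : Set (E d)} (hD : Sh D) :
    Antitone fun r : ℝ => volume (hol W D (max r 0)) := fun _ _ h =>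
  measure_mono (hol_anti hD (le_max_right _ _) (max_le_max_right 0 h))

private lemma r5_int {N d : ℕ} (hd : 0 < d) (W : Set (E (N + d))) {D : Set (E d)} (hD : Sh D) :
    ∫⁻ y : E d, volume (hol W D (gauge D y)) =
      volume D * ∫⁻ ρ in Ioi (0 : ℝ), volume (hol W D (ρ ^ ((1 : ℝ) / d))) := by
  have h1 := lint_gauge hd hD (r5_anti W hD).measurable
  have h2 : ∀ y : E d, max (gauge D y) 0 = gauge D y := fun y => max_eq_left (gauge_nonneg y)
  simp only [h2] at h1
  rw [h1]
  congr 1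
  refine setLIntegral_congr_fun measurableSet_Ioi (fun ρ hρ => ?_)
  have h3 : (0 : ℝ) ≤ ρ ^ ((1 : ℝ) / d) := Real.rpow_nonneg (le_of_lt hρ) _
  show volume (hol W D (max (ρ ^ ((1 : ℝ) / d)) 0)) = _
  rw [max_eq_left h3]

private lemma r5_sub {N d : ℕ} {W : Set (E (N + d))} {D : Set (E d)} (hD : Sh D) (y : E d) :
    hol W D (gauge D y) ⊆ sec W y := by
  intro x hx
  have h0 : D ∈ 𝓝 (0 : E d) := mem_interior_iff_mem_nhds.1 hD.zero
  rcases (gauge_nonneg (s := D) y).eq_or_lt with h | h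
  · have h1 : y = 0 := (gauge_eq_zero (absorbent_nhds_zero h0)
      ((NormedSpace.isVonNBounded_iff ℝ).2 hD.comp.isBounded)).1 h.symm
    have h2 := hx 0 (interior_subset hD.zero)
    rw [smul_zero, ← h1] at h2
    exact h2
  · have h1 : (gauge D y)⁻¹ • y ∈ D := by
      have h2 : gauge D ((gauge D y)⁻¹ • y) ≤ 1 := by
        rw [gauge_smul_of_nonneg (inv_nonneg.2 h.le), smul_eq_mul, inv_mul_cancel₀ h.ne']
      rw [gauge_le_one_iff_mem_closure hD.conv h0, hD.comp.isClosed.closure_eq] at h2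
      exact h2
    have h2 := hx _ h1
    rw [smul_inv_smul₀ h.ne'] at h2
    exact h2

theorem vol_blk {N d : ℕ} (hd : 0 < d) {K : Set (E (N + d))} (hK : Convex ℝ K)
    (hKc : IsCompact K) {S : Set (E d)} (hS : Sh S) (hB : Blk K S) :
    volume K = volume S * ∫⁻ ρ in Ioi (0 : ℝ), volume (hol K S (ρ ^ ((1 : ℝ) / d))) := by
  rw [vol_app hKc.measurableSet, ← r5_int hd K hS]
  exact lintegral_congr fun y => by rw [sec_eq_hol hK hS hB y]

theorem vol_ge {N d : ℕ} (hd : 0 < d) {W : Set (E (N + d))} (hW : IsCompact W) {D : Set (E d)}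
    (hD : Sh D) :
    volume D * ∫⁻ ρ in Ioi (0 : ℝ), volume (hol W D (ρ ^ ((1 : ℝ) / d))) ≤ volume W := by
  rw [vol_app hW.measurableSet, ← r5_int hd W hD]
  exact lintegral_mono fun y => measure_mono (r5_sub hD y)

theorem blk_of_vol {N d : ℕ} (hd : 0 < d) {W : Set (E (N + d))} (hW : Body W) {D : Set (E d)}
    (hD : Sh D)
    (h : volume W ≤ volume D * ∫⁻ ρ in Ioi (0 : ℝ), volume (hol W D (ρ ^ ((1 : ℝ) / d)))) :
    Blk W D := by
  have hg : Continuous (gauge D) :=
    continuous_gauge hD.conv (mem_interior_iff_mem_nhds.1 hD.zero)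
  obtain ⟨A, hA⟩ : ∃ A : Set (E (N + d)), A = {p | fst p ∈ hol W D (gauge D (snd p))} := ⟨_, rfl⟩
  have hsub : A ⊆ W := by
    intro p hp
    rw [hA] at hp
    have h1 : fst p ∈ sec W (snd p) := r5_sub hD (snd p) hp
    have h2 : app (fst p) (snd p) ∈ W := h1
    rw [app_eta] at h2
    exact h2
  have hcl : IsClosed A := by
    have h1 : A = ⋂ s ∈ D, (fun p : E (N + d) => app (fst p) (gauge D (snd p) • s)) ⁻¹' W := by
      rw [hA]
      ext p
      simp only [mem_iInter]
      exact Iff.rfl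
    rw [h1]
    refine isClosed_biInter fun s _ => hW.comp.isClosed.preimage ?_
    exact cont_app.comp (cont_fst.prodMk ((hg.comp cont_snd).smul continuous_const))
  have hAc : IsCompact A := hW.comp.of_isClosed_subset hcl hsub
  have hv : volume A = volume D * ∫⁻ ρ in Ioi (0 : ℝ), volume (hol W D (ρ ^ ((1 : ℝ) / d))) := by
    rw [vol_app hAc.measurableSet, ← r5_int hd W hD]
    refine lintegral_congr fun y => ?_
    have h1 : sec A y = hol W D (gauge D y) := by
      ext x
      show app x y ∈ A ↔ _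
      rw [hA, mem_ofPred_eq, fst_app, snd_app]
    rw [h1]
  have hAW : A = W := EQ.eq_of_vol hAc hW.conv hW.int hW.comp.measure_lt_top.ne hsub
    (h.trans_eq hv.symm)
  intro x y y' hyy hxy
  rw [← hAW, hA, mem_ofPred_eq, fst_app, snd_app] at hxy ⊢
  rw [hyy]
  exact hxy

end Pool.Agent.Lib.MP_1dedaf_gt.BL

/-!
# MP_1dedaf_gt, BL, row 6: combinations of shapes
-/

set_option autoImplicit false

open MeasureTheory Set Filter Topology
open scoped ENNReal NNReal Pointwise

namespace Pool.Agent.Lib.MP_1dedaf_gt.BL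

open Pool.Agent.Lib.MP_1dedaf_gt.SC
open Pool.Agent.Lib.MP_1dedaf_gt.EG

lemma r6_ball {d : ℕ} {S : Set (E d)} (hS : Sh S) : ∃ ε : ℝ, 0 < ε ∧
    ∀ u : E d, ‖u‖ = 1 → ε ≤ supp S u := by
  obtain ⟨ε, hε, h1⟩ := Metric.isOpen_iff.1 isOpen_interior 0 hS.zero
  refine ⟨ε / 2, by positivity, ?_⟩
  intro u hu
  have h2 : (ε / 2) • u ∈ S := by
    apply interior_subset
    apply h1
    rw [mem_ball_zero_iff, norm_smul, hu, mul_one, Real.norm_eq_abs, abs_of_pos (by positivity)]
    linarith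
  have h3 := le_supp hS.comp u h2
  rw [real_inner_smul_left, real_inner_self_eq_norm_sq, hu] at h3
  linarith

theorem sh_logC {d : ℕ} {t : ℝ} (ht0 : 0 < t) (ht1 : t < 1) {S T : Set (E d)} (hS : Sh S)
    (hT : Sh T) : Sh (logC t S T) := by
  have hs0 : 0 < 1 - t := by linarith
  have hSz : (0 : E d) ∈ S := interior_subset hS.zero
  have hTz : (0 : E d) ∈ T := interior_subset hT.zero
  refine ⟨?_, ?_, ?_⟩
  · intro x hx y hy a b ha hb hab u hu
    rw [inner_add_left, real_inner_smul_left, real_inner_smul_left]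
    have h1 := mul_le_mul_of_nonneg_left (hx u hu) ha
    have h2 := mul_le_mul_of_nonneg_left (hy u hu) hb
    calc a * inner ℝ x u + b * inner ℝ y u
        ≤ a * (supp S u ^ (1 - t) * supp T u ^ t) + b * (supp S u ^ (1 - t) * supp T u ^ t) :=
          add_le_add h1 h2
      _ = supp S u ^ (1 - t) * supp T u ^ t := by rw [← add_mul, hab, one_mul]
  · exact Metric.isCompact_of_isClosed_isBounded (isClosed_logC t S T)
      (logC_bdd ht0 ht1 hS.comp hT.comp hSz hTz)
  · obtain ⟨ε, hε, h1⟩ := r6_ball hS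
    obtain ⟨δ, hδ, h2⟩ := r6_ball hT
    rw [mem_interior_iff_mem_nhds, Metric.mem_nhds_iff]
    refine ⟨min ε δ, lt_min hε hδ, ?_⟩
    intro x hx u hu
    have hm : 0 < min ε δ := lt_min hε hδ
    rw [mem_ball_zero_iff] at hx
    have h3 : inner ℝ x u ≤ ‖x‖ * ‖u‖ := real_inner_le_norm x u
    rw [hu, mul_one] at h3
    have h4 : min ε δ = (min ε δ) ^ (1 - t) * (min ε δ) ^ t := by
      rw [← Real.rpow_add hm]
      simp
    have h5 : (min ε δ) ^ (1 - t) ≤ supp S u ^ (1 - t) :=
      Real.rpow_le_rpow hm.le ((min_le_left _ _).trans (h1 u hu)) hs0.le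
    have h6 : (min ε δ) ^ t ≤ supp T u ^ t :=
      Real.rpow_le_rpow hm.le ((min_le_right _ _).trans (h2 u hu)) ht0.le
    calc inner ℝ x u ≤ ‖x‖ := h3
      _ ≤ min ε δ := hx.le
      _ = (min ε δ) ^ (1 - t) * (min ε δ) ^ t := h4
      _ ≤ _ := mul_le_mul h5 h6 (by positivity) (by
        have := h1 u hu
        have h7 : 0 ≤ supp S u := by linarith
        positivity)

end Pool.Agent.Lib.MP_1dedaf_gt.BL

/-!
# MP_1dedaf_gt, BL, row 7a: shapes, `hol_X`, centroid
-/

set_option autoImplicit false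

open MeasureTheory Set Filter Topology
open scoped ENNReal NNReal Pointwise

namespace Pool.Agent.Lib.MP_1dedaf_gt.BL

open Pool.Agent.Lib.MP_1dedaf_gt.SC
open Pool.Agent.Lib.MP_1dedaf_gt.EG

/-! ROW 7, first part. -/
section R7

variable {N d : ℕ} {X : Set (E N) → Prop} {Y : Set (E d) → Prop}

private lemma r7a_vol {n : ℕ} {K : Set (E n)} (h : (interior K).Nonempty) : volume K ≠ 0 :=
  fun h0 => (isOpen_interior.measure_pos volume h).ne' (measure_mono_null interior_subset h0)

private lemma r7a_coord {n : ℕ} {K : Set (E n)} (hK : IsCompact K) (k : Fin n) :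
    (∫ x in K, x) k = ∫ x in K, x k := by
  have hi : IntegrableOn (fun p : E n => p) K :=
    continuous_id.continuousOn.integrableOn_compact hK
  exact ((EuclideanSpace.proj k : E n →L[ℝ] ℝ).integral_comp_comm
    (μ := volume.restrict K) (φ := fun x => x) hi).symm

theorem Thm.sh {n : ℕ} {X : Set (E n) → Prop} (h : Thm X) {K : Set (E n)} (hK : X K) : Sh K := by
  have hb := h.body K hK
  exact ⟨hb.conv, hb.comp, r18_interior hb.conv hb.comp (r7a_vol hb.int) (h.cent K hK)⟩

/-- `K<r>` is of the class `X` if it has positive volume. -/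
theorem hol_X (hd : 0 < d) (hX : Thm X) (hY : Thm Y) {K : Set (E (N + d))} (hK : Body K)
    {S : Set (E d)} (hS : Y S) (hB : Blk K S)
    (hs : ∀ y, (interior (sec K y)).Nonempty → X (sec K y)) {r : ℝ} (hr : 0 ≤ r)
    (hv : volume (hol K S r) ≠ 0) : X (hol K S r) := by
  have hSh : Sh S := hY.sh hS
  obtain ⟨y, hy⟩ := exists_gauge hd hSh hr
  have he := sec_eq_hol hK.conv hSh hB y
  rw [hy] at he
  rw [← he] at hv ⊢
  exact hs y (int_nonempty (sec_conv hK.conv y) hv)

theorem cent_XB (hd : 0 < d) (hX : Thm X) (hY : Thm Y) {K : Set (E (N + d))} (hK : XB X Y K) :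
    ∫ x in K, x = 0 := by
  obtain ⟨hb, ⟨S, hS, hB⟩, hs⟩ := hK
  have hSh : Sh S := hY.sh hS
  have hx : ∀ i : Fin N, ∫ p in K, p (Fin.castAdd d i) = 0 := by
    intro i
    refine fub_fst hb.comp i (fun y => ?_)
    by_cases hn : (interior (sec K y)).Nonempty
    · have h1 := hX.cent _ (hs y hn)
      rw [← r7a_coord (sec_comp hb.comp y), h1]
      rfl
    · have h1 : volume (sec K y) = 0 := by
        by_contra h2
        exact hn (int_nonempty (sec_conv hb.conv y) h2)
      exact setIntegral_measure_zero _ h1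
  have hy : ∀ j : Fin d, ∫ p in K, p (Fin.natAdd N j) = 0 := by
    intro j
    refine fub_snd hb.comp j (fun x => ?_)
    rcases fib_eq hd hb.conv hb.comp hSh hB x with h1 | ⟨r, hr, h1⟩
    · rw [h1]
      simp
    · rw [h1]
      rcases hr.eq_or_lt with h0 | h0
      · refine setIntegral_eq_zero_of_forall_eq_zero ?_
        rintro y ⟨s, -, rfl⟩
        rw [← h0]
        simp
      · have h2 := Measure.setIntegral_comp_smul_of_pos (μ := (volume : Measure (E d)))
          (fun y : E d => y j) S h0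
        have h3 : ∫ y in S, (r • y) j = 0 := by
          have h4 : ∀ y : E d, (r • y) j = r * y j := fun y => rfl
          simp only [h4]
          rw [integral_const_mul, ← r7a_coord hSh.comp, hY.cent S hS]
          simp
        rw [h3] at h2
        have h5 : (r ^ Module.finrank ℝ (E d))⁻¹ ≠ 0 := inv_ne_zero (pow_ne_zero _ h0.ne')
        exact (smul_eq_zero.1 h2.symm).resolve_left h5
  ext k
  rw [r7a_coord hb.comp]
  exact Fin.addCases (motive := fun k => ∫ p in K, p k = (0 : E (N + d)) k) hx hy k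

end R7

end Pool.Agent.Lib.MP_1dedaf_gt.BL

/-!
# MP_1dedaf_gt, BL, row 7b: the inequality for block bodies
-/

set_option autoImplicit false

open MeasureTheory Set Filter Topology
open scoped ENNReal NNReal Pointwise

namespace Pool.Agent.Lib.MP_1dedaf_gt.BL

open Pool.Agent.Lib.MP_1dedaf_gt.SC
open Pool.Agent.Lib.MP_1dedaf_gt.EG

/-! ROW 7, second part. -/
section R7b

variable {N d : ℕ} {X : Set (E N) → Prop} {Y : Set (E d) → Prop}

private lemma r7b_vol {n : ℕ} {K : Set (E n)} (h : (interior K).Nonempty) : volume K ≠ 0 :=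
  fun h0 => (isOpen_interior.measure_pos volume h).ne' (measure_mono_null interior_subset h0)

/-- Roots are multiplicative. -/
private lemma r7b_root {t e : ℝ} {x y : ℝ} (hx : 0 < x) (hy : 0 < y) :
    (x ^ (1 - t) * y ^ t) ^ e = (x ^ e) ^ (1 - t) * (y ^ e) ^ t := by
  rw [Real.mul_rpow (by positivity) (by positivity), ← Real.rpow_mul hx.le, ← Real.rpow_mul hy.le,
    ← Real.rpow_mul hx.le, ← Real.rpow_mul hy.le, mul_comm (1 - t), mul_comm t]

private lemma r7b_til {K : Set (E (N + d))} {S : Set (E d)} {z : ℝ} (hz : 0 ≤ z) :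
    slice (til K S) z = hol K S z := by
  rw [slice_til, abs_of_nonneg hz]

private lemma r7b_int {K : Set (E (N + d))} {S : Set (E d)} :
    ∫⁻ ρ in Ioi (0 : ℝ), volume (slice (til K S) (ρ ^ ((1 : ℝ) / d))) =
      ∫⁻ ρ in Ioi (0 : ℝ), volume (hol K S (ρ ^ ((1 : ℝ) / d))) := by
  refine setLIntegral_congr_fun measurableSet_Ioi ?_
  intro ρ hρ
  have h0 : (0 : ℝ) ≤ ρ ^ ((1 : ℝ) / d) := Real.rpow_nonneg (le_of_lt hρ) _
  show volume (slice (til K S) (ρ ^ ((1 : ℝ) / d))) = volume (hol K S (ρ ^ ((1 : ℝ) / d)))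
  rw [r7b_til h0]

private lemma r7b_meas (hd : 0 < d) {K : Set (E (N + d))} (hK : IsCompact K) {S : Set (E d)}
    (hS : Sh S) : Measurable fun ρ : ℝ => volume (slice (til K S) (ρ ^ ((1 : ℝ) / d))) :=
  (meas_slice _ (til_comp hd hK hS).measurableSet).comp (measurable_id.pow_const _)

theorem ineq_XB (hd : 0 < d) (hX : Thm X) (hY : Thm Y) {t : ℝ} (ht0 : 0 < t) (ht1 : t < 1)
    {K C : Set (E (N + d))} (hK : XB X Y K) (hC : XB X Y C) :
    volume K ^ (1 - t) * volume C ^ t ≤ volume (logC t K C) := by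
  have hs0 : 0 < 1 - t := by linarith
  have hd' : (0 : ℝ) < d := Nat.cast_pos.2 hd
  have cK := cent_XB hd hX hY hK
  have cC := cent_XB hd hX hY hC
  obtain ⟨bK, ⟨S, hS, hBS⟩, sK⟩ := hK
  obtain ⟨bC, ⟨T, hT, hBT⟩, sC⟩ := hC
  have shS : Sh S := hY.sh hS
  have shT : Sh T := hY.sh hT
  have shD : Sh (logC t S T) := sh_logC ht0 ht1 shS shT
  have zK : (0 : E (N + d)) ∈ K :=
    interior_subset (r18_interior bK.conv bK.comp (r7b_vol bK.int) cK)
  have zC : (0 : E (N + d)) ∈ C :=
    interior_subset (r18_interior bC.conv bC.comp (r7b_vol bC.int) cC)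
  have hW : IsCompact (logC t K C) :=
    Metric.isCompact_of_isClosed_isBounded (isClosed_logC t K C)
      (logC_bdd ht0 ht1 bK.comp bC.comp zK zC)
  have key : ∀ x y : ℝ, 0 < x → 0 < y →
      volume (slice (til K S) (x ^ ((1 : ℝ) / d))) ^ (1 - t) *
        volume (slice (til C T) (y ^ ((1 : ℝ) / d))) ^ t ≤
        volume (slice (til (logC t K C) (logC t S T)) ((x ^ (1 - t) * y ^ t) ^ ((1 : ℝ) / d))) := by
    intro x y hx hy
    have hr : 0 < x ^ ((1 : ℝ) / d) := Real.rpow_pos_of_pos hx _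
    have hr' : 0 < y ^ ((1 : ℝ) / d) := Real.rpow_pos_of_pos hy _
    rw [r7b_root hx hy]
    set r := x ^ ((1 : ℝ) / d) with hrd
    set r' := y ^ ((1 : ℝ) / d) with hrd'
    have hrr : 0 < r ^ (1 - t) * r' ^ t := by positivity
    rw [r7b_til hr.le, r7b_til hr'.le, r7b_til hrr.le]
    by_cases h1 : volume (hol K S r) = 0
    · rw [h1, ENNReal.zero_rpow_of_pos hs0, zero_mul]
      exact bot_le
    by_cases h2 : volume (hol C T r') = 0
    · rw [h2, ENNReal.zero_rpow_of_pos ht0, mul_zero]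
      exact bot_le
    have x1 := hol_X hd hX hY bK hS hBS sK hr.le h1
    have x2 := hol_X hd hX hY bC hT hBT sC hr'.le h2
    refine (hX.ineq t ht0 ht1 _ _ x1 x2).trans (measure_mono ?_)
    exact incl ht0 ht1 bK.comp bC.comp shS shT hr hr'
      (interior_subset (hX.sh x1).zero) (interior_subset (hX.sh x2).zero)
  have p1 := pl_mul ht0 ht1 (r7b_meas hd bK.comp shS) (r7b_meas hd bC.comp shT)
    (r7b_meas hd hW shD) key
  rw [r7b_int, r7b_int, r7b_int] at p1
  have p2 := hY.ineq t ht0 ht1 S T hS hT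
  refine le_trans ?_ (vol_ge hd hW shD)
  rw [vol_blk hd bK.conv bK.comp shS hBS, vol_blk hd bC.conv bC.comp shT hBT,
    ENNReal.mul_rpow_of_nonneg _ _ hs0.le, ENNReal.mul_rpow_of_nonneg _ _ ht0.le]
  set a := volume S
  set b := volume T
  set I := ∫⁻ ρ in Ioi (0 : ℝ), volume (hol K S (ρ ^ ((1 : ℝ) / d)))
  set J := ∫⁻ ρ in Ioi (0 : ℝ), volume (hol C T (ρ ^ ((1 : ℝ) / d)))
  calc a ^ (1 - t) * I ^ (1 - t) * (b ^ t * J ^ t)
      = (a ^ (1 - t) * b ^ t) * (I ^ (1 - t) * J ^ t) := by ring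
    _ ≤ _ := mul_le_mul' p2 p1

end R7b

end Pool.Agent.Lib.MP_1dedaf_gt.BL

/-!
# MP_1dedaf_gt, BL, row 8: the situation of an equality pair
-/

set_option autoImplicit false

open MeasureTheory Set Filter Topology
open scoped ENNReal NNReal Pointwise

namespace Pool.Agent.Lib.MP_1dedaf_gt.BL

open Pool.Agent.Lib.MP_1dedaf_gt.SC
open Pool.Agent.Lib.MP_1dedaf_gt.EG
open Pool.Agent.Lib.MP_1dedaf_gt.EQ (closed_lim cont_ext2 eq_of_vol pleq)

/-- Roots are multiplicative. -/
lemma r8_root {t e : ℝ} {x y : ℝ} (hx : 0 < x) (hy : 0 < y) :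
    (x ^ (1 - t) * y ^ t) ^ e = (x ^ e) ^ (1 - t) * (y ^ e) ^ t := by
  rw [Real.mul_rpow (by positivity) (by positivity), ← Real.rpow_mul hx.le, ← Real.rpow_mul hy.le,
    ← Real.rpow_mul hx.le, ← Real.rpow_mul hy.le, mul_comm (1 - t), mul_comm t]

/-- The radial integral of a body with one mirror. -/
lemma r8_int {N d : ℕ} (hd : 0 < d) {X : Set (E (N + 1))} {m : ℝ} (h : Mir X m) :
    ∫⁻ ρ in Ioi (0 : ℝ), volume (slice X (ρ ^ ((1 : ℝ) / d))) =
      ENNReal.ofReal (∫ x in Ioo 0 (m ^ d), fa X (x ^ ((1 : ℝ) / d))) := by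
  have hX := h.comp.measurableSet
  have hd' : (0 : ℝ) < d := Nat.cast_pos.2 hd
  have hm := h.pos
  have he : (0 : ℝ) < (1 : ℝ) / d := by positivity
  have hmeas : Measurable fun ρ : ℝ => volume (slice X (ρ ^ ((1 : ℝ) / d))) :=
    (meas_slice X hX).comp (measurable_id.pow_const _)
  have hmd : 0 < m ^ d := by positivity
  have h2 : ∫⁻ ρ in Ioi (0 : ℝ), volume (slice X (ρ ^ ((1 : ℝ) / d))) =
      ∫⁻ ρ in Ioo (0 : ℝ) (m ^ d), volume (slice X (ρ ^ ((1 : ℝ) / d))) := by
    have h3 : Ioi (0 : ℝ) = Ioo 0 (m ^ d) ∪ Ici (m ^ d) := by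
      ext z
      simp only [mem_Ioi, mem_union, mem_Ioo, mem_Ici]
      constructor
      · intro hz
        rcases lt_or_ge z (m ^ d) with h4 | h4
        · exact Or.inl ⟨hz, h4⟩
        · exact Or.inr h4
      · rintro (h4 | h4)
        · exact h4.1
        · linarith
    rw [h3, lintegral_union measurableSet_Ici (by
      rw [disjoint_left]
      intro z hz hz'
      exact absurd hz.2 (not_lt.2 hz'))]
    have h5 : ∫⁻ z in Ici (m ^ d), volume (slice X (z ^ ((1 : ℝ) / d))) = 0 := by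
      rw [setLIntegral_congr (Ioi_ae_eq_Ici (μ := volume) (a := m ^ d)).symm]
      rw [setLIntegral_eq_zero_iff measurableSet_Ioi hmeas]
      apply Eventually.of_forall
      intro z hz
      have h6 : slice X (z ^ ((1 : ℝ) / d)) = ∅ := by
        rw [← not_nonempty_iff_eq_empty]
        rintro ⟨x, hx⟩
        have h7 := h.abs_le hx
        have h8 : m ^ d < z := hz
        have h9 : m < z ^ ((1 : ℝ) / d) := by
          have h10 := Real.rpow_lt_rpow hmd.le h8 he
          rwa [one_div, Real.pow_rpow_inv_natCast hm.le hd.ne', ← one_div] at h10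
        have h11 := le_abs_self (z ^ ((1 : ℝ) / d))
        linarith
      rw [h6]
      simp
    rw [h5, add_zero]
  have hfin : ∫⁻ ρ in Ioo (0 : ℝ) (m ^ d), volume (slice X (ρ ^ ((1 : ℝ) / d))) ≠ ∞ := by
    have h3 : ∫⁻ ρ in Ioo (0 : ℝ) (m ^ d), volume (slice X (ρ ^ ((1 : ℝ) / d))) ≤
        ∫⁻ _ in Ioo (0 : ℝ) (m ^ d), volume (slice X 0) := by
      apply lintegral_mono
      intro ρ
      show volume (slice X (ρ ^ ((1 : ℝ) / d))) ≤ volume (slice X 0)
      rw [← h.slice_abs (ρ ^ ((1 : ℝ) / d))]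
      exact measure_mono (h.mono (z := 0) (by rw [abs_zero]; exact abs_nonneg (ρ ^ ((1 : ℝ) / d))))
    refine ne_top_of_le_ne_top ?_ h3
    rw [setLIntegral_const, Real.volume_Ioo]
    exact ENNReal.mul_ne_top (h.slice_ne_top 0) ENNReal.ofReal_ne_top
  rw [h2, ← ENNReal.ofReal_toReal hfin]
  congr 1
  rw [← integral_toReal]
  · rfl
  · exact hmeas.aemeasurable
  · exact Eventually.of_forall fun z => (h.slice_comp _).measure_lt_top

/-- The radial slice function is continuous. -/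
lemma r8_cont {N d : ℕ} (hd : 0 < d) {X : Set (E (N + 1))} {m : ℝ} (h : Mir X m) :
    ContinuousOn (fun x : ℝ => fa X (x ^ ((1 : ℝ) / d))) (Ioo 0 (m ^ d)) := by
  have hd' : (0 : ℝ) < d := Nat.cast_pos.2 hd
  have hm := h.pos
  have he : (0 : ℝ) < (1 : ℝ) / d := by positivity
  apply h.fa_cont.comp
  · exact (continuous_id.rpow_const fun x => Or.inr he.le).continuousOn
  · intro x ⟨hx0, hx⟩
    refine ⟨Real.rpow_pos_of_pos hx0 _, ?_⟩
    have h10 := Real.rpow_lt_rpow hx0.le hx he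
    rwa [one_div, Real.pow_rpow_inv_natCast hm.le hd.ne', ← one_div] at h10

lemma r8_lt {d : ℕ} (hd : 0 < d) {m x : ℝ} (hm : 0 < m) (hx0 : 0 < x) (hx : x < m ^ d) :
    0 < x ^ ((1 : ℝ) / d) ∧ x ^ ((1 : ℝ) / d) < m := by
  have hd' : (0 : ℝ) < d := Nat.cast_pos.2 hd
  have he : (0 : ℝ) < (1 : ℝ) / d := by positivity
  refine ⟨Real.rpow_pos_of_pos hx0 _, ?_⟩
  have h10 := Real.rpow_lt_rpow hx0.le hx he
  rwa [one_div, Real.pow_rpow_inv_natCast hm.le hd.ne', ← one_div] at h10

section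

variable {N d : ℕ} {X : Set (E N) → Prop} {Y : Set (E d) → Prop}

/-- The points of a block body have bounded gauge. -/
lemma r8_gauge {K : Set (E (N + d))} {S : Set (E d)} (hK : Convex ℝ K) (hS : Sh S) (hB : Blk K S)
    {a : ℝ} (mK : Mir (til K S) a) {x : E N} {y : E d} (h : app x y ∈ K) : gauge S y ≤ a := by
  have h1 : x ∈ sec K y := h
  rw [sec_eq_hol hK hS hB] at h1
  have h2 : x ∈ slice (til K S) (gauge S y) := by
    rw [slice_til, abs_of_nonneg (gauge_nonneg y)]
    exact h1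
  have h3 := mK.abs_le h2
  rwa [abs_of_nonneg (gauge_nonneg y)] at h3

/-- Points of a shape in terms of the gauge. -/
lemma r8_inner_le {S : Set (E d)} (hS : Sh S) (y v : E d) :
    (inner ℝ y v : ℝ) ≤ gauge S y * supp S v := by
  have habs : Absorbent ℝ S := absorbent_nhds_zero (mem_interior_iff_mem_nhds.1 hS.zero)
  rcases eq_or_lt_of_le (gauge_nonneg (s := S) y) with h0 | h0
  · have h1 : y = 0 := by
      have hb : Bornology.IsVonNBounded ℝ S := NormedSpace.isVonNBounded_of_isBounded _ hS.comp.isBounded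
      exact (gauge_eq_zero habs hb).1 h0.symm
    rw [h1, inner_zero_left, gauge_zero, zero_mul]
  · have h1 : (gauge S y)⁻¹ • y ∈ S := by
      have h2 : gauge S ((gauge S y)⁻¹ • y) ≤ 1 := by
        rw [gauge_smul_of_nonneg (inv_nonneg.2 h0.le), smul_eq_mul, inv_mul_cancel₀ h0.ne']
      have h3 := (gauge_le_one_iff_mem_closure hS.conv (mem_interior_iff_mem_nhds.1 hS.zero)).1 h2
      rwa [hS.comp.isClosed.closure_eq] at h3
    have h2 := le_supp hS.comp v h1
    rw [real_inner_smul_left] at h2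
    have h3 := mul_le_mul_of_nonneg_left h2 h0.le
    rwa [mul_inv_cancel_left₀ h0.ne'] at h3

lemma r8_supp_app {K : Set (E (N + d))} {S : Set (E d)} (hK : Body K) (hS : Sh S) (hB : Blk K S)
    {a : ℝ} (mK : Mir (til K S) a) (v : E d) : supp K (app 0 v) ≤ a * supp S v := by
  have hne : K.Nonempty := hK.int.mono interior_subset
  obtain ⟨p, hp, hpe⟩ := supp_attained hK.comp hne (app 0 v)
  rw [← hpe, ← app_eta p, inner_app, inner_zero_right, zero_add]
  have h1 : gauge S (snd p) ≤ a := r8_gauge hK.conv hS hB mK (x := fst p) (by rw [app_eta]; exact hp)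
  exact (r8_inner_le hS _ _).trans (mul_le_mul_of_nonneg_right h1
    (supp_nonneg hS.comp (interior_subset hS.zero) v))

lemma r8_norm (v : E d) : ‖(app (0 : E N) v : E (N + d))‖ = ‖v‖ := by
  have h1 : ‖(app (0 : E N) v : E (N + d))‖ ^ 2 = ‖v‖ ^ 2 := by
    rw [← real_inner_self_eq_norm_sq, inner_app, inner_zero_left, zero_add,
      real_inner_self_eq_norm_sq]
  have h2 := norm_nonneg (app (0 : E N) v)
  have h3 := norm_nonneg v
  nlinarith

/-- `r • D ⊆ c • D` bounds `r`. -/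
lemma r8_scale (hd : 0 < d) {D : Set (E d)} (hD : Sh D) {r c : ℝ} (hc : 0 < c)
    (h : ∀ y ∈ D, c⁻¹ • r • y ∈ D) : r ≤ c := by
  by_contra hcon
  push Not at hcon
  have h1 : (c⁻¹ * r) • D ⊆ D := by
    rintro _ ⟨y, hy, rfl⟩
    show (c⁻¹ * r) • y ∈ D
    rw [← smul_smul]
    exact h y hy
  have h2 := measure_mono (μ := volume) h1
  rw [Measure.addHaar_smul, finrank_euclideanSpace_fin] at h2
  have h3 : volume D ≠ 0 := by
    have := isOpen_interior.measure_pos volume ⟨(0 : E d), hD.zero⟩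
    exact (this.trans_le (measure_mono interior_subset)).ne'
  have h4 : volume D ≠ ∞ := hD.comp.measure_lt_top.ne
  have h5 : (1 : ℝ) < |(c⁻¹ * r) ^ d| := by
    have h6 : 1 < c⁻¹ * r := by
      rw [inv_mul_eq_div, lt_div_iff₀ hc]
      linarith
    rw [abs_of_pos (by positivity)]
    exact one_lt_pow₀ h6 hd.ne'
  have h6 : 1 * volume D < ENNReal.ofReal |(c⁻¹ * r) ^ d| * volume D := by
    apply ENNReal.mul_lt_mul_left h3 h4
    rw [← ENNReal.ofReal_one]
    exact (ENNReal.ofReal_lt_ofReal_iff (by positivity)).2 h5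
  rw [one_mul] at h6
  exact absurd h2 (not_le.2 h6)


/-- The combination of the slices lies in the slices of the combination. -/
lemma r8_incl {t : ℝ} (ht0 : 0 < t) (ht1 : t < 1) {K C : Set (E (N + d))} (bK : Body K)
    (bC : Body C) {S T : Set (E d)} (sS : Sh S) (sT : Sh T) {a b : ℝ} (mK : Mir (til K S) a)
    (mC : Mir (til C T) b) {z w : ℝ} (hz : 0 < z) (hza : z ≤ a) (hw : 0 < w) (hwb : w ≤ b) :
    logC t (hol K S z) (hol C T w) ⊆ hol (logC t K C) (logC t S T) (z ^ (1 - t) * w ^ t) := by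
  apply incl ht0 ht1 bK.comp bC.comp sS sT hz hw
  · have h1 := mK.zero_mem (w := z) (by rw [abs_of_pos hz]; exact hza)
    rwa [slice_til, abs_of_pos hz] at h1
  · have h1 := mC.zero_mem (w := w) (by rw [abs_of_pos hw]; exact hwb)
    rwa [slice_til, abs_of_pos hw] at h1

lemma r8_zero {K : Set (E (N + d))} {S : Set (E d)} (sS : Sh S) {a : ℝ} (mK : Mir (til K S) a) :
    (0 : E (N + d)) ∈ K := by
  have h1 := mK.zero_mem (w := 0) (by rw [abs_zero]; exact mK.pos.le)
  rw [slice_til, abs_zero] at h1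
  have h2 := h1 0 (interior_subset sS.zero)
  rwa [smul_zero, app_zero] at h2

/-- The inequality for the slices. -/
lemma r8_ineq (hd : 0 < d) (hX : Thm X) (hY : Thm Y) {t : ℝ} (ht0 : 0 < t) (ht1 : t < 1)
    {K C : Set (E (N + d))} (bK : Body K) (bC : Body C) {S T : Set (E d)} (hS : Y S) (hT : Y T)
    (kS : Blk K S) (kT : Blk C T) (sK : ∀ y, (interior (sec K y)).Nonempty → X (sec K y))
    (sC : ∀ y, (interior (sec C y)).Nonempty → X (sec C y)) {a b : ℝ}
    (mK : Mir (til K S) a) (mC : Mir (til C T) b) {z w : ℝ} (hz : 0 < z) (hza : z < a)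
    (hw : 0 < w) (hwb : w < b) :
    volume (hol K S z) ^ (1 - t) * volume (hol C T w) ^ t ≤
      volume (logC t (hol K S z) (hol C T w)) := by
  have h1 := mK.slice_pos hz.le hza
  have h2 := mC.slice_pos hw.le hwb
  rw [slice_til, abs_of_pos hz] at h1
  rw [slice_til, abs_of_pos hw] at h2
  exact hX.ineq t ht0 ht1 _ _ (hol_X hd hX hY bK hS kS sK hz.le h1)
    (hol_X hd hX hY bC hT kT sC hw.le h2)

lemma r8_mirW (hd : 0 < d) (hX : Thm X) (hY : Thm Y) {t : ℝ} (ht0 : 0 < t) (ht1 : t < 1)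
    {K C : Set (E (N + d))} (bK : Body K) (bC : Body C) {S T : Set (E d)} (hS : Y S) (hT : Y T)
    (kS : Blk K S) (kT : Blk C T) (sK : ∀ y, (interior (sec K y)).Nonempty → X (sec K y))
    (sC : ∀ y, (interior (sec C y)).Nonempty → X (sec C y)) {a b : ℝ}
    (mK : Mir (til K S) a) (mC : Mir (til C T) b) :
    Mir (til (logC t K C) (logC t S T)) (a ^ (1 - t) * b ^ t) := by
  have hs0 : 0 < 1 - t := by linarith
  have ha := mK.pos
  have hb := mC.pos
  have sS := hY.sh hS
  have sT := hY.sh hT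
  have sD := sh_logC ht0 ht1 sS sT
  have h0K := r8_zero sS mK
  have h0C := r8_zero sT mC
  have hWc := compact_logC ht0 ht1 bK.comp bC.comp h0K h0C
  have hc0 : 0 < a ^ (1 - t) * b ^ t := by positivity
  have hSne : S.Nonempty := ⟨0, interior_subset sS.zero⟩
  have hTne : T.Nonempty := ⟨0, interior_subset sT.zero⟩
  have hcomp := til_comp hd hWc sD
  refine ⟨til_conv (convex_logC t K C) sD, hcomp, til_mir, hc0, ?_, ?_, ?_⟩
  · show (0 : E N) ∈ slice (til (logC t K C) (logC t S T)) (a ^ (1 - t) * b ^ t)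
    rw [slice_til, abs_of_pos hc0]
    apply r8_incl ht0 ht1 bK bC sS sT mK mC ha le_rfl hb le_rfl
    have h1 := mK.zero_mem (w := a) (by rw [abs_of_pos ha])
    have h2 := mC.zero_mem (w := b) (by rw [abs_of_pos hb])
    rw [slice_til, abs_of_pos ha] at h1
    rw [slice_til, abs_of_pos hb] at h2
    exact zero_mem_logC (hol_comp bK.comp hSne a) (hol_comp bC.comp hTne b) h1 h2
  · intro x z hx
    have h1 : x ∈ slice (til (logC t K C) (logC t S T)) z := hx
    rw [slice_til] at h1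
    refine (le_abs_self z).trans (r8_scale hd sD hc0 fun y hy u hu => ?_)
    have h2 : app x (|z| • y) ∈ logC t K C := h1 y hy
    have h3 := h2 (app 0 u) (by rw [r8_norm, hu])
    rw [inner_app, inner_zero_right, zero_add] at h3
    have h4 := r8_supp_app bK sS kS mK u
    have h5 := r8_supp_app bC sT kT mC u
    have h6 := supp_nonneg bK.comp h0K (app 0 u)
    have h7 := supp_nonneg bC.comp h0C (app 0 u)
    have h8 := supp_nonneg sS.comp (interior_subset sS.zero) u
    have h9 := supp_nonneg sT.comp (interior_subset sT.zero) u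
    have h10 : supp K (app 0 u) ^ (1 - t) * supp C (app 0 u) ^ t ≤
        (a ^ (1 - t) * b ^ t) * (supp S u ^ (1 - t) * supp T u ^ t) := by
      calc supp K (app 0 u) ^ (1 - t) * supp C (app 0 u) ^ t
          ≤ (a * supp S u) ^ (1 - t) * (b * supp T u) ^ t := by gcongr
        _ = _ := by
            rw [Real.mul_rpow ha.le h8, Real.mul_rpow hb.le h9]
            ring
    rw [real_inner_smul_left]
    have h11 := h3.trans h10
    have h12 := mul_le_mul_of_nonneg_left h11 (inv_nonneg.2 hc0.le)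
    rwa [inv_mul_cancel_left₀ hc0.ne'] at h12
  · intro h1
    rw [vol_slice _ hcomp.measurableSet] at h1
    have h2 : ∀ z, 0 < z → z < a ^ (1 - t) * b ^ t →
        volume (slice (til (logC t K C) (logC t S T)) z) ≠ 0 := by
      intro z hz hzc
      set c := a ^ (1 - t) * b ^ t with hc
      have hl0 : 0 < z / c := div_pos hz hc0
      have hl1 : z / c < 1 := (div_lt_one hc0).2 hzc
      have hla : z / c * a < a := by nlinarith
      have hlb : z / c * b < b := by nlinarith
      have h3 := r8_incl ht0 ht1 bK bC sS sT mK mC (z := z / c * a) (w := z / c * b)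
        (by positivity) hla.le (by positivity) hlb.le
      rw [rpow_hom ha.le hb.le hl0, ← hc, div_mul_cancel₀ z hc0.ne'] at h3
      have h4 := r8_ineq hd hX hY ht0 ht1 bK bC hS hT kS kT sK sC mK mC (z := z / c * a)
        (w := z / c * b) (by positivity) hla (by positivity) hlb
      have h5 := mK.slice_pos (z := z / c * a) (by positivity) hla
      have h6 := mC.slice_pos (z := z / c * b) (by positivity) hlb
      rw [slice_til, abs_of_pos (by positivity)] at h5 h6
      rw [slice_til, abs_of_pos hz]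
      intro h7
      have h8 := measure_mono_null h3 h7
      rw [h8] at h4
      have h9 := le_antisymm h4 bot_le
      rcases mul_eq_zero.1 h9 with h10 | h10
      · rw [ENNReal.rpow_eq_zero_iff] at h10
        rcases h10 with ⟨h11, _⟩ | ⟨_, h11⟩
        · exact h5 h11
        · linarith
      · rw [ENNReal.rpow_eq_zero_iff] at h10
        rcases h10 with ⟨h11, _⟩ | ⟨_, h11⟩
        · exact h6 h11
        · linarith
    rw [lintegral_eq_zero_iff (meas_slice _ hcomp.measurableSet)] at h1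
    have h3 : volume (Ioo 0 (a ^ (1 - t) * b ^ t)) = 0 := by
      refine measure_mono_null (fun z hz => ?_) h1
      exact h2 z hz.1 hz.2
    rw [Real.volume_Ioo, sub_zero, ENNReal.ofReal_eq_zero] at h3
    linarith


/-- The radial integral in terms of `hol`. -/
lemma r8_rad {K : Set (E (N + d))} {S : Set (E d)} :
    ∫⁻ ρ in Ioi (0 : ℝ), volume (hol K S (ρ ^ ((1 : ℝ) / d))) =
      ∫⁻ ρ in Ioi (0 : ℝ), volume (slice (til K S) (ρ ^ ((1 : ℝ) / d))) := by
  apply setLIntegral_congr_fun measurableSet_Ioi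
  intro ρ hρ
  have h1 : 0 < ρ ^ ((1 : ℝ) / d) := Real.rpow_pos_of_pos hρ _
  show volume (hol K S (ρ ^ ((1 : ℝ) / d))) = volume (slice (til K S) (ρ ^ ((1 : ℝ) / d)))
  rw [slice_til, abs_of_pos h1]

theorem eqB_of (hd : 0 < d) (hX : Thm X) (hY : Thm Y) {t : ℝ} (ht0 : 0 < t) (ht1 : t < 1)
    {K C : Set (E (N + d))} (hK : XB X Y K) (hC : XB X Y C)
    (heq : volume (logC t K C) = volume K ^ (1 - t) * volume C ^ t) :
    ∃ S T a ρ, EqB t K C S T a ρ := by
  obtain ⟨bK, ⟨S, hS, kS⟩, sK⟩ := hK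
  obtain ⟨bC, ⟨T, hT, kT⟩, sC⟩ := hC
  have hs0 : 0 < 1 - t := by linarith
  have hd' : (0 : ℝ) < d := Nat.cast_pos.2 hd
  have sS := hY.sh hS
  have sT := hY.sh hT
  have sD := sh_logC ht0 ht1 sS sT
  obtain ⟨a, mK⟩ := mir_til hd bK sS kS fun r hr hv =>
    interior_subset (hX.sh (hol_X hd hX hY bK hS kS sK hr hv)).zero
  obtain ⟨b, mC⟩ := mir_til hd bC sT kT fun r hr hv =>
    interior_subset (hX.sh (hol_X hd hX hY bC hT kT sC hr hv)).zero
  have mW := r8_mirW hd hX hY ht0 ht1 bK bC hS hT kS kT sK sC mK mC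
  have ha := mK.pos
  have hb := mC.pos
  have h0K := r8_zero sS mK
  have h0C := r8_zero sT mC
  have hWc := compact_logC ht0 ht1 bK.comp bC.comp h0K h0C
  have hWv := convex_logC t K C
  -- volumes
  have vpos : ∀ {n : ℕ} {A : Set (E n)}, (interior A).Nonempty → volume A ≠ 0 := fun {n A} h =>
    ((isOpen_interior.measure_pos volume h).trans_le (measure_mono interior_subset)).ne'
  have vS0 := vpos ⟨0, sS.zero⟩
  have vT0 := vpos ⟨0, sT.zero⟩
  have vD0 := vpos ⟨0, sD.zero⟩
  have vS := sS.comp.measure_lt_top (μ := volume) |>.ne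
  have vT := sT.comp.measure_lt_top (μ := volume) |>.ne
  have vD := sD.comp.measure_lt_top (μ := volume) |>.ne
  have vK0 := vpos bK.int
  have vC0 := vpos bC.int
  have vK := bK.comp.measure_lt_top (μ := volume) |>.ne
  have vC := bC.comp.measure_lt_top (μ := volume) |>.ne
  have vW := hWc.measure_lt_top (μ := volume) |>.ne
  have eK := vol_blk hd bK.conv bK.comp sS kS
  have eC := vol_blk hd bC.conv bC.comp sT kT
  have eW := vol_ge hd hWc sD
  rw [r8_rad] at eK eC eW
  -- Prekopa-Leindler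
  have hpl : (∫⁻ ρ in Ioi (0 : ℝ), volume (slice (til K S) (ρ ^ ((1 : ℝ) / d)))) ^ (1 - t) *
      (∫⁻ ρ in Ioi (0 : ℝ), volume (slice (til C T) (ρ ^ ((1 : ℝ) / d)))) ^ t ≤
      ∫⁻ ρ in Ioi (0 : ℝ), volume (slice (til (logC t K C) (logC t S T)) (ρ ^ ((1 : ℝ) / d))) := by
    have hm : ∀ {A : Set (E (N + 1))}, IsCompact A →
        Measurable fun ρ : ℝ => volume (slice A (ρ ^ ((1 : ℝ) / d))) := fun {A} hA =>
      (meas_slice A hA.measurableSet).comp (measurable_id.pow_const _)
    refine pl_mul ht0 ht1 (hm mK.comp) (hm mC.comp) (hm mW.comp) ?_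
    intro x y hx hy
    show volume (slice (til K S) (x ^ ((1 : ℝ) / d))) ^ (1 - t) *
      volume (slice (til C T) (y ^ ((1 : ℝ) / d))) ^ t ≤
      volume (slice (til (logC t K C) (logC t S T)) ((x ^ (1 - t) * y ^ t) ^ ((1 : ℝ) / d)))
    rw [r8_root hx hy]
    have hx' : 0 < x ^ ((1 : ℝ) / d) := Real.rpow_pos_of_pos hx _
    have hy' : 0 < y ^ ((1 : ℝ) / d) := Real.rpow_pos_of_pos hy _
    set z := x ^ ((1 : ℝ) / d)
    set w := y ^ ((1 : ℝ) / d)
    rw [slice_til, slice_til, slice_til, abs_of_pos hx', abs_of_pos hy',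
      abs_of_pos (by positivity)]
    by_cases h1 : volume (hol K S z) = 0
    · rw [h1, ENNReal.zero_rpow_of_pos hs0, zero_mul]
      exact bot_le
    by_cases h2 : volume (hol C T w) = 0
    · rw [h2, ENNReal.zero_rpow_of_pos ht0, mul_zero]
      exact bot_le
    have h3 := hol_X hd hX hY bK hS kS sK hx'.le h1
    have h4 := hol_X hd hX hY bC hT kT sC hy'.le h2
    exact (hX.ineq t ht0 ht1 _ _ h3 h4).trans (measure_mono (incl ht0 ht1 bK.comp bC.comp sS sT hx'
      hy' (interior_subset (hX.sh h3).zero) (interior_subset (hX.sh h4).zero)))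
  set IK := ∫⁻ ρ in Ioi (0 : ℝ), volume (slice (til K S) (ρ ^ ((1 : ℝ) / d))) with hIK
  set IC := ∫⁻ ρ in Ioi (0 : ℝ), volume (slice (til C T) (ρ ^ ((1 : ℝ) / d))) with hIC
  set IW := ∫⁻ ρ in Ioi (0 : ℝ), volume (slice (til (logC t K C) (logC t S T))
    (ρ ^ ((1 : ℝ) / d))) with hIW
  have iW : IW ≠ ∞ := by
    rw [hIW, r8_int hd mW]
    exact ENNReal.ofReal_ne_top
  have iK0 : IK ≠ 0 := by
    intro h
    rw [h, mul_zero] at eK
    exact vK0 eK
  have iC0 : IC ≠ 0 := by
    intro h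
    rw [h, mul_zero] at eC
    exact vC0 eC
  have iK : IK ≠ ∞ := by
    rw [hIK, r8_int hd mK]
    exact ENNReal.ofReal_ne_top
  have iC : IC ≠ ∞ := by
    rw [hIC, r8_int hd mC]
    exact ENNReal.ofReal_ne_top
  have iW0 : IW ≠ 0 := by
    intro h
    rw [h] at hpl
    have h9 := le_antisymm hpl bot_le
    rcases mul_eq_zero.1 h9 with h10 | h10
    · rw [ENNReal.rpow_eq_zero_iff] at h10
      rcases h10 with ⟨h11, _⟩ | ⟨_, h11⟩
      · exact iK0 h11
      · linarith
    · rw [ENNReal.rpow_eq_zero_iff] at h10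
      rcases h10 with ⟨h11, _⟩ | ⟨_, h11⟩
      · exact iC0 h11
      · linarith
  have hprod : volume (logC t K C) =
      (volume S ^ (1 - t) * volume T ^ t) * (IK ^ (1 - t) * IC ^ t) := by
    rw [heq, eK, eC, ENNReal.mul_rpow_of_nonneg _ _ hs0.le, ENNReal.mul_rpow_of_nonneg _ _ ht0.le]
    ring
  have hDle := hY.ineq t ht0 ht1 S T hS hT
  -- the three equalities
  have hD : volume (logC t S T) = volume S ^ (1 - t) * volume T ^ t := by
    apply le_antisymm _ hDle
    have h1 : volume (logC t S T) * IW ≤ (volume S ^ (1 - t) * volume T ^ t) * IW := by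
      calc volume (logC t S T) * IW ≤ volume (logC t K C) := eW
        _ = (volume S ^ (1 - t) * volume T ^ t) * (IK ^ (1 - t) * IC ^ t) := hprod
        _ ≤ _ := mul_le_mul_right hpl _
    exact (ENNReal.mul_le_mul_iff_left iW0 iW).1 h1
  have hI : IW ≤ IK ^ (1 - t) * IC ^ t := by
    have h1 : volume (logC t S T) * IW ≤ volume (logC t S T) * (IK ^ (1 - t) * IC ^ t) := by
      calc volume (logC t S T) * IW ≤ volume (logC t K C) := eW
        _ = (volume S ^ (1 - t) * volume T ^ t) * (IK ^ (1 - t) * IC ^ t) := hprod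
        _ = _ := by rw [hD]
    exact (ENNReal.mul_le_mul_iff_right vD0 vD).1 h1
  have hWle : volume (logC t K C) ≤ volume (logC t S T) * IW := by
    rw [hprod, ← hD]
    exact mul_le_mul_right hpl _
  have bW : Body (logC t K C) := by
    refine ⟨hWv, hWc, int_nonempty hWv ?_⟩
    rw [hprod, ← hD]
    intro h
    rcases mul_eq_zero.1 h with h | h
    · exact vD0 h
    · have h9 := h
      rcases mul_eq_zero.1 h9 with h10 | h10
      · rw [ENNReal.rpow_eq_zero_iff] at h10
        rcases h10 with ⟨h11, _⟩ | ⟨_, h11⟩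
        · exact iK0 h11
        · linarith
      · rw [ENNReal.rpow_eq_zero_iff] at h10
        rcases h10 with ⟨h11, _⟩ | ⟨_, h11⟩
        · exact iC0 h11
        · linarith
  have kW : Blk (logC t K C) (logC t S T) := blk_of_vol hd bW sD (by rw [r8_rad]; exact hWle)
  have stS := hY.str t ht0 ht1 S T hS hT hD
  -- the real functions
  have hint : (∫ x in Ioo 0 ((a ^ d) ^ (1 - t) * (b ^ d) ^ t),
      fa (til (logC t K C) (logC t S T)) (x ^ ((1 : ℝ) / d))) ≤
      (∫ x in Ioo 0 (a ^ d), fa (til K S) (x ^ ((1 : ℝ) / d))) ^ (1 - t) *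
        (∫ x in Ioo 0 (b ^ d), fa (til C T) (x ^ ((1 : ℝ) / d))) ^ t := by
    have h1 : (a ^ d) ^ (1 - t) * (b ^ d) ^ t = (a ^ (1 - t) * b ^ t) ^ d := by
      rw [mul_pow, ← Real.rpow_natCast a d, ← Real.rpow_natCast b d, ← Real.rpow_mul ha.le,
        ← Real.rpow_mul hb.le, ← Real.rpow_natCast (a ^ (1 - t)) d,
        ← Real.rpow_natCast (b ^ t) d, ← Real.rpow_mul ha.le, ← Real.rpow_mul hb.le,
        mul_comm (d : ℝ) (1 - t), mul_comm (d : ℝ) t]
    rw [h1]
    have n1 : ∀ {A : Set (E (N + 1))} {m : ℝ}, 0 ≤ ∫ x in Ioo 0 (m ^ d), fa A (x ^ ((1 : ℝ) / d)) :=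
      fun {A m} => integral_nonneg fun _ => fa_nonneg _ _
    have h2 := hI
    rw [hIW, hIK, hIC, r8_int hd mW, r8_int hd mK, r8_int hd mC,
      ENNReal.ofReal_rpow_of_nonneg n1 hs0.le, ENNReal.ofReal_rpow_of_nonneg n1 ht0.le,
      ← ENNReal.ofReal_mul (Real.rpow_nonneg n1 _)] at h2
    exact (ENNReal.ofReal_le_ofReal_iff (mul_nonneg (Real.rpow_nonneg n1 _)
      (Real.rpow_nonneg n1 _))).1 h2
  have had : 0 < a ^ d := by positivity
  have hbd : 0 < b ^ d := by positivity
  have hcW : ContinuousOn (fun x : ℝ => fa (til (logC t K C) (logC t S T)) (x ^ ((1 : ℝ) / d)))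
      (Ioo 0 ((a ^ d) ^ (1 - t) * (b ^ d) ^ t)) := by
    have h1 : (a ^ d) ^ (1 - t) * (b ^ d) ^ t = (a ^ (1 - t) * b ^ t) ^ d := by
      rw [mul_pow, ← Real.rpow_natCast a d, ← Real.rpow_natCast b d, ← Real.rpow_mul ha.le,
        ← Real.rpow_mul hb.le, ← Real.rpow_natCast (a ^ (1 - t)) d,
        ← Real.rpow_natCast (b ^ t) d, ← Real.rpow_mul ha.le, ← Real.rpow_mul hb.le,
        mul_comm (d : ℝ) (1 - t), mul_comm (d : ℝ) t]
    rw [h1]
    exact r8_cont hd mW
  obtain ⟨c, hc0, hc⟩ := pleq ht0 ht1 had hbd (r8_cont hd mK) (r8_cont hd mC) hcW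
    (fun x hx hxa => mK.fa_pos (r8_lt hd ha hx hxa).1.le (r8_lt hd ha hx hxa).2)
    (fun x hx hxa => mC.fa_pos (r8_lt hd hb hx hxa).1.le (r8_lt hd hb hx hxa).2)
    (fun x => fa_nonneg _ _)
    (M := max (fa (til K S) 0) (max (fa (til C T) 0) (fa (til (logC t K C) (logC t S T)) 0)))
    (fun x => (mK.fa_le _).trans (le_max_left _ _))
    (fun x => (mC.fa_le _).trans ((le_max_left _ _).trans (le_max_right _ _)))
    (fun x => (mW.fa_le _).trans ((le_max_right _ _).trans (le_max_right _ _)))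
    (fun x y hx hxa hy hyb => by
      show fa (til K S) (x ^ ((1 : ℝ) / d)) ^ (1 - t) * fa (til C T) (y ^ ((1 : ℝ) / d)) ^ t ≤
        fa (til (logC t K C) (logC t S T)) ((x ^ (1 - t) * y ^ t) ^ ((1 : ℝ) / d))
      rw [r8_root hx hy]
      obtain ⟨hx0, hx1⟩ := r8_lt hd ha hx hxa
      obtain ⟨hy0, hy1⟩ := r8_lt hd hb hy hyb
      set z := x ^ ((1 : ℝ) / d)
      set w := y ^ ((1 : ℝ) / d)
      have h1 := r8_ineq hd hX hY ht0 ht1 bK bC hS hT kS kT sK sC mK mC hx0 hx1 hy0 hy1
      have h2 := r8_incl ht0 ht1 bK bC sS sT mK mC hx0 hx1.le hy0 hy1.le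
      have h3 := h1.trans (measure_mono h2)
      have h4 := mW.slice_ne_top (z ^ (1 - t) * w ^ t)
      unfold fa
      rw [slice_til, slice_til, slice_til, abs_of_pos hx0, abs_of_pos hy0,
        abs_of_pos (by positivity)]
      rw [slice_til, abs_of_pos (by positivity)] at h4
      have h5 := ENNReal.toReal_mono h4 h3
      rw [ENNReal.toReal_mul, ← ENNReal.toReal_rpow, ← ENNReal.toReal_rpow] at h5
      exact h5) hint
  set ρ : ℝ := b / a with hρ
  have hρ0 : 0 < ρ := div_pos hb ha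
  have hρa : ρ * a = b := div_mul_cancel₀ b ha.ne'
  have hlt : ∀ z, z < a → ρ * z < b := by
    intro z hz
    rw [← hρa]
    exact mul_lt_mul_of_pos_left hz hρ0
  have hpw : ∀ z, 0 < z → z ^ (1 - t) * (ρ * z) ^ t = ρ ^ t * z := by
    intro z hz
    rw [Real.mul_rpow hρ0.le hz.le]
    have h1 : z ^ (1 - t) * z ^ t = z := by
      rw [← Real.rpow_add hz]
      simp
    calc z ^ (1 - t) * (ρ ^ t * z ^ t) = ρ ^ t * (z ^ (1 - t) * z ^ t) := by ring
      _ = _ := by rw [h1]
  have hcz : ∀ z, 0 < z → z < a → fa (til (logC t K C) (logC t S T)) (ρ ^ t * z) =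
      fa (til K S) z ^ (1 - t) * fa (til C T) (ρ * z) ^ t := by
    intro z hz hza
    have h1 := (hc (z ^ d) (by positivity) (pow_lt_pow_left₀ hza hz.le hd.ne')).2
    have h2 : (z ^ d) ^ ((1 : ℝ) / d) = z := by
      rw [one_div, Real.pow_rpow_inv_natCast hz.le hd.ne']
    have h3 : (b ^ d / a ^ d * z ^ d) ^ ((1 : ℝ) / d) = ρ * z := by
      rw [← div_pow, ← mul_pow, one_div,
        Real.pow_rpow_inv_natCast (by positivity) hd.ne']
    have h4 : ((b ^ d / a ^ d) ^ t * z ^ d) ^ ((1 : ℝ) / d) = ρ ^ t * z := by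
      have h5 : (b ^ d / a ^ d) ^ t = (ρ ^ t) ^ d := by
        rw [← div_pow, ← hρ, ← Real.rpow_natCast ρ d, ← Real.rpow_mul hρ0.le,
          ← Real.rpow_natCast (ρ ^ t) d, ← Real.rpow_mul hρ0.le, mul_comm]
      rw [h5, ← mul_pow, one_div, Real.pow_rpow_inv_natCast (by positivity) hd.ne']
    simp only [h2, h3, h4] at h1
    exact h1
  have hsl : ∀ z, 0 < z → z < a →
      hol (logC t K C) (logC t S T) (ρ ^ t * z) = logC t (hol K S z) (hol C T (ρ * z)) ∧
      volume (logC t (hol K S z) (hol C T (ρ * z))) =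
        volume (hol K S z) ^ (1 - t) * volume (hol C T (ρ * z)) ^ t := by
    intro z hz hza
    have hpz : 0 < ρ * z := by positivity
    have hρz : 0 < ρ ^ t * z := by positivity
    have h1 := r8_incl ht0 ht1 bK bC sS sT mK mC hz hza.le hpz (hlt z hza).le
    rw [hpw z hz] at h1
    have h2 := r8_ineq hd hX hY ht0 ht1 bK bC hS hT kS kT sK sC mK mC hz hza hpz (hlt z hza)
    have h3 := hcz z hz hza
    have hWf := mW.slice_ne_top (ρ ^ t * z)
    rw [slice_til, abs_of_pos hρz] at hWf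
    have hKf := mK.slice_ne_top z
    rw [slice_til, abs_of_pos hz] at hKf
    have hCf := mC.slice_ne_top (ρ * z)
    rw [slice_til, abs_of_pos hpz] at hCf
    unfold fa at h3
    rw [slice_til, slice_til, slice_til, abs_of_pos hz, abs_of_pos hpz, abs_of_pos hρz] at h3
    have h4 : volume (hol (logC t K C) (logC t S T) (ρ ^ t * z)) =
        volume (hol K S z) ^ (1 - t) * volume (hol C T (ρ * z)) ^ t := by
      rw [← ENNReal.ofReal_toReal hWf, h3, ENNReal.ofReal_mul (by positivity),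
        ← ENNReal.ofReal_rpow_of_nonneg ENNReal.toReal_nonneg hs0.le,
        ← ENNReal.ofReal_rpow_of_nonneg ENNReal.toReal_nonneg ht0.le,
        ENNReal.ofReal_toReal hKf, ENNReal.ofReal_toReal hCf]
    have hzW : ρ ^ t * z < a ^ (1 - t) * b ^ t := by
      have h7 := hpw a ha
      rw [hρa] at h7
      rw [h7]
      exact mul_lt_mul_of_pos_left hza (by positivity)
    have hWp := mW.slice_pos (z := ρ ^ t * z) (by positivity) hzW
    rw [slice_til, abs_of_pos hρz] at hWp
    have h0Kz : (0 : E N) ∈ hol K S z := by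
      have := mK.zero_mem (w := z) (by rw [abs_of_pos hz]; exact hza.le)
      rwa [slice_til, abs_of_pos hz] at this
    have h0Cz : (0 : E N) ∈ hol C T (ρ * z) := by
      have := mC.zero_mem (w := ρ * z) (by rw [abs_of_pos hpz]; exact (hlt z hza).le)
      rwa [slice_til, abs_of_pos hpz] at this
    have hWcv : Convex ℝ (hol (logC t K C) (logC t S T) (ρ ^ t * z)) := hol_conv hWv _
    have h6 : logC t (hol K S z) (hol C T (ρ * z)) =
        hol (logC t K C) (logC t S T) (ρ ^ t * z) := by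
      apply eq_of_vol (compact_logC ht0 ht1
        (hol_comp bK.comp ⟨0, interior_subset sS.zero⟩ z)
        (hol_comp bC.comp ⟨0, interior_subset sT.zero⟩ _) h0Kz h0Cz)
        hWcv (int_nonempty hWcv hWp) hWf h1
      rw [h4]
      exact h2
    refine ⟨h6.symm, ?_⟩
    rw [h6]
    exact h4
  refine ⟨S, T, a, ρ, ht0, ht1, ha, hρ0, bK, bC, sS, sT, kS, kT, mK, by rwa [hρa], ?_, ?_, kW,
    fun z hz hza => (hsl z hz hza).1, ?_, stS⟩
  · intro z hz hza
    have h1 := mK.slice_pos hz hza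
    rw [slice_til, abs_of_nonneg hz] at h1
    exact (hX.sh (hol_X hd hX hY bK hS kS sK hz h1)).zero
  · intro z hz hza
    have hpz : 0 ≤ ρ * z := by positivity
    have h1 := mC.slice_pos hpz (hlt z hza)
    rw [slice_til, abs_of_nonneg hpz] at h1
    exact (hX.sh (hol_X hd hX hY bC hT kT sC hpz h1)).zero
  · intro z hz hza
    have hpz : 0 < ρ * z := by positivity
    have h1 := mK.slice_pos hz.le hza
    rw [slice_til, abs_of_pos hz] at h1
    have h2 := mC.slice_pos hpz.le (hlt z hza)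
    rw [slice_til, abs_of_pos hpz] at h2
    exact hX.str t ht0 ht1 _ _ (hol_X hd hX hY bK hS kS sK hz.le h1)
      (hol_X hd hX hY bC hT kT sC hpz.le h2) (hsl z hz hza).2

end

end Pool.Agent.Lib.MP_1dedaf_gt.BL
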