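import Pool.Agent.Lib.MP_1dedaf_gt.BL.A
import Pool.Agent.Lib.MP_1dedaf_gt.ED.C
import Pool.Agent.Lib.MP_1dedaf_gt.BL.B

/-!
# MP_1dedaf_gt, BL, row 9: one ratio, the reduction to bodies with one mirror
-/

set_option autoImplicit false

open MeasureTheory Set Filter Topology
open scoped ENNReal NNReal Pointwise

namespace Pool.Agent.Lib.MP_1dedaf_gt.BL

open Pool.Agent.Lib.MP_1dedaf_gt.SC
open Pool.Agent.Lib.MP_1dedaf_gt.EG

lemma r9_zero {d : ℕ} {S : Set (E d)} (hS : Sh S) : (0 : E d) ∈ S := interior_subset hS.zero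

lemma r9_nhds {d : ℕ} {S : Set (E d)} (hS : Sh S) : S ∈ 𝓝 (0 : E d) :=
  mem_interior_iff_mem_nhds.1 hS.zero

/-- Every point is a multiple of a point of the shape, by the gauge. -/
lemma r9_dec {d : ℕ} {S : Set (E d)} (hS : Sh S) (y : E d) : ∃ s ∈ S, y = gauge S y • s := by
  have hr : 0 ≤ gauge S y := gauge_nonneg y
  rcases hr.eq_or_lt with h0 | h0
  · refine ⟨0, r9_zero hS, ?_⟩
    rw [smul_zero]
    by_contra hne
    have h1 : 0 < gauge S y := (gauge_pos (absorbent_nhds_zero (r9_nhds hS))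
      ((NormedSpace.isVonNBounded_iff ℝ).2 hS.comp.isBounded)).2 hne
    rw [← h0] at h1
    exact lt_irrefl _ h1
  · refine ⟨(gauge S y)⁻¹ • y, ?_, ?_⟩
    · have h1 : gauge S ((gauge S y)⁻¹ • y) ≤ 1 := by
        rw [gauge_smul_of_nonneg (inv_nonneg.2 h0.le), smul_eq_mul, inv_mul_cancel₀ h0.ne']
      rwa [gauge_le_one_iff_mem_closure hS.conv (r9_nhds hS), hS.comp.isClosed.closure_eq] at h1
    · rw [smul_smul, mul_inv_cancel₀ h0.ne', one_smul]

lemma r9_gauge {d : ℕ} {S : Set (E d)} (hS : Sh S) (y v : E d) :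
    inner ℝ y v ≤ gauge S y * supp S v := by
  obtain ⟨s, hs, h1⟩ := r9_dec hS y
  have h2 := mul_le_mul_of_nonneg_left (le_supp hS.comp v hs) (gauge_nonneg (s := S) y)
  calc inner ℝ y v = inner ℝ (gauge S y • s) v := by rw [← h1]
    _ = gauge S y * inner ℝ s v := by rw [real_inner_smul_left]
    _ ≤ _ := h2

/-- The support function of the body with one mirror. -/
lemma r9_supp {N d : ℕ} (hd : 0 < d) {K : Set (E (N + d))} (hK : Body K) {S : Set (E d)}
    (hS : Sh S) (hB : Blk K S) (h0 : (0 : E (N + d)) ∈ K) (u : E N) (v : E d) :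
    supp (til K S) (SC.ext u (supp S v)) = supp K (app u v) := by
  have hv := supp_nonneg hS.comp (r9_zero hS) v
  have hin : ∀ (x : E N) (z : ℝ), inner ℝ (SC.ext x z) (SC.ext u (supp S v)) =
      inner ℝ x u + z * supp S v := by
    intro x z
    rw [inner_ext, ini_ext, ext_last]
  have hT0 : SC.ext (0 : E N) 0 ∈ til K S := by
    rw [r3b_mem, abs_zero, hol_zero ⟨0, r9_zero hS⟩]
    show app 0 0 ∈ K
    rwa [app_zero]
  apply le_antisymm
  · apply csSup_le (Set.Nonempty.image _ ⟨_, hT0⟩)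
    rintro _ ⟨p, hp, rfl⟩
    obtain ⟨s, hs, h1⟩ := supp_attained hS.comp ⟨0, r9_zero hS⟩ v
    have h2 : ini p ∈ hol K S |p (Fin.last N)| := hp
    have h3 := le_supp hK.comp (app u v) (h2 s hs)
    rw [inner_app, real_inner_smul_left, h1] at h3
    have h4 : p (Fin.last N) * supp S v ≤ |p (Fin.last N)| * supp S v :=
      mul_le_mul_of_nonneg_right (le_abs_self _) hv
    show inner ℝ p (SC.ext u (supp S v)) ≤ _
    rw [← ext_ini p, hin]
    linarith
  · apply csSup_le (Set.Nonempty.image _ ⟨_, h0⟩)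
    rintro _ ⟨q, hq, rfl⟩
    show inner ℝ q (app u v) ≤ _
    rw [← app_eta q] at hq ⊢
    have h2 : fst q ∈ sec K (snd q) := hq
    rw [sec_eq_hol hK.conv hS hB] at h2
    have h3 : SC.ext (fst q) (gauge S (snd q)) ∈ til K S := by
      rw [r3b_mem, abs_of_nonneg (gauge_nonneg _)]
      exact h2
    have h4 := le_supp (til_comp hd hK.comp hS) (SC.ext u (supp S v)) h3
    rw [hin] at h4
    rw [inner_app]
    have h5 := r9_gauge hS (snd q) v
    linarith

/-- The support function of a shape takes all values `≥ 0`. -/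
lemma r9_val {d : ℕ} (hd : 0 < d) {S : Set (E d)} (hS : Sh S) {w : ℝ} (hw : 0 ≤ w) :
    ∃ v : E d, supp S v = w := by
  have h1 : (EuclideanSpace.single (⟨0, hd⟩ : Fin d) (1 : ℝ)) ≠ 0 := by
    intro h
    have h2 := congrArg (fun x : E d => ‖x‖) h
    simp at h2
  have h2 := r4_pos hS.comp hS.zero h1
  refine ⟨(w / supp S (EuclideanSpace.single (⟨0, hd⟩ : Fin d) (1 : ℝ))) •
    (EuclideanSpace.single (⟨0, hd⟩ : Fin d) (1 : ℝ)), ?_⟩
  rw [supp_smul hS.comp ⟨0, r9_zero hS⟩ (div_nonneg hw h2.le), div_mul_cancel₀ _ h2.ne']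

lemma r9_til0 {N d : ℕ} {K : Set (E (N + d))} {S : Set (E d)} (hS : Sh S)
    (h0 : (0 : E (N + d)) ∈ K) : (0 : E (N + 1)) ∈ til K S := by
  have h1 : SC.ext (0 : E N) 0 ∈ til K S := by
    rw [r3b_mem, abs_zero, hol_zero ⟨0, r9_zero hS⟩]
    show app 0 0 ∈ K
    rwa [app_zero]
  have h2 : SC.ext (0 : E N) 0 = 0 := by
    ext i
    refine Fin.lastCases ?_ (fun c => ?_) i
    · rw [ext_last]
      rfl
    · rw [ext_castSucc]
      rfl
  rwa [h2] at h1

lemma r9_mir {N d : ℕ} {K : Set (E (N + d))} {S : Set (E d)} (u : E N) (w : ℝ) :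
    supp (til K S) (SC.ext u (-w)) = supp (til K S) (SC.ext u w) := by
  have key : ∀ w : ℝ, (fun y : E (N + 1) => (inner ℝ y (SC.ext u (-w)) : ℝ)) '' til K S ⊆
      (fun y : E (N + 1) => (inner ℝ y (SC.ext u w) : ℝ)) '' til K S := by
    rintro w _ ⟨p, hp, rfl⟩
    refine ⟨SC.ext (ini p) (-(p (Fin.last N))), ?_, ?_⟩
    · apply til_mir
      rw [ext_ini]
      exact hp
    · show inner ℝ (SC.ext (ini p) (-(p (Fin.last N)))) (SC.ext u w) = inner ℝ p (SC.ext u (-w))
      rw [inner_ext, ini_ext, ext_last, ← ext_ini p, inner_ext, ini_ext, ext_last, ini_ext, ext_last]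
      ring
  unfold supp
  apply congrArg
  apply subset_antisymm (key w)
  have h := key (-w)
  rwa [neg_neg] at h

theorem hol_logC {N d : ℕ} (hd : 0 < d) {t : ℝ} (ht0 : 0 < t) (ht1 : t < 1)
    {K C : Set (E (N + d))} (hK : Body K) (hC : Body C) {S : Set (E d)} (hS : Sh S)
    (hBK : Blk K S) (hBC : Blk C S) (h0 : (0 : E (N + d)) ∈ K) (h0' : (0 : E (N + d)) ∈ C)
    {r : ℝ} (hr : 0 ≤ r) :
    hol (logC t K C) S r = slice (logC t (til K S) (til C S)) r := by
  have hs0 : 0 < 1 - t := by linarith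
  apply subset_antisymm
  · intro x hx p _
    have key : ∀ (u : E N) (w : ℝ), 0 ≤ w → inner ℝ x u + r * w ≤
        supp (til K S) (SC.ext u w) ^ (1 - t) * supp (til C S) (SC.ext u w) ^ t := by
      intro u w hw
      obtain ⟨v, hv⟩ := r9_val hd hS hw
      obtain ⟨s, hs, h1⟩ := supp_attained hS.comp ⟨0, r9_zero hS⟩ v
      have h2 := logC_all hK.comp hC.comp h0 h0' (hx s hs) (app u v)
      rw [inner_app, real_inner_smul_left, h1, ← r9_supp hd hK hS hBK h0,
        ← r9_supp hd hC hS hBC h0', hv] at h2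
      exact h2
    show inner ℝ (SC.ext x r) p ≤ _
    rw [inner_ext]
    rcases le_or_gt 0 (p (Fin.last N)) with h | h
    · have h1 := key (ini p) _ h
      rwa [ext_ini] at h1
    · have h1 := key (ini p) (-(p (Fin.last N))) (by linarith)
      rw [r9_mir, r9_mir, ext_ini] at h1
      have h2 : r * p (Fin.last N) ≤ r * -(p (Fin.last N)) :=
        mul_le_mul_of_nonneg_left (by linarith) hr
      linarith
  · intro x hx s hs p _
    rw [← app_eta p, inner_app, real_inner_smul_left]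
    have h1 := logC_all (til_comp hd hK.comp hS) (til_comp hd hC.comp hS) (r9_til0 hS h0)
      (r9_til0 hS h0') (hx : SC.ext x r ∈ logC t (til K S) (til C S))
      (SC.ext (fst p) (supp S (snd p)))
    rw [inner_ext, ini_ext, ext_last, r9_supp hd hK hS hBK h0, r9_supp hd hC hS hBC h0'] at h1
    have h2 := mul_le_mul_of_nonneg_left (le_supp hS.comp (snd p) hs) hr
    linarith

/-- Separation. -/
lemma r9_sep {d : ℕ} {S : Set (E d)} (hc : Convex ℝ S) (hk : IsCompact S) (hne : S.Nonempty)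
    {x : E d} (h : ∀ u : E d, ‖u‖ = 1 → inner ℝ x u ≤ supp S u) : x ∈ S := by
  by_contra hx
  obtain ⟨f, c, hf1, hf2⟩ := geometric_hahn_banach_closed_point hc hk.isClosed hx
  obtain ⟨w, hw⟩ := (InnerProductSpace.toDual ℝ (E d)).surjective f
  have hfw : ∀ y, inner ℝ y w = f y := by
    intro y
    rw [← hw, InnerProductSpace.toDual_apply_apply, real_inner_comm]
  obtain ⟨s, hs, h1⟩ := supp_attained hk hne w
  have hw0 : w ≠ 0 := by
    rintro rfl
    have h2 := hf1 s hs
    rw [← hfw, inner_zero_right] at h2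
    rw [← hfw, inner_zero_right] at hf2
    linarith
  have hn : 0 < ‖w‖ := norm_pos_iff.2 hw0
  have h2 := h (‖w‖⁻¹ • w) (by rw [norm_smul, norm_inv, norm_norm, inv_mul_cancel₀ hn.ne'])
  rw [supp_smul hk hne (inv_nonneg.2 hn.le), inner_smul_right] at h2
  have h3 : inner ℝ x w ≤ supp S w := le_of_mul_le_mul_left h2 (inv_pos.2 hn)
  have h4 := hf1 s hs
  rw [← h1, hfw, hfw] at h3
  linarith

lemma r9_suppl {d : ℕ} {S : Set (E d)} (hS : Sh S) {l : ℝ} (hl : 0 < l) (u : E d) :
    supp (l • S) u = l * supp S u := by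
  have hz := r9_zero hS
  have hk : IsCompact (l • S) := hS.comp.smul l
  have hn : (l • S).Nonempty := ⟨l • 0, smul_mem_smul_set hz⟩
  apply le_antisymm
  · obtain ⟨y, hy, h1⟩ := supp_attained hk hn u
    obtain ⟨s, hs, rfl⟩ := hy
    rw [← h1]
    show inner ℝ (l • s) u ≤ _
    rw [real_inner_smul_left]
    exact mul_le_mul_of_nonneg_left (le_supp hS.comp u hs) hl.le
  · obtain ⟨s, hs, h1⟩ := supp_attained hS.comp ⟨0, hz⟩ u
    rw [← h1, ← real_inner_smul_left]
    exact le_supp hk u (smul_mem_smul_set hs)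

/-- The combination of a shape and its dilate. -/
lemma r9_logCl {d : ℕ} {t : ℝ} {S : Set (E d)} (hS : Sh S) {l : ℝ} (hl : 0 < l) :
    logC t S (l • S) = (l ^ t) • S := by
  have hz := r9_zero hS
  have hlt : 0 < l ^ t := Real.rpow_pos_of_pos hl t
  have key : ∀ u, supp S u ^ (1 - t) * supp (l • S) u ^ t = l ^ t * supp S u := by
    intro u
    have h0 := supp_nonneg hS.comp hz u
    rw [r9_suppl hS hl, Real.mul_rpow hl.le h0]
    rcases h0.eq_or_lt with h1 | h1
    · rw [← h1, mul_zero]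
      rcases eq_or_ne t 0 with ht | ht
      · subst ht
        simp
      · rw [Real.zero_rpow ht]
        ring
    · have h2 : supp S u ^ (1 - t) * supp S u ^ t = supp S u := by
        rw [← Real.rpow_add h1]
        simp
      calc supp S u ^ (1 - t) * (l ^ t * supp S u ^ t)
          = l ^ t * (supp S u ^ (1 - t) * supp S u ^ t) := by ring
        _ = _ := by rw [h2]
  apply subset_antisymm
  · intro x hx
    refine ⟨(l ^ t)⁻¹ • x, ?_, ?_⟩
    · apply r9_sep hS.conv hS.comp ⟨0, hz⟩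
      intro u hu
      have h1 := hx u hu
      rw [key] at h1
      rw [real_inner_smul_left, inv_mul_le_iff₀ hlt]
      exact h1
    · show (l ^ t) • ((l ^ t)⁻¹ • x) = x
      rw [smul_smul, mul_inv_cancel₀ hlt.ne', one_smul]
  · rintro _ ⟨s, hs, rfl⟩
    intro u _
    rw [key]
    show inner ℝ ((l ^ t) • s) u ≤ _
    rw [real_inner_smul_left]
    exact mul_le_mul_of_nonneg_left (le_supp hS.comp u hs) hlt.le

lemma r9_holl {N d : ℕ} {K : Set (E (N + d))} {S : Set (E d)} (l r : ℝ) :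
    hol K (l • S) r = hol K S (l * r) := by
  ext x
  constructor
  · intro h s hs
    have h1 := h (l • s) (smul_mem_smul_set hs)
    rwa [smul_smul, mul_comm] at h1
  · rintro h _ ⟨s, hs, rfl⟩
    show app x (r • (l • s)) ∈ K
    rw [smul_smul, mul_comm]
    exact h s hs

lemma r9_gaugel {d : ℕ} {S : Set (E d)} {l : ℝ} (hl : 0 < l) (y : E d) :
    gauge (l • S) y = l⁻¹ * gauge S y := by
  rw [gauge_smul_left_of_nonneg hl.le, Pi.smul_apply, smul_eq_mul]

theorem eqS_of_eqB {N d : ℕ} (hd : 0 < d) {t : ℝ} {K C : Set (E (N + d))} {S T : Set (E d)}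
    {a ρ : ℝ} (H : EqB t K C S T a ρ) {l : ℝ} (hl : 0 < l) (hT : T = l • S) :
    EqS t (til K S) (til C S) a (l * ρ) := by
  have hS := H.sS
  have hz := r9_zero hS
  have ht0 := H.t0
  have ht1 := H.t1
  have hρ := H.r0
  have ha := H.a0
  have hCT : ∀ r, hol C T r = hol C S (l * r) := fun r => by rw [hT, r9_holl]
  have hBC : Blk C S := by
    intro x y y' hy h
    apply H.kT x y y' _ h
    rw [hT, r9_gaugel hl, r9_gaugel hl, hy]
  have h0 : (0 : E (N + d)) ∈ K := by
    have h1 := interior_subset (H.iK 0 le_rfl ha)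
    rw [hol_zero ⟨0, hz⟩] at h1
    have h2 : app (0 : E N) (0 : E d) ∈ K := h1
    rwa [app_zero] at h2
  have h0' : (0 : E (N + d)) ∈ C := by
    have h1 := interior_subset (H.iC 0 le_rfl ha)
    rw [mul_zero, hol_zero ⟨0, r9_zero H.sT⟩] at h1
    have h2 : app (0 : E N) (0 : E d) ∈ C := h1
    rwa [app_zero] at h2
  have hW : ∀ r, 0 ≤ r → hol (logC t K C) S r = slice (logC t (til K S) (til C S)) r :=
    fun r hr => hol_logC hd ht0 ht1 H.bK H.bC hS H.kS hBC h0 h0' hr
  have hlt : (l * ρ) ^ t = l ^ t * ρ ^ t := Real.mul_rpow hl.le hρ.le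
  have hpos : 0 < (l * ρ) ^ t := Real.rpow_pos_of_pos (mul_pos hl hρ) t
  have hsC : ∀ z, 0 ≤ z → slice (til C S) (l * ρ * z) = hol C T (ρ * z) := by
    intro z hz0
    rw [slice_til, abs_of_nonneg (by positivity), hCT, mul_assoc]
  have hsK : ∀ z, 0 ≤ z → slice (til K S) z = hol K S z := by
    intro z hz0
    rw [slice_til, abs_of_nonneg hz0]
  have hiC : ∀ z, 0 ≤ z → z < a → (0 : E N) ∈ interior (slice (til C S) (l * ρ * z)) := by
    intro z hz0 hza
    rw [hsC z hz0]
    exact H.iC z hz0 hza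
  have hmT : ∀ (x : E N) (z : ℝ), SC.ext x z ∈ til C S → SC.ext x (z / l) ∈ til C T := by
    intro x z h
    rw [r3b_mem] at h ⊢
    rw [hCT, abs_div, abs_of_pos hl, mul_div_cancel₀ _ hl.ne']
    exact h
  refine ⟨ht0, ht1, ha, mul_pos hl hρ, H.mK, ?_, ?_, hiC, ?_, ?_, ?_⟩
  · refine ⟨til_conv H.bC.conv hS, til_comp hd H.bC.comp hS, fun x z h => til_mir x z h,
      by positivity, ?_, ?_, ?_⟩
    · have h1 := H.mC.top
      rw [r3b_mem] at h1 ⊢
      have hρa : 0 < ρ * a := mul_pos hρ ha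
      rw [abs_of_pos hρa, hCT] at h1
      rw [abs_of_pos (by positivity), mul_assoc]
      exact h1
    · intro x z h
      have h1 := H.mC.le x (z / l) (hmT x z h)
      rw [div_le_iff₀ hl] at h1
      linarith
    · intro hv
      have hm : MeasurableSet (til C S) := (til_comp hd H.bC.comp hS).measurableSet
      rw [vol_slice _ hm, lintegral_eq_zero_iff (meas_slice _ hm)] at hv
      have h1 : (volume : Measure ℝ) (Ioo 0 (l * ρ * a)) = 0 := by
        refine measure_mono_null ?_ (ae_iff.1 hv)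
        intro w hw
        show ¬ volume (slice (til C S) w) = 0
        have h2 : 0 < l * ρ := mul_pos hl hρ
        have h3 := hiC (w / (l * ρ)) (div_nonneg hw.1.le h2.le) (by
          rw [div_lt_iff₀ h2]
          linarith [hw.2])
        rw [mul_div_cancel₀ _ h2.ne'] at h3
        have h4 : 0 < volume (slice (til C S) w) :=
          (isOpen_interior.measure_pos volume ⟨0, h3⟩).trans_le (measure_mono interior_subset)
        exact h4.ne'
      rw [Real.volume_Ioo, sub_zero] at h1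
      have h2 : 0 < l * ρ * a := by positivity
      exact absurd h1 (ENNReal.ofReal_pos.2 h2).ne'
  · intro z hz0 hza
    rw [hsK z hz0]
    exact H.iK z hz0 hza
  · intro z hz0 hza
    rw [← hW _ (by positivity), hsK z hz0.le, hsC z hz0.le, ← H.sl z hz0 hza, hT,
      r9_logCl hS hl, r9_holl, hlt, mul_assoc]
  · intro z z' hz0 hzz' hz'a
    have h1 : 0 ≤ z' := hz0.le.trans hzz'
    rw [← hW _ (by positivity), ← hW _ (by positivity)]
    exact hol_anti hS (by positivity) (mul_le_mul_of_nonneg_left hzz' hpos.le)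
  · intro z hz0 hza
    rw [hsK z hz0.le, hsC z hz0.le]
    exact H.str z hz0 hza

end Pool.Agent.Lib.MP_1dedaf_gt.BL

/-!
# MP_1dedaf_gt, BL, row 10: from the slices to the body, one ratio
-/

set_option autoImplicit false

open MeasureTheory Set Filter Topology
open scoped ENNReal NNReal Pointwise

namespace Pool.Agent.Lib.MP_1dedaf_gt.BL

open Pool.Agent.Lib.MP_1dedaf_gt.SC
open Pool.Agent.Lib.MP_1dedaf_gt.EG

/-- The structure of mirror bodies, explicit form of `EG.lift`. -/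
theorem r10_lift {n : ℕ} {t : ℝ} {K C : Set (E (n + 1))} {a ρ : ℝ} (H : EqS t K C a ρ)
    {Λ : Finset ℝ} {π : ℝ → (E n →L[ℝ] E n)}
    (h : ∀ z, 0 < z → z < a → Str (slice K z) (slice C (ρ * z)) Λ π) :
    Str K C (insert ρ Λ) (fun r => r14_lft (π r) (if r = ρ then 1 else 0)) := by
  have ha := H.a0
  have hF : Fam Λ π := (h (a / 2) (by linarith) (by linarith)).fam
  obtain ⟨δ, hδ⟩ : ∃ δ : ℝ → ℝ, ∀ r, δ r = if r = ρ then 1 else 0 := ⟨_, fun _ => rfl⟩
  have hδs : ∀ (c : ℝ → ℝ) (z : ℝ), ∑ r ∈ insert ρ Λ, c r * (δ r * z) = c ρ * z := fun c z => by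
    rw [Finset.sum_eq_single_of_mem ρ (Finset.mem_insert_self _ _) fun r _ hr => by
      rw [hδ, if_neg hr]; ring]
    rw [hδ, if_pos rfl]; ring
  have hop : ∀ x : E n, op Λ π x = ∑ r ∈ Λ, r • π r x := fun x => by
    unfold op
    simp only [FunLike.coe_sum, Finset.sum_apply, FunLike.coe_smul, Pi.smul_apply]
  have hop' : ∀ (x : E n) (z : ℝ), op (insert ρ Λ) (fun r => r14_lft (π r) (δ r)) (SC.ext x z) =
      SC.ext (op Λ π x) (ρ * z) := fun x z => by
    unfold op
    simp only [FunLike.coe_sum, Finset.sum_apply, FunLike.coe_smul, Pi.smul_apply, r14_lft_ext]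
    have h1 : ∀ r, r • SC.ext (π r x) (δ r * z) = SC.ext (r • π r x) (r * (δ r * z)) := fun r => by
      have h2 := ext_comb (π r x) 0 (δ r * z) 0 r 0
      simpa only [zero_smul, add_zero, zero_mul] using h2
    simp only [h1]
    rw [r14_sum, r14_ins hF ρ (fun r => r) (fun _ => x), hδs (fun r => r) z]
  have hlin : Continuous (op (insert ρ Λ) (fun r => r14_lft (π r) (δ r))) :=
    (op (insert ρ Λ) (fun r => r14_lft (π r) (δ r))).continuous
  have hδf : (fun r => r14_lft (π r) (if r = ρ then 1 else 0)) =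
      fun r => r14_lft (π r) (δ r) := by
    funext r
    rw [hδ]
  rw [hδf]
  refine ⟨⟨?_, ?_, ?_, ?_, ?_⟩, ?_, ?_⟩
  · intro r hr
    rcases Finset.mem_insert.1 hr with hr | hr
    · rw [hr]; exact H.r0
    · exact hF.pos r hr
  · intro x
    simp only [r14_lft_apply]
    rw [r14_sum]
    have h1 := r14_ins hF ρ (fun _ => 1) (fun _ => ini x)
    have h2 := hδs (fun _ => 1) (x (Fin.last n))
    simp only [one_smul, one_mul] at h1 h2
    rw [h1, h2, hF.one, ext_ini]
  · intro r hr s hs hrs x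
    show r14_lft (π r) (δ r) (r14_lft (π s) (δ s) x) = 0
    rw [r14_lft_apply (π s), r14_lft_ext]
    have h1 : π r (π s (ini x)) = 0 := by
      by_cases hr' : r ∈ Λ
      · by_cases hs' : s ∈ Λ
        · exact hF.ort r hr' s hs' hrs _
        · rw [hF.out s hs']; simp
      · rw [hF.out r hr']; simp
    have h2 : δ r * (δ s * x (Fin.last n)) = 0 := by
      rw [hδ, hδ]
      by_cases h3 : r = ρ
      · rw [if_neg (fun h4 => hrs (h3.trans h4.symm)) (c := s = ρ)]; ring
      · rw [if_neg h3]; ring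
    rw [h1, h2, r14_ext_zero]
  · intro r hr h0
    by_cases h1 : r = ρ
    · have h2 := congrArg (fun T : E (n + 1) →L[ℝ] E (n + 1) => T (SC.ext 0 1) (Fin.last n)) h0
      simp only [r14_lft_ext, ext_last] at h2
      rw [hδ, if_pos h1] at h2
      norm_num at h2
    · have hr' : r ∈ Λ := (Finset.mem_insert.1 hr).resolve_left h1
      apply hF.nz r hr'
      ext1 x
      have h2 := congrArg (fun T : E (n + 1) →L[ℝ] E (n + 1) => ini (T (SC.ext x 0))) h0
      simp only [r14_lft_ext, ini_ext] at h2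
      rw [h2]
      ext i
      simp
  · intro r hr
    have h1 : r ≠ ρ := fun h2 => hr (h2 ▸ Finset.mem_insert_self _ _)
    have h2 : r ∉ Λ := fun h3 => hr (Finset.mem_insert_of_mem h3)
    ext1 x
    rw [r14_lft_apply, hF.out r h2, hδ, if_neg h1, zero_mul]
    exact r14_ext_zero
  · intro f hf
    simp only [r14_lft_apply]
    rw [r14_sum]
    have h2 : ∑ r ∈ insert ρ Λ, δ r * (f r) (Fin.last n) = 1 * (f ρ) (Fin.last n) := by
      rw [Finset.sum_eq_single_of_mem ρ (Finset.mem_insert_self _ _) fun r _ hr => by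
        rw [hδ, if_neg hr]; ring]
      rw [hδ, if_pos rfl]
    rw [h2, ← Finset.sum_erase_add _ _ (Finset.mem_insert_self ρ Λ),
      Finset.erase_insert_eq_erase]
    have hfK : ∀ r ∈ Λ, ini (f r) ∈ slice K 0 := by
      intro r hr
      have h3 := hf r (Finset.mem_insert_of_mem hr)
      rw [← ext_ini (f r)] at h3
      rcases le_or_gt 0 ((f r) (Fin.last n)) with h4 | h4
      · exact H.mK.mono (by rw [abs_zero]; exact h4) h3
      · exact H.mK.mono (z' := -(f r) (Fin.last n)) (by rw [abs_zero]; linarith)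
          (H.mK.mir _ _ h3)
    have hfρ : SC.ext (ini (f ρ)) ((f ρ) (Fin.last n)) ∈ K := by
      rw [ext_ini]; exact hf ρ (Finset.mem_insert_self _ _)
    refine r14_all H.mK H.mK.comp.isClosed H.mK.mir
      (Φ := fun y => ∑ r ∈ Λ.erase ρ, π r (ini (f r)) + π ρ y) (by fun_prop) 1 ?_ _ _ hfρ
    intro x z hz hza hx
    have hS := h z hz hza
    rw [one_mul]
    show ∑ r ∈ Λ.erase ρ, π r (ini (f r)) + π ρ x ∈ slice K z
    have h5 := hS.clo (fun r => if r = ρ then x else π r (ini (f r))) fun r hr => by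
      by_cases hr' : r = ρ
      · simp only [hr', if_true]; exact hx
      · simp only [hr', if_false]
        exact (flem H hz hza hS hr hr').1 _ (hfK r hr)
    have h6 : ∑ r ∈ Λ.erase ρ, π r (if r = ρ then x else π r (ini (f r))) =
        ∑ r ∈ Λ.erase ρ, π r (ini (f r)) := Finset.sum_congr rfl fun r hr => by
      rw [if_neg (Finset.ne_of_mem_erase hr), hF.idem (Finset.mem_of_mem_erase hr)]
    by_cases hρ : ρ ∈ Λ
    · rw [← Finset.sum_erase_add _ _ hρ, h6] at h5
      simpa only [if_true] using h5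
    · rw [Finset.erase_eq_of_notMem hρ] at h6 ⊢
      rw [h6] at h5
      rw [hF.out ρ hρ]
      simpa using h5
  · have hKc : IsClosed (op (insert ρ Λ) (fun r => r14_lft (π r) (δ r)) '' K) :=
      (H.mK.comp.image hlin).isClosed
    apply Subset.antisymm
    · intro y hy
      rw [← ext_ini y] at hy ⊢
      have h1 := r14_all H.mC hKc (Φ := fun x => x) ?_ continuous_id 1 ?_ _ _ hy
      · rwa [one_mul] at h1
      · rintro x z ⟨p, hp, hpx⟩
        rw [← ext_ini p] at hp hpx
        rw [hop'] at hpx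
        have h3 := congrArg ini hpx
        have h4 := congrArg (fun v : E (n + 1) => v (Fin.last n)) hpx
        simp only [ini_ext, ext_last] at h3 h4
        refine ⟨SC.ext (ini p) (-(p (Fin.last n))), H.mK.mir _ _ hp, ?_⟩
        rw [hop', h3, ← h4]
        congr 1
        ring
      · intro x z hz hza hx
        have hz' : 0 < z / ρ := div_pos hz H.r0
        have hza' : z / ρ < a := by rw [div_lt_iff₀ H.r0]; linarith
        have h2 : ρ * (z / ρ) = z := mul_div_cancel₀ z H.r0.ne'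
        have h3 := (h _ hz' hza').img
        have h4 : x ∈ slice C (ρ * (z / ρ)) := by rw [h2]; exact hx
        rw [h3] at h4
        obtain ⟨p, hp, hpx⟩ := h4
        refine ⟨SC.ext p (z / ρ), hp, ?_⟩
        rw [hop', hpx, h2, one_mul]
    · rintro _ ⟨p, hp, rfl⟩
      rw [← ext_ini p] at hp ⊢
      rw [hop']
      refine r14_all H.mK H.mC.comp.isClosed H.mC.mir (Φ := fun x => op Λ π x)
        (op Λ π).continuous ρ ?_ _ _ hp
      intro x z hz hza hx
      show op Λ π x ∈ slice C (ρ * z)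
      rw [(h z hz hza).img]
      exact mem_image_of_mem _ hx

/-- The projections of the block body. -/
noncomputable def r10_pi {N : ℕ} (d : ℕ) (ρ : ℝ) (π : ℝ → (E N →L[ℝ] E N)) (r : ℝ) :
    E (N + d) →L[ℝ] E (N + d) :=
  dia (π r) ((if r = ρ then (1 : ℝ) else 0) • ContinuousLinearMap.id ℝ (E d))

lemma r10_pi_app {N d : ℕ} (ρ : ℝ) (π : ℝ → (E N →L[ℝ] E N)) (r : ℝ) (x : E N) (y : E d) :
    r10_pi d ρ π r (app x y) = app (π r x) ((if r = ρ then (1 : ℝ) else 0) • y) := by
  unfold r10_pi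
  rw [dia_app]
  rfl

lemma r10_mem {N d : ℕ} {K : Set (E (N + d))} {S : Set (E d)} (hK : Body K) (hS : Sh S)
    (hB : Blk K S) (x : E N) (y : E d) : app x y ∈ K ↔ SC.ext x (gauge S y) ∈ til K S := by
  have h1 : app x y ∈ K ↔ x ∈ sec K y := Iff.rfl
  rw [h1, sec_eq_hol hK.conv hS hB y]
  have h2 : SC.ext x (gauge S y) ∈ til K S ↔
      ini (SC.ext x (gauge S y)) ∈ hol K S |(SC.ext x (gauge S y)) (Fin.last N)| := Iff.rfl
  rw [h2, ini_ext, ext_last, abs_of_nonneg (gauge_nonneg y)]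

/-- ROW 10: from the slices to the body, one ratio. -/
theorem lift_block {N d : ℕ} (hd : 0 < d) {t : ℝ} {K C : Set (E (N + d))} {S : Set (E d)}
    {a ρ : ℝ} (hK : Body K) (hC : Body C) (hS : Sh S) (hBK : Blk K S) (hBC : Blk C S)
    (H : EqS t (til K S) (til C S) a ρ) {Λ : Finset ℝ} {π : ℝ → (E N →L[ℝ] E N)}
    (h : ∀ z, 0 < z → z < a → Str (slice (til K S) z) (slice (til C S) (ρ * z)) Λ π) :
    ∃ (Λ' : Finset ℝ) (π' : ℝ → (E (N + d) →L[ℝ] E (N + d))), Str K C Λ' π' := by
  have hT := r10_lift H h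
  have ha := H.a0
  have hF : Fam Λ π := (h (a / 2) (by linarith) (by linarith)).fam
  obtain ⟨δ, hδ⟩ : ∃ δ : ℝ → ℝ, ∀ r, δ r = if r = ρ then 1 else 0 := ⟨_, fun _ => rfl⟩
  have hπ : ∀ (r : ℝ) (x : E N) (y : E d), r10_pi d ρ π r (app x y) = app (π r x) (δ r • y) :=
    fun r x y => by rw [r10_pi_app, hδ]
  have hπ' : ∀ (r : ℝ) (p : E (N + d)),
      r10_pi d ρ π r p = app (π r (fst p)) (δ r • snd p) := fun r p => by
    conv_lhs => rw [← app_eta p]
    rw [hπ]
  have hsnd : ∀ (c : ℝ → ℝ) (f : ℝ → E d), ∑ r ∈ insert ρ Λ, c r • δ r • f r = c ρ • f ρ :=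
      fun c f => by
    rw [Finset.sum_eq_single_of_mem ρ (Finset.mem_insert_self _ _) fun r _ hr => by
      rw [hδ, if_neg hr, zero_smul, smul_zero]]
    rw [hδ, if_pos rfl, one_smul]
  have hop' : ∀ (x : E N) (y : E d), op (insert ρ Λ) (r10_pi d ρ π) (app x y) =
      app (op Λ π x) (ρ • y) := fun x y => by
    unfold op
    simp only [FunLike.coe_sum, Finset.sum_apply, FunLike.coe_smul, Pi.smul_apply, hπ, app_smul]
    rw [app_sum, r14_ins hF ρ (fun r => r) (fun _ => x), hsnd (fun r => r) (fun _ => y)]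
  have hopT : ∀ (x : E N) (z : ℝ),
      op (insert ρ Λ) (fun r => r14_lft (π r) (if r = ρ then 1 else 0)) (SC.ext x z) =
      SC.ext (op Λ π x) (ρ * z) := fun x z => by
    unfold op
    simp only [FunLike.coe_sum, Finset.sum_apply, FunLike.coe_smul, Pi.smul_apply, r14_lft_ext]
    have h1 : ∀ r, r • SC.ext (π r x) ((if r = ρ then 1 else 0) * z) =
        SC.ext (r • π r x) (r * ((if r = ρ then 1 else 0) * z)) := fun r => by
      have h2 := ext_comb (π r x) 0 ((if r = ρ then 1 else 0) * z) 0 r 0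
      simpa only [zero_smul, add_zero, zero_mul] using h2
    simp only [h1]
    rw [r14_sum, r14_ins hF ρ (fun r => r) (fun _ => x)]
    congr 1
    rw [Finset.sum_eq_single_of_mem ρ (Finset.mem_insert_self _ _) fun r _ hr => by
      rw [if_neg hr]; ring]
    rw [if_pos rfl]; ring
  refine ⟨insert ρ Λ, r10_pi d ρ π, ⟨?_, ?_, ?_, ?_, ?_⟩, ?_, ?_⟩
  · intro r hr
    rcases Finset.mem_insert.1 hr with hr | hr
    · rw [hr]; exact H.r0
    · exact hF.pos r hr
  · intro p
    simp only [hπ']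
    rw [app_sum]
    have h1 := r14_ins hF ρ (fun _ => 1) (fun _ => fst p)
    have h2 := hsnd (fun _ => 1) (fun _ => snd p)
    simp only [one_smul] at h1 h2
    rw [h1, h2, hF.one, app_eta]
  · intro r hr s hs hrs p
    rw [hπ' s, hπ]
    have h1 : π r (π s (fst p)) = 0 := by
      by_cases hr' : r ∈ Λ
      · by_cases hs' : s ∈ Λ
        · exact hF.ort r hr' s hs' hrs _
        · rw [hF.out s hs']; simp
      · rw [hF.out r hr']; simp
    have h2 : δ r • δ s • snd p = 0 := by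
      rw [hδ, hδ]
      by_cases h3 : r = ρ
      · rw [if_neg (fun h4 => hrs (h3.trans h4.symm)) (c := s = ρ)]; simp
      · rw [if_neg h3]; simp
    rw [h1, h2, app_zero]
  · intro r hr h0
    by_cases h1 : r = ρ
    · have : Nonempty (Fin d) := ⟨⟨0, hd⟩⟩
      obtain ⟨y, hy⟩ := exists_ne (0 : E d)
      have h2 := congrArg (fun T : E (N + d) →L[ℝ] E (N + d) => snd (T (app 0 y))) h0
      simp only [hπ, snd_app] at h2
      rw [hδ, if_pos h1, one_smul] at h2
      exact hy h2
    · have hr' : r ∈ Λ := (Finset.mem_insert.1 hr).resolve_left h1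
      apply hF.nz r hr'
      ext1 x
      have h2 := congrArg (fun T : E (N + d) →L[ℝ] E (N + d) => fst (T (app x 0))) h0
      simp only [hπ, fst_app] at h2
      rw [h2]
      rfl
  · intro r hr
    have h1 : r ≠ ρ := fun h2 => hr (h2 ▸ Finset.mem_insert_self _ _)
    have h2 : r ∉ Λ := fun h3 => hr (Finset.mem_insert_of_mem h3)
    ext1 p
    rw [hπ', hF.out r h2, hδ, if_neg h1, zero_smul]
    exact app_zero
  · intro f hf
    simp only [hπ']
    rw [app_sum]
    have h1 := hsnd (fun _ => 1) (fun r => snd (f r))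
    simp only [one_smul] at h1
    rw [h1, r10_mem hK hS hBK]
    have h2 := hT.clo (fun r => SC.ext (fst (f r)) (gauge S (snd (f r)))) fun r hr => by
      rw [← r10_mem hK hS hBK, app_eta]
      exact hf r hr
    simp only [r14_lft_ext] at h2
    rw [r14_sum] at h2
    rw [Finset.sum_eq_single_of_mem ρ (Finset.mem_insert_self _ _)
      (f := fun r => (if r = ρ then 1 else 0) * gauge S (snd (f r))) fun r _ hr => by
      rw [if_neg hr, zero_mul]] at h2
    rw [if_pos rfl, one_mul] at h2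
    exact h2
  · have hg : ∀ y : E d, gauge S (ρ • y) = ρ * gauge S y := fun y => by
      rw [gauge_smul_of_nonneg H.r0.le, smul_eq_mul]
    apply Subset.antisymm
    · intro q hq
      rw [← app_eta q, r10_mem hC hS hBC, hT.img] at hq
      obtain ⟨p, hp, hpq⟩ := hq
      rw [← ext_ini p] at hp hpq
      rw [hopT] at hpq
      have h3 := congrArg ini hpq
      have h4 := congrArg (fun v : E (N + 1) => v (Fin.last N)) hpq
      simp only [ini_ext, ext_last] at h3 h4
      have h5 : p (Fin.last N) = gauge S (ρ⁻¹ • snd q) := by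
        rw [gauge_smul_of_nonneg (inv_nonneg.2 H.r0.le), smul_eq_mul, ← h4, ← mul_assoc,
          inv_mul_cancel₀ H.r0.ne', one_mul]
      rw [h5, ← r10_mem hK hS hBK] at hp
      refine ⟨_, hp, ?_⟩
      rw [hop', h3, smul_smul, mul_inv_cancel₀ H.r0.ne', one_smul, app_eta]
    · rintro _ ⟨p, hp, rfl⟩
      rw [← app_eta p] at hp ⊢
      rw [hop', r10_mem hC hS hBC, hg, hT.img, ← hopT]
      exact mem_image_of_mem _ ((r10_mem hK hS hBK _ _).1 hp)

end Pool.Agent.Lib.MP_1dedaf_gt.BL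

/-!
# MP_1dedaf_gt, BL, row 11: the chain of inequalities
-/

set_option autoImplicit false

open MeasureTheory Set Filter Topology
open scoped ENNReal NNReal Pointwise

namespace Pool.Agent.Lib.MP_1dedaf_gt.BL

open Pool.Agent.Lib.MP_1dedaf_gt.SC
open Pool.Agent.Lib.MP_1dedaf_gt.EG

private lemma r11_conv {n : ℕ} (t : ℝ) (K C : Set (E n)) : Convex ℝ (logC t K C) := by
  intro x hx y hy a b ha hb hab u hu
  have h1 := hx u hu
  have h2 := hy u hu
  rw [inner_add_left, real_inner_smul_left, real_inner_smul_left]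
  calc a * inner ℝ x u + b * inner ℝ y u ≤
      a * (supp K u ^ (1 - t) * supp C u ^ t) + b * (supp K u ^ (1 - t) * supp C u ^ t) :=
        add_le_add (mul_le_mul_of_nonneg_left h1 ha) (mul_le_mul_of_nonneg_left h2 hb)
    _ = _ := by rw [← add_mul, hab, one_mul]

private lemma r11_norm {N d : ℕ} (w : E (N + d)) : ‖fst w‖ ≤ ‖w‖ := by
  have h1 : ‖w‖ ^ 2 = ‖fst w‖ ^ 2 + ‖snd w‖ ^ 2 := by
    have h2 := inner_app (fst w) (fst w) (snd w) (snd w)
    rw [app_eta, real_inner_self_eq_norm_sq, real_inner_self_eq_norm_sq,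
      real_inner_self_eq_norm_sq] at h2
    exact h2
  have h2 : ‖fst w‖ ^ 2 ≤ ‖w‖ ^ 2 := by
    rw [h1]
    have : 0 ≤ ‖snd w‖ ^ 2 := by positivity
    linarith
  exact (sq_le_sq₀ (norm_nonneg _) (norm_nonneg _)).1 h2

private lemma r11_supp_zero {n : ℕ} {K : Set (E n)} (hK : IsCompact K) (hne : K.Nonempty) :
    supp K (0 : E n) = 0 := by
  obtain ⟨y, hy, h2⟩ := supp_attained hK hne (0 : E n)
  rw [← h2, inner_zero_right]

/-- The gauge of a point supported by a functional is at least `1`. -/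
private lemma r11_gauge {d : ℕ} {t : ℝ} (ht0 : 0 < t) (ht1 : t < 1) {S T : Set (E d)}
    (hS : Sh S) (hT : Sh T) {y μ : E d} (hμ : μ ≠ 0)
    (hyμ : supp S μ ^ (1 - t) * supp T μ ^ t ≤ inner ℝ y μ) : 1 ≤ gauge (logC t S T) y := by
  have hD := sh_logC ht0 ht1 hS hT
  have p1 := EQ.chain_supp_pos hS.comp hS.zero hμ
  have p2 := EQ.chain_supp_pos hT.comp hT.zero hμ
  have zS : (0 : E d) ∈ S := interior_subset hS.zero
  have zT : (0 : E d) ∈ T := interior_subset hT.zero
  have hc : 0 < supp S μ ^ (1 - t) * supp T μ ^ t :=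
    mul_pos (Real.rpow_pos_of_pos p1 _) (Real.rpow_pos_of_pos p2 _)
  have habs : Absorbent ℝ (logC t S T) := absorbent_nhds_zero (mem_interior_iff_mem_nhds.1 hD.zero)
  by_contra hcon
  push Not at hcon
  obtain ⟨l, hl0, hl1, hl2⟩ := exists_lt_of_gauge_lt habs hcon
  obtain ⟨p, hp, hpe⟩ := hl2
  have h1 := logC_all hS.comp hT.comp zS zT hp μ
  have h2 : inner ℝ y μ = l * inner ℝ p μ := by
    rw [← hpe]
    exact real_inner_smul_left p μ l
  rw [h2] at hyμ
  have h3 : l * inner ℝ p μ ≤ l * (supp S μ ^ (1 - t) * supp T μ ^ t) :=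
    mul_le_mul_of_nonneg_left h1 hl0.le
  have h4 : l * (supp S μ ^ (1 - t) * supp T μ ^ t) < 1 * (supp S μ ^ (1 - t) * supp T μ ^ t) :=
    mul_lt_mul_of_pos_right hl1 hc
  linarith

/-- ROW 11: the chain. -/
theorem chainB {N d : ℕ} (hd : 0 < d) {t : ℝ} {K C : Set (E (N + d))} {S T : Set (E d)} {a ρ : ℝ}
    (H : EqB t K C S T a ρ) {z : ℝ} (hz : 0 < z) (hza : z < a) {x ν : E N}
    (hx : x ∈ logC t (hol K S z) (hol C T (ρ * z))) (hν : ν ≠ 0)
    (hxν : supp (hol K S z) ν ^ (1 - t) * supp (hol C T (ρ * z)) ν ^ t ≤ inner ℝ x ν)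
    {y μ : E d} (hy : y ∈ logC t S T) (hμ : μ ≠ 0)
    (hyμ : supp S μ ^ (1 - t) * supp T μ ^ t ≤ inner ℝ y μ) :
    ∃ (u : E N) (v : E d), u ≠ 0 ∧
      inner ℝ x u = supp (hol K S z) u ^ (1 - t) * supp (hol C T (ρ * z)) u ^ t ∧
      inner ℝ y v = supp S v ^ (1 - t) * supp T v ^ t ∧
      (v = 0 ∨ supp (hol C T (ρ * z)) u * supp S v = ρ * supp T v * supp (hol K S z) u) ∧
      supp K (app u v) = supp (hol K S z) u + z * supp S v ∧
      supp C (app u v) = supp (hol C T (ρ * z)) u + ρ * z * supp T v := by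
  have ht0 := H.t0
  have ht1 := H.t1
  have hs0 : 0 < 1 - t := by linarith
  have hr0 := H.r0
  have cK := H.bK.comp
  have cC := H.bC.comp
  have cS := H.sS.comp
  have cT := H.sT.comp
  have zS : (0 : E d) ∈ S := interior_subset H.sS.zero
  have zT : (0 : E d) ∈ T := interior_subset H.sT.zero
  have hA : IsCompact (hol K S z) := hol_comp cK ⟨0, zS⟩ z
  have hB : IsCompact (hol C T (ρ * z)) := hol_comp cC ⟨0, zT⟩ (ρ * z)
  have iA := H.iK z hz.le hza
  have iB := H.iC z hz.le hza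
  have zA : (0 : E N) ∈ hol K S z := interior_subset iA
  have zB : (0 : E N) ∈ hol C T (ρ * z) := interior_subset iB
  have hD := sh_logC ht0 ht1 H.sS H.sT
  have hrt : 0 < ρ ^ t := Real.rpow_pos_of_pos hr0 t
  have hR : 0 < ρ ^ t * z := mul_pos hrt hz
  have hgy : 1 ≤ gauge (logC t S T) y := r11_gauge ht0 ht1 H.sS H.sT hμ hyμ
  have hcont : Continuous fun w : E (N + d) => supp K w ^ (1 - t) * supp C w ^ t := by
    apply Continuous.mul
    · exact (EQ.chain_supp_cont cK).rpow_const (fun _ => Or.inr hs0.le)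
    · exact (EQ.chain_supp_cont cC).rpow_const (fun _ => Or.inr ht0.le)
  -- step 1: a touching functional
  obtain ⟨w, hw1, hw2⟩ : ∃ w : E (N + d), ‖w‖ = 1 ∧
      supp K w ^ (1 - t) * supp C w ^ t ≤ inner ℝ (app x ((ρ ^ t * z) • y)) w := by
    by_contra hcon
    push Not at hcon
    haveI : Nontrivial (E (N + d)) := by
      refine ⟨app 0 μ, 0, ?_⟩
      intro h
      apply hμ
      have h1 : snd (app (0 : E N) μ) = snd (0 : E (N + d)) := by rw [h]
      rw [snd_app, ← app_zero, snd_app] at h1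
      exact h1
    have hcs : IsCompact (Metric.sphere (0 : E (N + d)) 1) := isCompact_sphere _ _
    have hsne : (Metric.sphere (0 : E (N + d)) 1).Nonempty :=
      (NormedSpace.sphere_nonempty (x := (0 : E (N + d)))).2 zero_le_one
    have hc2 : Continuous fun w : E (N + d) => supp K w ^ (1 - t) * supp C w ^ t -
        inner ℝ (app x ((ρ ^ t * z) • y)) w := hcont.sub (continuous_const.inner continuous_id)
    obtain ⟨w0, hw0, hmin⟩ := hcs.exists_isMinOn hsne hc2.continuousOn
    have hw0' : ‖w0‖ = 1 := by simpa using hw0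
    set δ := supp K w0 ^ (1 - t) * supp C w0 ^ t - inner ℝ (app x ((ρ ^ t * z) • y)) w0 with hδ
    have hδ0 : 0 < δ := by
      have := hcon w0 hw0'
      rw [hδ]
      linarith
    have hνn : 0 < ‖ν‖ := norm_pos_iff.2 hν
    have hmem : x + (δ / ‖ν‖) • ν ∈ sec (logC t K C) ((ρ ^ t * z) • y) := by
      intro w hw
      have hwe : w = app (fst w) (snd w) := (app_eta w).symm
      have h1 : inner ℝ (app (x + (δ / ‖ν‖) • ν) ((ρ ^ t * z) • y)) w =
          inner ℝ (app x ((ρ ^ t * z) • y)) w + δ / ‖ν‖ * inner ℝ ν (fst w) := by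
        rw [hwe, inner_app, inner_app, fst_app, inner_add_left, real_inner_smul_left]
        ring
      have h2 : inner ℝ ν (fst w) ≤ ‖ν‖ := by
        have h3 := real_inner_le_norm ν (fst w)
        have h4 : ‖fst w‖ ≤ 1 := by
          rw [← hw]
          exact r11_norm w
        calc inner ℝ ν (fst w) ≤ ‖ν‖ * ‖fst w‖ := h3
          _ ≤ ‖ν‖ * 1 := mul_le_mul_of_nonneg_left h4 hνn.le
          _ = ‖ν‖ := mul_one _
      have h3 : δ ≤ supp K w ^ (1 - t) * supp C w ^ t -
          inner ℝ (app x ((ρ ^ t * z) • y)) w :=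
        hmin (show w ∈ Metric.sphere (0 : E (N + d)) 1 by simpa using hw)
      have h4 : δ / ‖ν‖ * inner ℝ ν (fst w) ≤ δ := by
        calc δ / ‖ν‖ * inner ℝ ν (fst w) ≤ δ / ‖ν‖ * ‖ν‖ :=
              mul_le_mul_of_nonneg_left h2 (by positivity)
          _ = δ := by field_simp
      rw [h1]
      linarith
    rw [sec_eq_hol (r11_conv t K C) hD H.kW, gauge_smul_of_nonneg hR.le, smul_eq_mul] at hmem
    have hle : ρ ^ t * z ≤ ρ ^ t * z * gauge (logC t S T) y := le_mul_of_one_le_right hR.le hgy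
    have hmem2 := hol_anti hD hR.le hle hmem
    rw [H.sl z hz hza] at hmem2
    have h5 := logC_all hA hB zA zB hmem2 ν
    rw [inner_add_left, real_inner_smul_left, real_inner_self_eq_norm_sq] at h5
    have h6 : 0 < δ / ‖ν‖ * ‖ν‖ ^ 2 := by positivity
    linarith
  -- step 2: the chain
  set u := fst w with hu
  set v := snd w with hv
  have hwe : w = app u v := (app_eta w).symm
  have hsA := supp_nonneg hA zA u
  have hsB := supp_nonneg hB zB u
  have hsS := supp_nonneg cS zS v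
  have hsT := supp_nonneg cT zT v
  have c1 := logC_all hA hB zA zB hx u
  have cy := logC_all cS cT zS zT hy v
  have hρz : 0 ≤ ρ * z := by positivity
  have c4 := supp_hol cK cS ⟨0, zS⟩ hz.le ⟨0, zA⟩ u v
  have c5 := supp_hol cC cT ⟨0, zT⟩ hρz ⟨0, zB⟩ u v
  rw [hwe, inner_app, real_inner_smul_left] at hw2
  have e1 : (z * supp S v) ^ (1 - t) * (ρ * z * supp T v) ^ t =
      ρ ^ t * z * (supp S v ^ (1 - t) * supp T v ^ t) := by
    rw [mul_assoc ρ z (supp T v), Real.mul_rpow hr0.le (by positivity),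
      Real.mul_rpow hz.le hsS, Real.mul_rpow hz.le hsT]
    have : z ^ (1 - t) * z ^ t = z := by
      rw [← Real.rpow_add hz]
      simp
    calc z ^ (1 - t) * supp S v ^ (1 - t) * (ρ ^ t * (z ^ t * supp T v ^ t)) =
        ρ ^ t * (z ^ (1 - t) * z ^ t) * (supp S v ^ (1 - t) * supp T v ^ t) := by ring
      _ = _ := by rw [this]
  have p1 : 0 ≤ z * supp S v := by positivity
  have p2 : 0 ≤ ρ * z * supp T v := by positivity
  have c3 := holder2 ht0 ht1 hsA hsB p1 p2
  rw [e1] at c3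
  have c6 : (supp (hol K S z) u + z * supp S v) ^ (1 - t) *
      (supp (hol C T (ρ * z)) u + ρ * z * supp T v) ^ t ≤
        supp K (app u v) ^ (1 - t) * supp C (app u v) ^ t := by
    have h11 : 0 ≤ supp K (app u v) := by linarith
    have h12 : 0 ≤ supp C (app u v) := by linarith
    gcongr
  have c2 : ρ ^ t * z * inner ℝ y v ≤ ρ ^ t * z * (supp S v ^ (1 - t) * supp T v ^ t) :=
    mul_le_mul_of_nonneg_left cy hR.le
  -- all inequalities are equalities
  have d1 : inner ℝ x u = supp (hol K S z) u ^ (1 - t) * supp (hol C T (ρ * z)) u ^ t := by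
    linarith
  have d2 : ρ ^ t * z * inner ℝ y v = ρ ^ t * z * (supp S v ^ (1 - t) * supp T v ^ t) := by
    linarith
  have d2' : inner ℝ y v = supp S v ^ (1 - t) * supp T v ^ t := mul_left_cancel₀ hR.ne' d2
  have hne : u ≠ 0 ∨ v ≠ 0 := by
    by_contra hcon
    push Not at hcon
    have h1 : w = 0 := by
      rw [hwe, hcon.1, hcon.2, app_zero]
    rw [h1, norm_zero] at hw1
    exact zero_ne_one hw1
  have hpos : 0 < supp (hol K S z) u + z * supp S v ∧
      0 < supp (hol C T (ρ * z)) u + ρ * z * supp T v := by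
    rcases hne with hu0 | hv0
    · have h1 := EQ.chain_supp_pos hA iA hu0
      have h2 := EQ.chain_supp_pos hB iB hu0
      constructor <;> linarith
    · have h1 := EQ.chain_supp_pos cS H.sS.zero hv0
      have h2 := EQ.chain_supp_pos cT H.sT.zero hv0
      constructor <;> positivity
  have d3 := EQ.chain_prod_eq ht0 ht1 hpos.1 hpos.2 c4 c5 (by linarith)
  have hu0 : u ≠ 0 := by
    intro hu0
    have hv0 : v ≠ 0 := by
      rcases hne with h | h
      · exact absurd hu0 h
      · exact h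
    have h1 := EQ.chain_supp_pos cS H.sS.zero hv0
    obtain ⟨s, hs, hse⟩ := supp_attained cS ⟨0, zS⟩ v
    have htop : SC.ext (0 : E N) a ∈ til K S := H.mK.top
    have htop2 : ini (SC.ext (0 : E N) a) ∈ hol K S |SC.ext (0 : E N) a (Fin.last N)| := htop
    rw [ini_ext, ext_last, abs_of_pos H.a0] at htop2
    have h2 := le_supp cK (app u v) (htop2 s hs)
    rw [inner_app, inner_zero_left, real_inner_smul_left, hse, d3.1, hu0,
      r11_supp_zero hA ⟨0, zA⟩] at h2
    have h3 : z * supp S v < a * supp S v := mul_lt_mul_of_pos_right hza h1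
    linarith
  refine ⟨u, v, hu0, d1, d2', ?_, d3.1, d3.2⟩
  by_cases hv0 : v = 0
  · exact Or.inl hv0
  · right
    have h1 := EQ.chain_supp_pos hA iA hu0
    have h2 := EQ.chain_supp_pos hB iB hu0
    have h3 := EQ.chain_supp_pos cS H.sS.zero hv0
    have h4 := EQ.chain_supp_pos cT H.sT.zero hv0
    have h5 := EQ.chain_holder2_eq ht0 ht1 h1 h2 (c := z * supp S v)
      (d := ρ * z * supp T v) (by positivity) (by positivity) (by rw [e1]; linarith)
    apply mul_right_cancel₀ hz.ne'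
    linarith

end Pool.Agent.Lib.MP_1dedaf_gt.BL

/-!
# MP_1dedaf_gt, BL, row 12: the parts with a ratio different from a ratio of the shapes
-/

set_option autoImplicit false

open MeasureTheory Set Filter Topology
open scoped ENNReal NNReal Pointwise

namespace Pool.Agent.Lib.MP_1dedaf_gt.BL

open Pool.Agent.Lib.MP_1dedaf_gt.SC
open Pool.Agent.Lib.MP_1dedaf_gt.EG

/-- A functional which is extremal at a point of one part vanishes on the other parts. -/
private lemma r12_one {n : ℕ} {t : ℝ} (ht0 : 0 < t) (ht1 : t < 1) {A B : Set (E n)}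
    {Λ : Finset ℝ} {π : ℝ → (E n →L[ℝ] E n)} (h : Str A B Λ π) (hA : IsCompact A)
    (hi : (0 : E n) ∈ interior A) {r : ℝ} (hr : r ∈ Λ) {x0 : E n} (hx0 : x0 ∈ A)
    (hπ : π r x0 = x0) {u : E n}
    (c1 : inner ℝ (r ^ t • x0) u = supp A u ^ (1 - t) * supp B u ^ t) :
    supp B u = r * supp A u ∧ (∀ s ∈ Λ, s ≠ r → ad (π s) u = 0) ∧ inner ℝ x0 u = supp A u := by
  have h0 : (0 : E n) ∈ A := interior_subset hi
  have hr0 := h.fam.pos r hr
  have hrt : 0 < r ^ t := Real.rpow_pos_of_pos hr0 t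
  have hp : ∀ s ∈ Λ, 0 ≤ s ^ t * supp A (ad (π s) u) := fun s hs =>
    mul_nonneg (Real.rpow_nonneg (h.fam.pos s hs).le _) (supp_nonneg hA h0 _)
  have d1 : inner ℝ x0 u ≤ supp A (ad (π r) u) := by
    have h1 := le_supp hA (ad (π r) u) hx0
    rwa [r4_inner, hπ] at h1
  have d2 : ∑ s ∈ Λ, s ^ t * supp A (ad (π s) u) ≤ supp A u ^ (1 - t) * supp B u ^ t := by
    have h1 := holder_sum ht0 ht1 Λ (fun s => supp A (ad (π s) u)) h.fam.pos
      (fun s _ => supp_nonneg hA h0 _)
    rwa [← h.suppA hA ⟨0, h0⟩, ← h.suppB hA ⟨0, h0⟩] at h1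
  rw [← c1, real_inner_smul_left] at d2
  have d3 : ∑ s ∈ Λ.erase r, s ^ t * supp A (ad (π s) u) ≤ 0 := by
    rw [← Finset.add_sum_erase Λ _ hr] at d2
    have h1 := mul_le_mul_of_nonneg_left d1 hrt.le
    linarith
  have d4 : ∀ s ∈ Λ, s ≠ r → ad (π s) u = 0 := by
    intro s hs hsr
    have h1 := Finset.single_le_sum (f := fun s => s ^ t * supp A (ad (π s) u))
      (fun s hs => hp s (Finset.mem_of_mem_erase hs)) (Finset.mem_erase.2 ⟨hsr, hs⟩)
    have h2 : s ^ t * supp A (ad (π s) u) ≤ 0 := h1.trans d3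
    by_contra hne0
    have h3 := r4_pos hA hi hne0
    have h4 : 0 < s ^ t := Real.rpow_pos_of_pos (h.fam.pos s hs) t
    have h5 := mul_pos h4 h3
    linarith
  have d5 : supp A u = supp A (ad (π r) u) := by
    rw [h.suppA hA ⟨0, h0⟩, Finset.sum_eq_single_of_mem r hr]
    intro s hs hsr
    rw [d4 s hs hsr, r4_supp_zero ⟨0, h0⟩]
  have d6 : supp B u = r * supp A u := by
    rw [h.suppB hA ⟨0, h0⟩, Finset.sum_eq_single_of_mem r hr, ← d5]
    intro s hs hsr
    rw [d4 s hs hsr, r4_supp_zero ⟨0, h0⟩, mul_zero]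
  refine ⟨d6, d4, ?_⟩
  rw [d6, r4_pow ht0 (supp_nonneg hA h0 _) hr0, real_inner_smul_left] at c1
  exact mul_left_cancel₀ hrt.ne' c1

/-- The special normal at a boundary point. -/
private lemma r12_core {N d : ℕ} (hd : 0 < d) {t : ℝ} {K C : Set (E (N + d))} {S T : Set (E d)}
    {a ρ : ℝ} (H : EqB t K C S T a ρ) {z : ℝ} (hz : 0 < z) (hza : z < a) {Λ : Finset ℝ}
    {π : ℝ → (E N →L[ℝ] E N)} (h : Str (hol K S z) (hol C T (ρ * z)) Λ π)
    {M : Finset ℝ} {σ : ℝ → (E d →L[ℝ] E d)} (hM : Str S T M σ) {r s : ℝ} (hr : r ∈ Λ)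
    (hs : s ∈ M) (hne : r ≠ ρ * s) {p : E N} (hp : π r p ∉ hol K S z) :
    ∃ u : E N, supp K (app u (0 : E d)) < inner ℝ p u ∧
      supp C (app u (0 : E d)) = r * supp K (app u (0 : E d)) := by
  have ht0 := H.t0
  have ht1 := H.t1
  have hSi := H.sS.zero
  have hS0 : (0 : E d) ∈ S := interior_subset hSi
  have hT0 : (0 : E d) ∈ T := interior_subset H.sT.zero
  have hSc := H.sS.comp
  have hA : IsCompact (hol K S z) := hol_comp H.bK.comp ⟨0, hS0⟩ z
  have hi := H.iK z hz.le hza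
  have h0 : (0 : E N) ∈ hol K S z := interior_subset hi
  have hr0 := h.fam.pos r hr
  have hs0 := hM.fam.pos s hs
  obtain ⟨τ, hτ0, hτ1, hx0, ν, hν, hν0⟩ := r7_bd (hol_conv H.bK.conv z) hA hi hp
  set x0 : E N := τ • π r p with hx0def
  have hπ : π r x0 = x0 := by
    rw [hx0def, map_smul, h.fam.idem hr]
  have e1 : inner ℝ x0 (ad (π r) ν) = inner ℝ x0 ν := by rw [r4_inner, hπ]
  have hν1 : ad (π r) ν ≠ 0 := by
    intro h1
    rw [h1, inner_zero_right] at e1
    linarith
  have hsν : supp (hol K S z) (ad (π r) ν) ≤ inner ℝ x0 ν := by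
    obtain ⟨b, hb, hbu⟩ := supp_attained hA ⟨0, h0⟩ (ad (π r) ν)
    rw [← hbu, r4_inner]
    exact hν _ (h.mem h0 hr hb)
  have hxD : r ^ t • π r x0 ∈ logC t (hol K S z) (hol C T (ρ * z)) :=
    h.low ht0 ht1 hA h0 hr hx0
  rw [hπ] at hxD
  have hrt : 0 < r ^ t := Real.rpow_pos_of_pos hr0 t
  -- a functional on the part `s` of the shapes
  obtain ⟨w, hw⟩ : ∃ w : E d, ad (σ s) w ≠ 0 := by
    by_contra hcon
    push Not at hcon
    apply hM.fam.nz s hs
    ext1 x
    apply ext_inner_right ℝ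
    intro w
    rw [← r4_inner, hcon w]
    simp
  obtain ⟨y0, hy0, hy0u⟩ := supp_attained hSc ⟨0, hS0⟩ (ad (σ s) w)
  have hyS : σ s y0 ∈ S := hM.mem hS0 hs hy0
  have hσ : σ s (σ s y0) = σ s y0 := hM.fam.idem hs y0
  have hyD : s ^ t • σ s y0 ∈ logC t S T := hM.low ht0 ht1 hSc hS0 hs hy0
  have e2 : inner ℝ (σ s y0) (ad (σ s) w) = supp S (ad (σ s) w) := by
    rw [r4_inner, hσ, ← r4_inner, hy0u]
  obtain ⟨u, v, hu0, c1, c2, c3, c4, c5⟩ := chainB hd H hz hza hxD hν1 (by
    rw [r4_B h hA ⟨0, h0⟩ hr, r4_pow ht0 (supp_nonneg hA h0 _) hr0, real_inner_smul_left, e1]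
    exact mul_le_mul_of_nonneg_left hsν hrt.le) hyD hw (by
    rw [r4_B hM hSc ⟨0, hS0⟩ hs, r4_pow ht0 (supp_nonneg hSc hS0 _) hs0, real_inner_smul_left,
      e2])
  obtain ⟨d6, d4, d7⟩ := r12_one ht0 ht1 h hA hi hr hx0 hπ c1
  obtain ⟨g6, _, _⟩ := r12_one ht0 ht1 hM hSc hSi hs hyS hσ c2
  have hpos := r4_pos hA hi hu0
  have hv : v = 0 := by
    by_contra hv0
    rcases c3 with h1 | h1
    · exact hv0 h1
    · have hpos2 := r4_pos hSc hSi hv0
      rw [d6, g6] at h1
      apply hne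
      have h2 : r * (supp (hol K S z) u * supp S v) = (ρ * s) * (supp (hol K S z) u * supp S v) := by
        linear_combination h1
      exact mul_right_cancel₀ (mul_pos hpos hpos2).ne' h2
  rw [hv, r4_supp_zero ⟨0, hS0⟩, mul_zero, add_zero] at c4
  rw [hv, r4_supp_zero ⟨0, hT0⟩, mul_zero, add_zero] at c5
  refine ⟨u, ?_, by rw [c4, c5, d6]⟩
  have d8 : inner ℝ p u = inner ℝ (π r p) u := by
    conv_lhs => rw [← h.fam.one p]
    rw [sum_inner, Finset.sum_eq_single_of_mem r hr]
    intro s' hs' hsr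
    rw [← r4_inner, d4 s' hs' hsr, inner_zero_right]
  rw [c4, d8, ← d7, hx0def, real_inner_smul_left]
  rw [hx0def, real_inner_smul_left] at d7
  nlinarith

/-- ROW 12: the parts with a ratio different from a ratio of the shapes. -/
theorem flemB {N d : ℕ} (hd : 0 < d) {t : ℝ} {K C : Set (E (N + d))} {S T : Set (E d)} {a ρ : ℝ}
    (H : EqB t K C S T a ρ) {z : ℝ} (hz : 0 < z) (hza : z < a) {Λ : Finset ℝ}
    {π : ℝ → (E N →L[ℝ] E N)} (h : Str (hol K S z) (hol C T (ρ * z)) Λ π)
    {M : Finset ℝ} {σ : ℝ → (E d →L[ℝ] E d)} (hM : Str S T M σ) {r s : ℝ} (hr : r ∈ Λ)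
    (hs : s ∈ M) (hne : r ≠ ρ * s) :
    (∀ x ∈ hol K S 0, π r x ∈ hol K S z) ∧ (∀ x ∈ hol C T 0, π r x ∈ hol C T (ρ * z)) := by
  have hr0 := h.fam.pos r hr
  have hS0 : (0 : E d) ∈ S := interior_subset H.sS.zero
  have hT0 : (0 : E d) ∈ T := interior_subset H.sT.zero
  constructor
  · intro x hx
    by_contra hcon
    obtain ⟨u, h1, _⟩ := r12_core hd H hz hza h hM hr hs hne hcon
    have h3 : app x (0 : E d) ∈ K := by
      have h4 := hx 0 hS0
      rwa [zero_smul] at h4
    have h2 := le_supp H.bK.comp (app u (0 : E d)) h3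
    rw [inner_app, inner_zero_left, add_zero] at h2
    linarith
  · intro x hx
    by_contra hcon
    have h3 : π r (r⁻¹ • x) ∉ hol K S z := by
      intro h4
      apply hcon
      rw [h.img]
      refine ⟨π r (r⁻¹ • x), h4, ?_⟩
      unfold op
      rw [sum_apply, Finset.sum_eq_single_of_mem r hr]
      · rw [smul_apply, h.fam.idem hr, map_smul, smul_smul,
          mul_inv_cancel₀ hr0.ne', one_smul]
      · intro s' hs' hsr
        rw [smul_apply, h.fam.ort s' hs' r hr hsr, smul_zero]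
    obtain ⟨u, h1, h5⟩ := r12_core hd H hz hza h hM hr hs hne h3
    have h6 : app x (0 : E d) ∈ C := by
      have h4 := hx 0 hT0
      rwa [zero_smul] at h4
    have h2 := le_supp H.bC.comp (app u (0 : E d)) h6
    rw [inner_app, inner_zero_left, add_zero, h5] at h2
    rw [real_inner_smul_left] at h1
    have h7 := mul_lt_mul_of_pos_left h1 hr0
    rw [← mul_assoc, mul_inv_cancel₀ hr0.ne', one_mul] at h7
    linarith

end Pool.Agent.Lib.MP_1dedaf_gt.BL

/-!
# MP_1dedaf_gt, BL, row 13: products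
-/

set_option autoImplicit false

open MeasureTheory Set Filter Topology
open scoped ENNReal NNReal Pointwise

namespace Pool.Agent.Lib.MP_1dedaf_gt.BL

open Pool.Agent.Lib.MP_1dedaf_gt.SC
open Pool.Agent.Lib.MP_1dedaf_gt.EG

section R13

variable {N d : ℕ}

/-- Membership in a product. -/
private lemma r13_mem {K : Set (E (N + d))} {S : Set (E d)} {m : ℝ} (hK : Convex ℝ K)
    (hKc : IsCompact K) (hS : Sh S) (hB : Blk K S) (hM : Mir (til K S) m)
    (h0 : ∀ z, 0 < z → z < m → hol K S 0 ⊆ hol K S z) (x : E N) (y : E d) :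
    app x y ∈ K ↔ x ∈ hol K S 0 ∧ ∃ s ∈ S, y = m • s := by
  have hn : S ∈ 𝓝 (0 : E d) := mem_interior_iff_mem_nhds.1 hS.zero
  have hmem : ∀ s, s ∈ S ↔ gauge S s ≤ 1 := fun s => by
    rw [gauge_le_one_iff_mem_closure hS.conv hn, hS.comp.isClosed.closure_eq]
  have hm := hM.pos
  -- the slices below the height
  have h1 : ∀ z, 0 ≤ z → z < m → hol K S 0 ⊆ hol K S z := fun z hz hzm => by
    rcases eq_or_lt_of_le hz with h | h
    · rw [← h]
    · exact h0 z h hzm
  -- the slice at the height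
  have h2 : hol K S 0 ⊆ hol K S m := by
    intro x hx s hs
    have hc : Continuous (fun z : ℝ => app x (z • s)) := by
      have : Continuous (fun z : ℝ => (x, z • s)) := by fun_prop
      exact cont_app.comp this
    have ht : Tendsto (fun z : ℝ => app x (z • s)) (𝓝[<] m) (𝓝 (app x (m • s))) :=
      (hc.tendsto m).mono_left nhdsWithin_le_nhds
    refine hKc.isClosed.mem_of_tendsto ht ?_
    have h3 : ∀ᶠ z in 𝓝[<] m, z ∈ Ioo 0 m := Ioo_mem_nhdsLT hm
    exact h3.mono fun z hz => h1 z hz.1.le hz.2 hx s hs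
  have hsec : ∀ y : E d, app x y ∈ K ↔ x ∈ hol K S (gauge S y) := fun y => by
    rw [← sec_eq_hol hK hS hB y]
    rfl
  rw [hsec]
  have hg0 : 0 ≤ gauge S y := gauge_nonneg y
  constructor
  · intro hx
    refine ⟨hol_anti hS le_rfl hg0 hx, ?_⟩
    have h3 : SC.ext x (gauge S y) ∈ til K S := by
      have h4 : x ∈ slice (til K S) (gauge S y) := by
        rw [slice_til, abs_of_nonneg hg0]
        exact hx
      exact h4
    have h5 := hM.le _ _ h3
    refine ⟨m⁻¹ • y, ?_, ?_⟩
    · rw [hmem, gauge_smul_of_nonneg (inv_nonneg.2 hm.le), smul_eq_mul, inv_mul_le_iff₀ hm, mul_one]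
      exact h5
    · rw [smul_smul, mul_inv_cancel₀ hm.ne', one_smul]
  · rintro ⟨hx, s, hs, rfl⟩
    have h3 : gauge S (m • s) = m * gauge S s := by
      rw [gauge_smul_of_nonneg hm.le, smul_eq_mul]
    have h4 : gauge S (m • s) ≤ m := by
      rw [h3]
      exact mul_le_of_le_one_right hm.le ((hmem s).1 hs)
    rcases eq_or_lt_of_le h4 with h5 | h5
    · rw [h5]
      exact h2 hx
    · exact h1 _ (gauge_nonneg _) h5 hx

/-- A sum over the union which comes from the first family. -/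
private lemma r13_sum1 {V : Type*} [AddCommMonoid V] {Λ M : Finset ℝ} {ρ : ℝ} (g : ℝ → V)
    (h : ∀ r, r ∉ Λ → g r = 0) :
    ∑ r ∈ Λ ∪ M.image (fun s => ρ * s), g r = ∑ r ∈ Λ, g r := by
  refine (Finset.sum_subset Finset.subset_union_left ?_).symm
  intro r _ hr
  exact h r hr

/-- A sum over the union which comes from the second family. -/
private lemma r13_sum2 {V : Type*} [AddCommMonoid V] {Λ M : Finset ℝ} {ρ : ℝ} (hρ : 0 < ρ)
    (g : ℝ → V) (h : ∀ r, r / ρ ∉ M → g r = 0) :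
    ∑ r ∈ Λ ∪ M.image (fun s => ρ * s), g r = ∑ s ∈ M, g (ρ * s) := by
  rw [← Finset.sum_image (f := g) (g := fun s => ρ * s) (s := M)
    (fun a _ b _ hab => mul_left_cancel₀ hρ.ne' hab)]
  refine (Finset.sum_subset Finset.subset_union_right ?_).symm
  intro r _ hr
  refine h r fun hr' => hr ?_
  refine Finset.mem_image.2 ⟨r / ρ, hr', ?_⟩
  field_simp

private lemma r13_div {ρ : ℝ} (hρ : 0 < ρ) (s : ℝ) : ρ * s / ρ = s := by
  field_simp

/-- The family of the product. -/
private lemma r13_fam {Λ M : Finset ℝ} {π : ℝ → (E N →L[ℝ] E N)} {σ : ℝ → (E d →L[ℝ] E d)}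
    (h : Fam Λ π) (h' : Fam M σ) {ρ : ℝ} (hρ : 0 < ρ) :
    Fam (Λ ∪ M.image (fun s => ρ * s)) (fun r => dia (π r) (σ (r / ρ))) where
  pos := by
    intro r hr
    rcases Finset.mem_union.1 hr with h1 | h1
    · exact h.pos r h1
    · obtain ⟨s, hs, rfl⟩ := Finset.mem_image.1 h1
      exact mul_pos hρ (h'.pos s hs)
  one := by
    intro p
    obtain ⟨x, y, rfl⟩ : ∃ x y, p = app x y := ⟨fst p, snd p, (app_eta p).symm⟩
    simp only [dia_app]
    rw [app_sum, r13_sum1 (fun r => π r x) (fun r hr => by rw [h.out r hr]; rfl),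
      r13_sum2 hρ (fun r => σ (r / ρ) y) (fun r hr => by rw [h'.out _ hr]; rfl), h.one]
    simp only [r13_div hρ]
    rw [h'.one]
  ort := by
    intro r _ s _ hrs p
    obtain ⟨x, y, rfl⟩ : ∃ x y, p = app x y := ⟨fst p, snd p, (app_eta p).symm⟩
    rw [dia_app, dia_app]
    have h1 : π r (π s x) = 0 := by
      by_cases hr : r ∈ Λ
      · by_cases hs : s ∈ Λ
        · exact h.ort r hr s hs hrs x
        · rw [h.out s hs, ContinuousLinearMap.zero_apply, map_zero]
      · rw [h.out r hr, ContinuousLinearMap.zero_apply]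
    have h2 : σ (r / ρ) (σ (s / ρ) y) = 0 := by
      have hne : r / ρ ≠ s / ρ := fun he => hrs ((div_left_inj' hρ.ne').1 he)
      by_cases hr : r / ρ ∈ M
      · by_cases hs : s / ρ ∈ M
        · exact h'.ort _ hr _ hs hne y
        · rw [h'.out _ hs, ContinuousLinearMap.zero_apply, map_zero]
      · rw [h'.out _ hr, ContinuousLinearMap.zero_apply]
    rw [h1, h2, app_zero]
  nz := by
    intro r hr he
    have he' : ∀ x y, app (π r x) (σ (r / ρ) y) = 0 := fun x y => by
      rw [← dia_app, he]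
      rfl
    have he1 : ∀ x, π r x = 0 := fun x => by
      have h3 := he' x 0
      rw [← app_zero] at h3
      exact (app_inj h3).1
    have he2 : ∀ y, σ (r / ρ) y = 0 := fun y => by
      have h3 := he' 0 y
      rw [← app_zero] at h3
      exact (app_inj h3).2
    rcases Finset.mem_union.1 hr with h1 | h1
    · exact h.nz r h1 (ContinuousLinearMap.ext he1)
    · obtain ⟨s, hs, hsr⟩ := Finset.mem_image.1 h1
      refine h'.nz s hs (ContinuousLinearMap.ext fun y => ?_)
      have h3 := he2 y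
      rw [← hsr, r13_div hρ] at h3
      exact h3
  out := by
    intro r hr
    have h1 : r ∉ Λ := fun hc => hr (Finset.mem_union_left _ hc)
    have h2 : r / ρ ∉ M := fun hc => hr (Finset.mem_union_right _
      (Finset.mem_image.2 ⟨r / ρ, hc, by field_simp⟩))
    refine ContinuousLinearMap.ext fun p => ?_
    obtain ⟨x, y, rfl⟩ : ∃ x y, p = app x y := ⟨fst p, snd p, (app_eta p).symm⟩
    rw [dia_app, h.out r h1, h'.out _ h2, ContinuousLinearMap.zero_apply,
      ContinuousLinearMap.zero_apply, app_zero, ContinuousLinearMap.zero_apply]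

/-- The linear map of the product. -/
private lemma r13_op {Λ M : Finset ℝ} {π : ℝ → (E N →L[ℝ] E N)} {σ : ℝ → (E d →L[ℝ] E d)}
    (h : Fam Λ π) (h' : Fam M σ) {ρ : ℝ} (hρ : 0 < ρ) (x : E N) (y : E d) :
    op (Λ ∪ M.image (fun s => ρ * s)) (fun r => dia (π r) (σ (r / ρ))) (app x y) =
      app (op Λ π x) (ρ • op M σ y) := by
  rw [r1_op_apply, r1_op_apply, r1_op_apply]
  simp only [dia_app, app_smul]
  rw [app_sum, r13_sum1 (fun r => r • π r x)
      (fun r hr => by rw [h.out r hr, ContinuousLinearMap.zero_apply, smul_zero]),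
    r13_sum2 hρ (fun r => r • σ (r / ρ) y)
      (fun r hr => by rw [h'.out _ hr, ContinuousLinearMap.zero_apply, smul_zero])]
  simp only [r13_div hρ]
  rw [Finset.smul_sum]
  simp only [smul_smul]

end R13

/-! ROW 13: products. -/
theorem str_prod {N d : ℕ} (hd : 0 < d) {t : ℝ} {K C : Set (E (N + d))} {S T : Set (E d)}
    {a ρ : ℝ} (H : EqB t K C S T a ρ)
    (hK0 : ∀ z, 0 < z → z < a → hol K S 0 ⊆ hol K S z)
    (hC0 : ∀ z, 0 < z → z < a → hol C T 0 ⊆ hol C T (ρ * z)) :
    ∃ Λ π, Str K C Λ π := by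
  have ha := H.a0
  have hρ := H.r0
  obtain ⟨M, σ, hM⟩ := H.stS
  have ha2 : 0 < a / 2 := by linarith
  have ha3 : a / 2 < a := by linarith
  obtain ⟨Λ, π, hΛ⟩ := H.str (a / 2) ha2 ha3
  have eK : hol K S (a / 2) = hol K S 0 :=
    Subset.antisymm (hol_anti H.sS le_rfl ha2.le) (hK0 _ ha2 ha3)
  have eC : hol C T (ρ * (a / 2)) = hol C T 0 :=
    Subset.antisymm (hol_anti H.sT le_rfl (mul_pos hρ ha2).le) (hC0 _ ha2 ha3)
  rw [eK, eC] at hΛ
  have mK := r13_mem H.bK.conv H.bK.comp H.sS H.kS H.mK hK0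
  have mC := r13_mem H.bC.conv H.bC.comp H.sT H.kT H.mC (fun z hz hza => by
    have h1 : z / ρ < a := (div_lt_iff₀ hρ).2 (by linarith)
    have h2 := hC0 (z / ρ) (div_pos hz hρ) h1
    rwa [mul_div_cancel₀ _ hρ.ne'] at h2)
  refine ⟨Λ ∪ M.image (fun s => ρ * s), fun r => dia (π r) (σ (r / ρ)),
    r13_fam hΛ.fam hM.fam hρ, ?_, ?_⟩
  · intro f hf
    have hf' : ∀ r, app (fst (f r)) (snd (f r)) = f r := fun r => app_eta _
    have e1 : ∀ r, dia (π r) (σ (r / ρ)) (f r) =
        app (π r (fst (f r))) (σ (r / ρ) (snd (f r))) := fun r => by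
      conv_lhs => rw [← hf' r]
      rw [dia_app]
    simp only [e1]
    rw [app_sum, r13_sum1 (fun r => π r (fst (f r)))
        (fun r hr => by rw [hΛ.fam.out r hr, ContinuousLinearMap.zero_apply]),
      r13_sum2 hρ (fun r => σ (r / ρ) (snd (f r)))
        (fun r hr => by rw [hM.fam.out _ hr, ContinuousLinearMap.zero_apply])]
    simp only [r13_div hρ]
    rw [mK]
    constructor
    · refine hΛ.clo (fun r => fst (f r)) fun r hr => ?_
      have h1 := hf r (Finset.mem_union_left _ hr)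
      rw [← hf' r, mK] at h1
      exact h1.1
    · refine ⟨∑ s ∈ M, σ s (a⁻¹ • snd (f (ρ * s))), ?_, ?_⟩
      · refine hM.clo (fun s => a⁻¹ • snd (f (ρ * s))) fun s hs => ?_
        have h1 := hf (ρ * s) (Finset.mem_union_right _ (Finset.mem_image.2 ⟨s, hs, rfl⟩))
        rw [← hf' (ρ * s), mK] at h1
        obtain ⟨_, w, hw, hw'⟩ := h1
        rw [hw', smul_smul, inv_mul_cancel₀ ha.ne', one_smul]
        exact hw
      · rw [Finset.smul_sum]
        refine Finset.sum_congr rfl fun s _ => ?_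
        rw [map_smul, smul_smul, mul_inv_cancel₀ ha.ne', one_smul]
  · ext p
    obtain ⟨x, y, rfl⟩ : ∃ x y, p = app x y := ⟨fst p, snd p, (app_eta p).symm⟩
    rw [mC]
    constructor
    · rintro ⟨hx, s, hs, rfl⟩
      rw [hΛ.img] at hx
      rw [hM.img] at hs
      obtain ⟨x', hx', rfl⟩ := hx
      obtain ⟨s', hs', rfl⟩ := hs
      refine ⟨app x' (a • s'), (mK _ _).2 ⟨hx', s', hs', rfl⟩, ?_⟩
      rw [r13_op hΛ.fam hM.fam hρ, map_smul, smul_smul]
    · rintro ⟨q, hq, he⟩
      obtain ⟨x', y', rfl⟩ : ∃ x y, q = app x y := ⟨fst q, snd q, (app_eta q).symm⟩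
      rw [r13_op hΛ.fam hM.fam hρ] at he
      obtain ⟨h1, h2⟩ := app_inj he
      obtain ⟨h3, s, hs, rfl⟩ := (mK _ _).1 hq
      refine ⟨?_, op M σ s, ?_, ?_⟩
      · rw [hΛ.img, ← h1]
        exact mem_image_of_mem _ h3
      · rw [hM.img]
        exact mem_image_of_mem _ hs
      · rw [← h2, map_smul, smul_smul]

end Pool.Agent.Lib.MP_1dedaf_gt.BL

/-!
# MP_1dedaf_gt, BL, row 14: assembly
-/

set_option autoImplicit false

open MeasureTheory Set Filter Topology
open scoped ENNReal NNReal Pointwise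

namespace Pool.Agent.Lib.MP_1dedaf_gt.BL

open Pool.Agent.Lib.MP_1dedaf_gt.SC
open Pool.Agent.Lib.MP_1dedaf_gt.EG

/-- A sum of points of the parts. -/
lemma r14_sumA {n : ℕ} {A B : Set (E n)} {Λ : Finset ℝ} {π : ℝ → (E n →L[ℝ] E n)}
    (h : Str A B Λ π) {x : E n} (hx : ∀ r ∈ Λ, π r x ∈ A) : x ∈ A := by
  have h1 := h.clo (fun r => π r x) hx
  have h2 : ∑ r ∈ Λ, π r (π r x) = x :=
    (Finset.sum_congr rfl fun r hr => h.fam.idem hr x).trans (h.fam.one x)
  rwa [h2] at h1

lemma r14_sumB {n : ℕ} {A B : Set (E n)} {Λ : Finset ℝ} {π : ℝ → (E n →L[ℝ] E n)}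
    (h : Str A B Λ π) {x : E n} (hx : ∀ r ∈ Λ, π r x ∈ B) : x ∈ B := by
  have h1 : r11_T Λ π x ∈ A := by
    apply r14_sumA h
    intro r hr
    have h2 : r11_T Λ π (π r x) ∈ A := r11_T_mem h (hx r hr)
    have h3 : π r (r11_T Λ π x) = r11_T Λ π (π r x) := by
      unfold r11_T
      rw [map_sum]
      apply Finset.sum_congr rfl
      intro s hs
      rw [map_smul]
      congr 1
      by_cases hrs : r = s
      · rw [hrs]
      · rw [h.fam.ort r hr s hs hrs, h.fam.ort s hs r hr (Ne.symm hrs)]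
    rw [h3]
    exact h2
  rw [← r11_op_T h.fam x]
  exact r11_op_mem h h1

/-- ROW 14. -/
theorem str_of_eqB {N d : ℕ} (hd : 0 < d) {t : ℝ} {K C : Set (E (N + d))} {S T : Set (E d)}
    {a ρ : ℝ} (H : EqB t K C S T a ρ) : ∃ Λ π, Str K C Λ π := by
  classical
  obtain ⟨M, σ, hM⟩ := H.stS
  have hne : M.Nonempty := by
    rw [Finset.nonempty_iff_ne_empty]
    intro h0
    have h1 := hM.fam.one (EuclideanSpace.single ⟨0, hd⟩ 1)
    rw [h0, Finset.sum_empty] at h1
    have h2 := congrArg (fun v : E d => v ⟨0, hd⟩) h1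
    simp at h2
  by_cases hcard : ∃ l, M = {l}
  · obtain ⟨l, hl⟩ := hcard
    have hl0 : 0 < l := hM.fam.pos l (by rw [hl]; exact Finset.mem_singleton_self l)
    have hT : T = l • S := by
      rw [hM.img, ← image_smul]
      apply image_congr
      intro x _
      rw [r11_op, hl, Finset.sum_singleton]
      have h1 := hM.fam.one x
      rw [hl, Finset.sum_singleton] at h1
      rw [h1]
    have hBC : Blk C S := by
      intro x y y' hg h
      apply H.kT x y y' ?_ h
      rw [hT, gauge_smul_left_of_nonneg hl0.le]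
      simp only [Pi.smul_apply, hg]
    have H' := eqS_of_eqB hd H hl0 hT
    obtain ⟨Λ, π, h⟩ := glob H'
    exact lift_block hd H.bK H.bC H.sS H.kS hBC H' h
  · have hr : ∀ r : ℝ, ∃ s ∈ M, r ≠ ρ * s := by
      intro r
      obtain ⟨l, hl⟩ := hne
      by_contra hcon
      push Not at hcon
      apply hcard
      refine ⟨l, ?_⟩
      ext s
      rw [Finset.mem_singleton]
      constructor
      · intro hs
        have h1 := hcon s hs
        have h2 := hcon l hl
        have h3 : ρ * s = ρ * l := by rw [← h1, ← h2]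
        exact mul_left_cancel₀ H.r0.ne' h3
      · rintro rfl
        exact hl
    apply str_prod hd H
    · intro z hz hza x hx
      obtain ⟨Λ, π, h⟩ := H.str z hz hza
      apply r14_sumA h
      intro r hrΛ
      obtain ⟨s, hs, hne⟩ := hr r
      exact (flemB hd H hz hza h hM hrΛ hs hne).1 x hx
    · intro z hz hza x hx
      obtain ⟨Λ, π, h⟩ := H.str z hz hza
      apply r14_sumB h
      intro r hrΛ
      obtain ⟨s, hs, hne⟩ := hr r
      exact (flemB hd H hz hza h hM hrΛ hs hne).2 x hx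

theorem thm_XB {N d : ℕ} (hd : 0 < d) {X : Set (E N) → Prop} {Y : Set (E d) → Prop}
    (hX : Thm X) (hY : Thm Y) : Thm (XB X Y) :=
  ⟨fun _ h => h.1, fun _ h => cent_XB hd hX hY h,
    fun _ ht0 ht1 _ _ hK hC => ineq_XB hd hX hY ht0 ht1 hK hC,
    fun _ ht0 ht1 _ _ hK hC heq => by
      obtain ⟨S, T, a, ρ, H⟩ := eqB_of hd hX hY ht0 ht1 hK hC heq
      exact str_of_eqB hd H⟩

end Pool.Agent.Lib.MP_1dedaf_gt.BL
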