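import Pool.Agent.Lib.MP_1dedaf_gt.BL.A
import Pool.Agent.Lib.MP_1dedaf_gt.ED.D
import Pool.Agent.Lib.MP_1dedaf_gt.BL.B
import Pool.Agent.Lib.MP_1dedaf_gt.BL.C

/-!
# MP_1dedaf_gt, BL, row 15: the leaves
-/

set_option autoImplicit false

open MeasureTheory Set Filter Topology
open scoped ENNReal NNReal Pointwise

namespace Pool.Agent.Lib.MP_1dedaf_gt.BL

open Pool.Agent.Lib.MP_1dedaf_gt.SC
open Pool.Agent.Lib.MP_1dedaf_gt.EG

/-- A centered planar body as a body without mirrors. -/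
lemma r15_good {K : Set (E 2)} (hK : Body K) (h0 : ∫ x in K, x = 0) :
    Good 0 (K : Set (E (2 + 0))) := by
  refine ⟨hK.conv, hK.comp, fun _ _ j => j.elim0, fun y => ?_⟩
  rw [section_zero]
  exact h0

lemma r15_vol {n : ℕ} {K : Set (E n)} (hK : Body K) : volume K ≠ 0 :=
  ((isOpen_interior.measure_pos volume hK.int).trans_le (measure_mono interior_subset)).ne'

theorem thm_pl : Thm (fun K : Set (E 2) => Body K ∧ ∫ x in K, x = 0) := by
  refine ⟨fun K hK => hK.1, fun K hK => hK.2, ?_, ?_⟩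
  · intro t ht0 ht1 K C hK hC
    exact all_k SC.base 0 t ht0 ht1 K C (r15_good hK.1 hK.2) (r15_good hC.1 hC.2)
  · intro t ht0 ht1 K C hK hC heq
    exact EG.base t ht0 ht1 K C (r15_good hK.1 hK.2) (r15_good hC.1 hC.2) (r15_vol hK.1)
      (r15_vol hC.1) heq

/-- Two homothetic bodies. -/
lemma r15_dilate {K C : Set (E 1)} {r : ℝ} (hr : 0 < r) (h : C = r • K) :
    ∃ (Λ : Finset ℝ) (π : ℝ → (E 1 →L[ℝ] E 1)), Str K C Λ π := by
  classical
  refine ⟨{r}, fun s => if s = r then ContinuousLinearMap.id ℝ (E 1) else 0, ?_, ?_, ?_⟩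
  · refine ⟨?_, ?_, ?_, ?_, ?_⟩
    · intro s hs
      rw [Finset.mem_singleton.1 hs]
      exact hr
    · intro x
      rw [Finset.sum_singleton, if_pos rfl]
      rfl
    · intro s hs s' hs' hne
      exact absurd ((Finset.mem_singleton.1 hs).trans (Finset.mem_singleton.1 hs').symm) hne
    · intro s hs
      rw [if_pos (Finset.mem_singleton.1 hs)]
      intro h0
      obtain ⟨x, hx⟩ := exists_ne (0 : E 1)
      apply hx
      have h1 := congrArg (fun T : E 1 →L[ℝ] E 1 => T x) h0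
      exact h1
    · intro s hs
      exact if_neg fun h' => hs (Finset.mem_singleton.2 h')
  · intro f hf
    rw [Finset.sum_singleton, if_pos rfl]
    exact hf r (Finset.mem_singleton_self r)
  · rw [h]
    have h1 : op {r} (fun s => if s = r then ContinuousLinearMap.id ℝ (E 1) else 0) =
        r • ContinuousLinearMap.id ℝ (E 1) := by
      unfold op
      rw [Finset.sum_singleton]
      show r • (if r = r then ContinuousLinearMap.id ℝ (E 1) else 0) = _
      rw [if_pos rfl]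
    rw [h1]
    ext x
    rw [Set.mem_smul_set, Set.mem_image]
    rfl

/-- The point of the line. -/
noncomputable def r15_p (z : ℝ) : E 1 := WithLp.toLp 2 (fun _ => z)

lemma r15_p_apply (z : ℝ) (i : Fin 1) : r15_p z i = z := rfl

lemma r15_p_eta (x : E 1) : r15_p (x 0) = x := by
  ext i
  rw [r15_p_apply, Subsingleton.elim i 0]

lemma r15_inner (x u : E 1) : (inner ℝ x u : ℝ) = x 0 * u 0 := by
  rw [inner_eq, Fin.sum_univ_one]

/-- The interval. -/
def r15_I (a : ℝ) : Set (E 1) := {x | |x 0| ≤ a}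

lemma r15_form {K : Set (E 1)} (hK : Body K) (hs : ∀ x ∈ K, -x ∈ K) :
    ∃ a : ℝ, 0 < a ∧ K = r15_I a := by
  obtain ⟨x0, hx0⟩ := hK.int
  have hc : Continuous fun x : E 1 => |x 0| :=
    continuous_abs.comp ((continuous_apply 0).comp (PiLp.continuous_ofLp 2 _))
  obtain ⟨m, hm, hmax⟩ := hK.comp.exists_isMaxOn ⟨x0, interior_subset hx0⟩ hc.continuousOn
  have hsub : K ⊆ r15_I |m 0| := fun x hx => hmax hx
  have hpos : 0 < |m 0| := by
    rcases eq_or_lt_of_le (abs_nonneg (m 0)) with h | h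
    · exfalso
      have h1 : K ⊆ {0} := by
        intro x hx
        have h2 : |x 0| ≤ |m 0| := hsub hx
        rw [← h] at h2
        have h3 : x 0 = 0 := abs_nonpos_iff.1 h2
        rw [mem_singleton_iff]
        ext i
        rw [Subsingleton.elim i 0, h3]
        rfl
      have h2 : interior K ⊆ interior {(0 : E 1)} := interior_mono h1
      rw [interior_singleton] at h2
      exact h2 hx0
    · exact h
  refine ⟨|m 0|, hpos, Subset.antisymm hsub ?_⟩
  intro x hx
  have hx' : |x 0| ≤ |m 0| := hx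
  have hm' : -m ∈ K := hs m hm
  have hm0 : m 0 ≠ 0 := abs_pos.1 hpos
  set l := x 0 / m 0 with hl
  have h1 : |l| ≤ 1 := by
    rw [hl, abs_div, div_le_one hpos]
    exact hx'
  obtain ⟨h2, h3⟩ := abs_le.1 h1
  have h4 := hK.conv hm hm' (a := (1 + l) / 2) (b := (1 - l) / 2) (by linarith) (by linarith)
    (by ring)
  have h5 : ((1 + l) / 2) • m + ((1 - l) / 2) • (-m) = x := by
    ext i
    rw [Subsingleton.elim i 0]
    show (1 + l) / 2 * m 0 + (1 - l) / 2 * (-m 0) = x 0
    have h6 : l * m 0 = x 0 := div_mul_cancel₀ _ hm0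
    linarith
  rwa [h5] at h4

lemma r15_supp {a : ℝ} (ha : 0 ≤ a) (u : E 1) : supp (r15_I a) u = a * |u 0| := by
  unfold supp
  have hmax : ∀ y ∈ r15_I a, (inner ℝ y u : ℝ) ≤ a * |u 0| := by
    intro y hy
    rw [r15_inner]
    have hy' : |y 0| ≤ a := hy
    calc y 0 * u 0 ≤ |y 0 * u 0| := le_abs_self _
      _ = |y 0| * |u 0| := abs_mul _ _
      _ ≤ a * |u 0| := mul_le_mul_of_nonneg_right hy' (abs_nonneg _)
  apply le_antisymm
  · apply csSup_le
    · exact ⟨_, ⟨r15_p 0, by show |(0 : ℝ)| ≤ a; simpa using ha, rfl⟩⟩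
    · rintro _ ⟨y, hy, rfl⟩
      exact hmax y hy
  · have hbdd : BddAbove ((fun y : E 1 => (inner ℝ y u : ℝ)) '' r15_I a) := by
      refine ⟨a * |u 0|, ?_⟩
      rintro _ ⟨y, hy, rfl⟩
      exact hmax y hy
    rcases le_total 0 (u 0) with h | h
    · have h1 : (inner ℝ (r15_p a) u : ℝ) = a * |u 0| := by
        rw [r15_inner, r15_p_apply, abs_of_nonneg h]
      rw [← h1]
      apply le_csSup hbdd
      exact ⟨r15_p a, by show |a| ≤ a; rw [abs_of_nonneg ha], rfl⟩
    · have h1 : (inner ℝ (r15_p (-a)) u : ℝ) = a * |u 0| := by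
        rw [r15_inner, r15_p_apply, abs_of_nonpos h]
        ring
      rw [← h1]
      apply le_csSup hbdd
      exact ⟨r15_p (-a), by show |-a| ≤ a; rw [abs_neg, abs_of_nonneg ha], rfl⟩

lemma r15_logC {t a b : ℝ} (ha : 0 < a) (hb : 0 < b) :
    logC t (r15_I a) (r15_I b) = r15_I (a ^ (1 - t) * b ^ t) := by
  have hn : ∀ u : E 1, ‖u‖ = 1 → |u 0| = 1 := by
    intro u hu
    have h1 : ‖u‖ ^ 2 = u 0 * u 0 := by
      rw [← real_inner_self_eq_norm_sq, r15_inner]
    rw [hu] at h1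
    have h2 : |u 0| ^ 2 = 1 := by
      rw [sq_abs]
      nlinarith
    nlinarith [abs_nonneg (u 0)]
  have hp : ∀ z : ℝ, |z| = 1 → ‖r15_p z‖ = 1 := by
    intro z hz
    have h1 : ‖r15_p z‖ ^ 2 = 1 := by
      rw [← real_inner_self_eq_norm_sq, r15_inner, r15_p_apply, ← abs_mul_abs_self, hz, one_mul]
    nlinarith [norm_nonneg (r15_p z)]
  ext x
  constructor
  · intro hx
    have h1 := hx (r15_p 1) (hp 1 abs_one)
    have h2 := hx (r15_p (-1)) (hp (-1) (by simp))
    rw [r15_supp ha.le, r15_supp hb.le, r15_inner, r15_p_apply] at h1 h2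
    rw [abs_one, mul_one, mul_one, mul_one] at h1
    rw [abs_neg, abs_one, mul_one, mul_one, mul_neg_one] at h2
    show |x 0| ≤ _
    rw [abs_le]
    constructor
    · linarith
    · exact h1
  · intro hx u hu
    have hx' : |x 0| ≤ a ^ (1 - t) * b ^ t := hx
    rw [r15_supp ha.le, r15_supp hb.le, hn u hu, mul_one, mul_one, r15_inner]
    calc x 0 * u 0 ≤ |x 0 * u 0| := le_abs_self _
      _ = |x 0| := by rw [abs_mul, hn u hu, mul_one]
      _ ≤ _ := hx'

lemma r15_smul {a r : ℝ} (hr : 0 < r) : r15_I (r * a) = r • r15_I a := by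
  ext x
  rw [Set.mem_smul_set]
  constructor
  · intro hx
    have hx' : |x 0| ≤ r * a := hx
    refine ⟨r⁻¹ • x, ?_, ?_⟩
    · show |r⁻¹ * x 0| ≤ a
      rw [abs_mul, abs_of_pos (inv_pos.2 hr), inv_mul_le_iff₀ hr]
      exact hx'
    · rw [smul_smul, mul_inv_cancel₀ hr.ne', one_smul]
  · rintro ⟨y, hy, rfl⟩
    have hy' : |y 0| ≤ a := hy
    show |r * y 0| ≤ r * a
    rw [abs_mul, abs_of_pos hr]
    exact mul_le_mul_of_nonneg_left hy' hr.le

lemma r15_volI {a : ℝ} (ha : 0 < a) :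
    volume (r15_I a) = ENNReal.ofReal a * volume (r15_I 1) := by
  have h1 : r15_I a = a • r15_I 1 := by
    rw [← r15_smul ha, mul_one]
  rw [h1, Measure.addHaar_smul]
  have h2 : Module.finrank ℝ (E 1) = 1 := by
    rw [finrank_euclideanSpace, Fintype.card_fin]
  rw [h2, pow_one, abs_of_pos ha]

theorem thm_seg : Thm (fun K : Set (E 1) => Body K ∧ ∀ x ∈ K, -x ∈ K) := by
  have key : ∀ t : ℝ, 0 < t → t < 1 → ∀ a b : ℝ, 0 < a → 0 < b →
      volume (r15_I a) ^ (1 - t) * volume (r15_I b) ^ t = volume (logC t (r15_I a) (r15_I b)) := by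
    intro t ht0 ht1 a b ha hb
    have hs0 : 0 < 1 - t := by linarith
    have hab : 0 < a ^ (1 - t) * b ^ t := mul_pos (Real.rpow_pos_of_pos ha _)
      (Real.rpow_pos_of_pos hb _)
    rw [r15_logC ha hb, r15_volI ha, r15_volI hb, r15_volI hab,
      ENNReal.mul_rpow_of_nonneg _ _ hs0.le, ENNReal.mul_rpow_of_nonneg _ _ ht0.le,
      ENNReal.ofReal_mul (Real.rpow_pos_of_pos ha _).le,
      ENNReal.ofReal_rpow_of_pos ha, ENNReal.ofReal_rpow_of_pos hb]
    have h1 : volume (r15_I 1) ≠ 0 := by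
      have h2 : (interior (r15_I 1)).Nonempty := by
        refine ⟨0, ?_⟩
        rw [mem_interior]
        refine ⟨{x | |x 0| < 1}, fun x hx => (le_of_lt hx : |x 0| ≤ 1), ?_, ?_⟩
        · exact isOpen_lt (continuous_abs.comp ((continuous_apply 0).comp
            (PiLp.continuous_ofLp 2 _))) continuous_const
        · show |(0 : ℝ)| < 1
          simp
      exact ((isOpen_interior.measure_pos volume h2).trans_le
        (measure_mono interior_subset)).ne'
    have h3 : volume (r15_I 1) ≠ ∞ := by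
      have h4 : r15_I 1 ⊆ Metric.closedBall (0 : E 1) 1 := by
        intro x hx
        have hx' : |x 0| ≤ 1 := hx
        rw [mem_closedBall_zero_iff]
        have h5 : ‖x‖ ^ 2 ≤ 1 := by
          rw [← real_inner_self_eq_norm_sq, r15_inner, ← abs_mul_abs_self]
          nlinarith [abs_nonneg (x 0)]
        nlinarith [norm_nonneg x]
      exact ((measure_mono h4).trans_lt measure_closedBall_lt_top).ne
    calc ENNReal.ofReal (a ^ (1 - t)) * volume (r15_I 1) ^ (1 - t) *
          (ENNReal.ofReal (b ^ t) * volume (r15_I 1) ^ t)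
        = ENNReal.ofReal (a ^ (1 - t)) * ENNReal.ofReal (b ^ t) *
          (volume (r15_I 1) ^ (1 - t) * volume (r15_I 1) ^ t) := by ring
      _ = _ := by
        rw [← ENNReal.rpow_add _ _ h1 h3]
        simp
  refine ⟨fun K hK => hK.1, ?_, ?_, ?_⟩
  · intro K hK
    obtain ⟨a, ha, rfl⟩ := r15_form hK.1 hK.2
    have hm : MeasurableSet (r15_I a) := hK.1.comp.measurableSet
    rw [← integral_indicator hm]
    set f : E 1 → E 1 := (r15_I a).indicator fun x => x with hf
    have h1 : ∀ x, f (-x) = -f x := by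
      intro x
      rw [hf]
      by_cases hx : x ∈ r15_I a
      · rw [indicator_of_mem hx, indicator_of_mem (hK.2 x hx)]
      · have hx' : -x ∉ r15_I a := fun h => hx (by simpa using hK.2 _ h)
        rw [indicator_of_notMem hx, indicator_of_notMem hx', neg_zero]
    have h2 := integral_neg_eq_self f (volume : Measure (E 1))
    have h3 : ∫ x, f (-x) = -∫ x, f x := by
      rw [← integral_neg]
      exact integral_congr_ae (Eventually.of_forall h1)
    rw [h3] at h2
    have h4 : (2 : ℝ) • ∫ x, f x = 0 := by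
      rw [two_smul]
      nth_rewrite 1 [← h2]
      exact neg_add_cancel _
    exact (smul_eq_zero.1 h4).resolve_left two_ne_zero
  · intro t ht0 ht1 K C hK hC
    obtain ⟨a, ha, rfl⟩ := r15_form hK.1 hK.2
    obtain ⟨b, hb, rfl⟩ := r15_form hC.1 hC.2
    exact (key t ht0 ht1 a b ha hb).le
  · intro t ht0 ht1 K C hK hC _
    obtain ⟨a, ha, rfl⟩ := r15_form hK.1 hK.2
    obtain ⟨b, hb, rfl⟩ := r15_form hC.1 hC.2
    apply r15_dilate (r := b / a) (div_pos hb ha)
    rw [← r15_smul (div_pos hb ha), div_mul_cancel₀ _ ha.ne']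

end Pool.Agent.Lib.MP_1dedaf_gt.BL

/-!
# MP_1dedaf_gt, BL: row 15, linear maps
-/

set_option autoImplicit false

open MeasureTheory Set Filter Topology
open scoped ENNReal NNReal Pointwise

namespace Pool.Agent.Lib.MP_1dedaf_gt.BL

open Pool.Agent.Lib.MP_1dedaf_gt.SC
open Pool.Agent.Lib.MP_1dedaf_gt.EG

private lemma r15c_logC_sub {n : ℕ} {t : ℝ} (P : E n ≃L[ℝ] E n) {K C : Set (E n)}
    (hK : IsCompact K) (hC : IsCompact C) (h0 : (0 : E n) ∈ K) (h0' : (0 : E n) ∈ C) :
    logC t (P '' K) (P '' C) ⊆ P '' (logC t K C) := by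
  intro y hy
  refine ⟨P.symm y, ?_, P.apply_symm_apply y⟩
  intro u _
  have h1 := logC_all (hK.image P.continuous) (hC.image P.continuous) ⟨0, h0, map_zero P⟩
    ⟨0, h0', map_zero P⟩ hy (ContinuousLinearMap.adjoint (P.symm : E n →L[ℝ] E n) u)
  rw [supp_image, supp_image, ContinuousLinearMap.adjoint_inner_right] at h1
  exact h1

/-- The centroid of a body is one of its points. -/
private lemma r15c_zero {n : ℕ} {K : Set (E n)} (hK : Body K) (h0 : ∫ x in K, x = 0) :
    (0 : E n) ∈ K := by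
  have hv : volume K ≠ 0 :=
    ((isOpen_interior.measure_pos volume hK.int).trans_le (measure_mono interior_subset)).ne'
  have hf : volume K ≠ ∞ := hK.comp.measure_lt_top.ne
  have h1 : (⨍ x in K, x) ∈ K := by
    refine Convex.set_average_mem hK.conv hK.comp.isClosed hv hf ?_ ?_
    · exact ae_restrict_mem hK.comp.measurableSet
    · exact (continuous_id.continuousOn).integrableOn_compact hK.comp
  rwa [setAverage_eq, h0, smul_zero] at h1

private lemma r15c_body {n : ℕ} (P : E n ≃L[ℝ] E n) {K : Set (E n)} (h : Body (P '' K)) :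
    Body K := by
  have hK : K = P.symm '' (P '' K) := by
    rw [image_image]
    simp
  rw [hK]
  refine ⟨h.conv.linear_image P.symm.toLinearMap, h.comp.image P.symm.continuous, ?_⟩
  obtain ⟨x, hx⟩ := h.int
  refine ⟨P.symm x, ?_⟩
  have h1 := P.symm.toHomeomorph.image_interior (P '' K)
  have h2 : P.symm x ∈ P.symm.toHomeomorph '' interior (P '' K) := ⟨x, hx, rfl⟩
  rw [h1] at h2
  exact h2

/-- The structure is linearly invariant. -/
private lemma r15c_str {n : ℕ} (P : E n ≃L[ℝ] E n) {K C : Set (E n)} {Λ : Finset ℝ}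
    {π : ℝ → (E n →L[ℝ] E n)} (h : Str (P '' K) (P '' C) Λ π) :
    Str K C Λ fun r => (P.symm : E n →L[ℝ] E n).comp ((π r).comp (P : E n →L[ℝ] E n)) := by
  refine ⟨⟨h.fam.pos, ?_, ?_, ?_, ?_⟩, ?_, ?_⟩
  · intro x
    simp only [ContinuousLinearMap.comp_apply, ContinuousLinearEquiv.coe_coe]
    rw [← map_sum, h.fam.one, P.symm_apply_apply]
  · intro r hr s hs hrs x
    simp only [ContinuousLinearMap.comp_apply, ContinuousLinearEquiv.coe_coe]
    rw [P.apply_symm_apply, h.fam.ort r hr s hs hrs, map_zero]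
  · intro r hr h0
    apply h.fam.nz r hr
    ext1 x
    have h1 := congrArg (fun T : E n →L[ℝ] E n => T (P.symm x)) h0
    simp only [ContinuousLinearMap.comp_apply, ContinuousLinearEquiv.coe_coe,
      P.apply_symm_apply, ContinuousLinearMap.zero_apply] at h1
    rw [ContinuousLinearMap.zero_apply]
    apply P.symm.injective
    rw [h1, map_zero]
  · intro r hr
    ext1 x
    simp only [ContinuousLinearMap.comp_apply, h.fam.out r hr, ContinuousLinearMap.zero_apply,
      map_zero]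
  · intro f hf
    simp only [ContinuousLinearMap.comp_apply, ContinuousLinearEquiv.coe_coe]
    rw [← map_sum]
    obtain ⟨y, hy, hyP⟩ := h.clo (fun r => P (f r)) fun r hr => ⟨f r, hf r hr, rfl⟩
    rw [← hyP, P.symm_apply_apply]
    exact hy
  · have h1 : C = P.symm '' (P '' C) := by
      rw [image_image]
      simp
    rw [h1, h.img, image_image, image_image]
    apply image_congr
    intro x _
    unfold op
    simp only [ContinuousLinearMap.sum_apply, ContinuousLinearMap.smul_apply,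
      ContinuousLinearMap.comp_apply, ContinuousLinearEquiv.coe_coe]
    rw [map_sum]
    simp only [map_smul]

theorem thm_lin {n : ℕ} {X : Set (E n) → Prop} (h : Thm X) (P : E n ≃L[ℝ] E n) :
    Thm (fun K => X (P '' K)) := by
  have hb : ∀ K, X (P '' K) → Body K := fun K hK => r15c_body P (h.body _ hK)
  have hc : ∀ K, X (P '' K) → ∫ x in K, x = 0 := fun K hK =>
    lin_centroid P (hb K hK).comp (h.cent _ hK)
  have hz : ∀ K, X (P '' K) → (0 : E n) ∈ K := fun K hK => r15c_zero (hb K hK) (hc K hK)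
  refine ⟨hb, hc, ?_, ?_⟩
  · intro t ht0 ht1 K C hK hC
    exact lin ht0 ht1 P (hb K hK).comp (hb C hC).comp (hz K hK) (hz C hC)
      (h.ineq t ht0 ht1 _ _ hK hC)
  · intro t ht0 ht1 K C hK hC heq
    have hs0 : 0 < 1 - t := by linarith
    obtain ⟨D, hD0, hDt, hDv⟩ : ∃ D : ℝ≥0∞, D ≠ 0 ∧ D ≠ ∞ ∧ ∀ S : Set (E n),
        volume (P '' S) = D * volume S := by
      refine ⟨ENNReal.ofReal |(P : E n →L[ℝ] E n).det|, ?_, ENNReal.ofReal_ne_top,
        fun S => Measure.addHaar_image_continuousLinearEquiv _ P S⟩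
      have h3 : (P : E n →L[ℝ] E n).det ≠ 0 := (P.toLinearEquiv.isUnit_det').ne_zero
      intro h4
      rw [ENNReal.ofReal_eq_zero] at h4
      exact h3 (abs_eq_zero.1 (le_antisymm h4 (abs_nonneg _)))
    have h4 : D ^ (1 - t) * D ^ t = D := by
      rw [← ENNReal.rpow_add _ _ hD0 hDt]
      simp
    have h5 : volume (P '' K) ^ (1 - t) * volume (P '' C) ^ t =
        D * (volume K ^ (1 - t) * volume C ^ t) := by
      rw [hDv, hDv, ENNReal.mul_rpow_of_nonneg _ _ hs0.le, ENNReal.mul_rpow_of_nonneg _ _ ht0.le]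
      calc D ^ (1 - t) * volume K ^ (1 - t) * (D ^ t * volume C ^ t)
          = (D ^ (1 - t) * D ^ t) * (volume K ^ (1 - t) * volume C ^ t) := by ring
        _ = _ := by rw [h4]
    have h6 : volume (logC t (P '' K) (P '' C)) =
        volume (P '' K) ^ (1 - t) * volume (P '' C) ^ t := by
      apply le_antisymm
      · rw [h5, ← heq, ← hDv]
        exact measure_mono (r15c_logC_sub P (hb K hK).comp (hb C hC).comp (hz K hK) (hz C hC))
      · exact h.ineq t ht0 ht1 _ _ hK hC
    obtain ⟨Λ, π, H⟩ := h.str t ht0 ht1 _ _ hK hC h6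
    exact ⟨Λ, _, r15c_str P H⟩

end Pool.Agent.Lib.MP_1dedaf_gt.BL

/-!
# MP_1dedaf_gt, BL, row 17a: unconditional sums
-/

set_option autoImplicit false

open MeasureTheory Set Filter Topology
open scoped ENNReal NNReal Pointwise

namespace Pool.Agent.Lib.MP_1dedaf_gt.BL

open Pool.Agent.Lib.MP_1dedaf_gt.SC
open Pool.Agent.Lib.MP_1dedaf_gt.EG

/-- The unconditional sum `U[K₁, K₂]`. -/
def usum {N d : ℕ} (U : Set (E 2)) (K₁ : Set (E N)) (K₂ : Set (E d)) : Set (E (N + d)) :=
  {p | !₂[gauge K₁ (fst p), gauge K₂ (snd p)] ∈ U}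

/-- `U` is unconditional. -/
def Unc (U : Set (E 2)) : Prop := ∀ a b : ℝ, !₂[a, b] ∈ U → !₂[-a, b] ∈ U ∧ !₂[a, -b] ∈ U

section R17

lemma q17_nhds {n : ℕ} {S : Set (E n)} (hS : Sh S) : S ∈ 𝓝 (0 : E n) :=
  mem_interior_iff_mem_nhds.1 hS.zero

lemma q17_cont {n : ℕ} {S : Set (E n)} (hS : Sh S) : Continuous (gauge S) :=
  continuous_gauge hS.conv (q17_nhds hS)

lemma q17_le {n : ℕ} {S : Set (E n)} (hS : Sh S) {r : ℝ} (hr : 0 < r) :
    {y : E n | gauge S y ≤ r} = r • S := by
  ext y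
  rw [mem_smul_set_iff_inv_smul_mem₀ hr.ne', mem_ofPred_eq]
  have h1 : gauge S (r⁻¹ • y) = r⁻¹ * gauge S y := by
    rw [gauge_smul_of_nonneg (inv_nonneg.2 hr.le), smul_eq_mul]
  have h2 := gauge_le_one_iff_mem_closure (x := r⁻¹ • y) hS.conv (q17_nhds hS)
  rw [hS.comp.isClosed.closure_eq, h1] at h2
  rw [← h2, inv_mul_le_iff₀ hr, mul_one]

lemma q17_eq_zero {n : ℕ} {S : Set (E n)} (hS : Sh S) {y : E n} : gauge S y = 0 ↔ y = 0 :=
  gauge_eq_zero (absorbent_nhds_zero (q17_nhds hS))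
    ((NormedSpace.isVonNBounded_iff ℝ).2 hS.comp.isBounded)

/-- The set of points with gauge at most `r` is bounded. -/
lemma q17_bdd {n : ℕ} {S : Set (E n)} (hS : Sh S) (r : ℝ) :
    ∃ R : ℝ, ∀ y : E n, gauge S y ≤ r → ‖y‖ ≤ R := by
  have h1 : Bornology.IsBounded ((max r 1) • S) := hS.comp.isBounded.smul₀ _
  obtain ⟨R, hR⟩ := h1.exists_norm_le
  refine ⟨R, fun y hy => hR y ?_⟩
  rw [← q17_le hS (lt_max_of_lt_right one_pos)]
  exact le_trans hy (le_max_left _ _)

/-- Convex combinations of points given by coordinates. -/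
lemma q17_comb {U : Set (E 2)} (hU : Convex ℝ U) {a b a' b' c c' : ℝ} (h : !₂[a, b] ∈ U)
    (h' : !₂[a', b'] ∈ U) (hc : 0 ≤ c) (hc' : 0 ≤ c') (h1 : c + c' = 1) :
    !₂[c * a + c' * a', c * b + c' * b'] ∈ U := by
  have h2 := hU h h' hc hc' h1
  have h3 : c • (!₂[a, b] : E 2) + c' • (!₂[a', b'] : E 2) =
      !₂[c * a + c' * a', c * b + c' * b'] := by
    ext i
    fin_cases i <;> simp
  rwa [h3] at h2

/-- Monotonicity of unconditional sets. -/
lemma q17_mono {U : Set (E 2)} (hU : Convex ℝ U) (unc : Unc U) {a b a' b' : ℝ}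
    (h : !₂[a, b] ∈ U) (ha : |a'| ≤ a) (hb : |b'| ≤ b) : !₂[a', b'] ∈ U := by
  have key : ∀ {a b a' : ℝ}, !₂[a, b] ∈ U → |a'| ≤ a → !₂[a', b] ∈ U := by
    intro a b a' h ha
    rcases eq_or_lt_of_le (le_trans (abs_nonneg _) ha) with h0 | h0
    · have : a' = a := by
        rw [← h0] at ha ⊢
        exact abs_nonpos_iff.1 ha
      rwa [this]
    · have h1 := abs_le.1 ha
      have h2 := q17_comb hU h (unc a b h).1 (c := (a + a') / (2 * a)) (c' := (a - a') / (2 * a))
        (div_nonneg (by linarith) (by linarith)) (div_nonneg (by linarith) (by linarith))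
        (by field_simp; ring)
      have h3 : (a + a') / (2 * a) * a + (a - a') / (2 * a) * -a = a' := by field_simp; ring
      have h4 : (a + a') / (2 * a) * b + (a - a') / (2 * a) * b = b := by field_simp; ring
      rwa [h3, h4] at h2
  have key' : ∀ {a b b' : ℝ}, !₂[a, b] ∈ U → |b'| ≤ b → !₂[a, b'] ∈ U := by
    intro a b b' h hb
    rcases eq_or_lt_of_le (le_trans (abs_nonneg _) hb) with h0 | h0
    · have : b' = b := by
        rw [← h0] at hb ⊢
        exact abs_nonpos_iff.1 hb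
      rwa [this]
    · have h1 := abs_le.1 hb
      have h2 := q17_comb hU h (unc a b h).2 (c := (b + b') / (2 * b)) (c' := (b - b') / (2 * b))
        (div_nonneg (by linarith) (by linarith)) (div_nonneg (by linarith) (by linarith))
        (by field_simp; ring)
      have h3 : (b + b') / (2 * b) * b + (b - b') / (2 * b) * -b = b' := by field_simp; ring
      have h4 : (b + b') / (2 * b) * a + (b - b') / (2 * b) * a = a := by field_simp; ring
      rwa [h3, h4] at h2
  exact key' (key h ha) hb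

/-- The map of the two gauges is continuous. -/
lemma q17_contG {N d : ℕ} {K₁ : Set (E N)} {K₂ : Set (E d)} (h₁ : Sh K₁) (h₂ : Sh K₂) :
    Continuous fun p : E (N + d) => (!₂[gauge K₁ (fst p), gauge K₂ (snd p)] : E 2) := by
  have h1 : Continuous fun p : E (N + d) => gauge K₁ (fst p) := (q17_cont h₁).comp cont_fst
  have h2 : Continuous fun p : E (N + d) => gauge K₂ (snd p) := (q17_cont h₂).comp cont_snd
  refine (PiLp.continuous_toLp 2 _).comp (continuous_pi fun i => ?_)
  fin_cases i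
  · exact h1
  · exact h2

/-- The origin is an interior point of an unconditional body. -/
lemma q17_zero {U : Set (E 2)} (hU : Body U) (unc : Unc U) : (0 : E 2) ∈ interior U := by
  have hneg : ∀ p : E 2, p ∈ U → -p ∈ U := by
    intro p hp
    have h1 : p = !₂[p 0, p 1] := by
      ext i
      fin_cases i <;> rfl
    have h2 : -p = !₂[-p 0, -p 1] := by
      ext i
      fin_cases i <;> rfl
    rw [h1] at hp
    rw [h2]
    exact (unc _ _ (unc _ _ hp).1).2
  have h1 : -U = U := by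
    ext p
    constructor
    · intro hp
      have := hneg _ hp
      rwa [neg_neg] at this
    · intro hp
      exact hneg p hp
  obtain ⟨p, hp⟩ := hU.int
  have h2 : -p ∈ interior U := by
    have h3 : -p ∈ -interior U := by
      rw [Set.mem_neg, neg_neg]
      exact hp
    have h4 : -interior U = interior (-U) := by
      have := (Homeomorph.neg (E 2)).image_interior U
      simpa using this
    rw [h4, h1] at h3
    exact h3
  have h5 := hU.conv.interior hp h2 (a := 1 / 2) (b := 1 / 2) (by norm_num) (by norm_num)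
    (by norm_num)
  rwa [smul_neg, add_neg_cancel] at h5

lemma q17_conv {N d : ℕ} {K₁ : Set (E N)} {K₂ : Set (E d)} (h₁ : Sh K₁) (h₂ : Sh K₂)
    {U : Set (E 2)} (hU : Convex ℝ U) (unc : Unc U) : Convex ℝ (usum U K₁ K₂) := by
  intro p hp q hq c c' hc hc' h1
  have h2 : !₂[gauge K₁ (fst p), gauge K₂ (snd p)] ∈ U := hp
  have h3 : !₂[gauge K₁ (fst q), gauge K₂ (snd q)] ∈ U := hq
  have h4 := q17_comb hU h2 h3 hc hc' h1
  have h5 : fst (c • p + c' • q) = c • fst p + c' • fst q := by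
    rw [← app_eta p, ← app_eta q, app_comb, fst_app, fst_app, fst_app]
  have h6 : snd (c • p + c' • q) = c • snd p + c' • snd q := by
    rw [← app_eta p, ← app_eta q, app_comb, snd_app, snd_app, snd_app]
  have gen : ∀ {n : ℕ} {S : Set (E n)} (_ : Sh S) (x y : E n),
      gauge S (c • x + c' • y) ≤ c * gauge S x + c' * gauge S y := by
    intro n S hS x y
    refine (gauge_add_le hS.conv (absorbent_nhds_zero (q17_nhds hS)) _ _).trans ?_
    rw [gauge_smul_of_nonneg hc, gauge_smul_of_nonneg hc', smul_eq_mul, smul_eq_mul]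
  show !₂[gauge K₁ (fst (c • p + c' • q)), gauge K₂ (snd (c • p + c' • q))] ∈ U
  refine q17_mono hU unc h4 ?_ ?_
  · rw [abs_of_nonneg (gauge_nonneg _), h5]
    exact gen h₁ _ _
  · rw [abs_of_nonneg (gauge_nonneg _), h6]
    exact gen h₂ _ _

lemma q17_comp {N d : ℕ} {K₁ : Set (E N)} {K₂ : Set (E d)} (h₁ : Sh K₁) (h₂ : Sh K₂)
    {U : Set (E 2)} (hU : IsCompact U) : IsCompact (usum U K₁ K₂) := by
  refine Metric.isCompact_of_isClosed_isBounded (hU.isClosed.preimage (q17_contG h₁ h₂)) ?_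
  obtain ⟨R, hR⟩ := hU.isBounded.exists_norm_le
  obtain ⟨R₁, hR₁⟩ := q17_bdd h₁ R
  obtain ⟨R₂, hR₂⟩ := q17_bdd h₂ R
  have hA : IsCompact (Metric.closedBall (0 : E N) R₁ ×ˢ Metric.closedBall (0 : E d) R₂) :=
    (isCompact_closedBall _ _).prod (isCompact_closedBall _ _)
  refine (hA.image cont_app).isBounded.subset ?_
  intro p hp
  have h1 : !₂[gauge K₁ (fst p), gauge K₂ (snd p)] ∈ U := hp
  have h2 := hR _ h1
  have h3 : ∀ i, ‖(!₂[gauge K₁ (fst p), gauge K₂ (snd p)] : E 2) i‖ ≤ R := fun i =>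
    (PiLp.norm_apply_le _ i).trans h2
  have h4 : gauge K₁ (fst p) ≤ R := by
    have := h3 0
    exact (le_abs_self _).trans this
  have h5 : gauge K₂ (snd p) ≤ R := by
    have := h3 1
    exact (le_abs_self _).trans this
  refine ⟨(fst p, snd p), ⟨?_, ?_⟩, app_eta p⟩
  · rw [mem_closedBall_zero_iff]
    exact hR₁ _ h4
  · rw [mem_closedBall_zero_iff]
    exact hR₂ _ h5

lemma q17_int {N d : ℕ} {K₁ : Set (E N)} {K₂ : Set (E d)} (h₁ : Sh K₁) (h₂ : Sh K₂)
    {U : Set (E 2)} (hU : Body U) (unc : Unc U) : (interior (usum U K₁ K₂)).Nonempty := by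
  refine ⟨0, ?_⟩
  rw [mem_interior]
  refine ⟨(fun p : E (N + d) => (!₂[gauge K₁ (fst p), gauge K₂ (snd p)] : E 2)) ⁻¹' interior U,
    ?_, isOpen_interior.preimage (q17_contG h₁ h₂), ?_⟩
  · intro p hp
    have h1 : (!₂[gauge K₁ (fst p), gauge K₂ (snd p)] : E 2) ∈ interior U := hp
    have h2 : (!₂[gauge K₁ (fst p), gauge K₂ (snd p)] : E 2) ∈ U := interior_subset h1
    exact h2
  · have h1 : fst (0 : E (N + d)) = 0 := by rw [← app_zero, fst_app]
    have h2 : snd (0 : E (N + d)) = 0 := by rw [← app_zero, snd_app]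
    have h3 : (!₂[gauge K₁ (fst (0 : E (N + d))), gauge K₂ (snd (0 : E (N + d)))] : E 2) = 0 := by
      rw [h1, h2, gauge_zero, gauge_zero]
      ext i
      fin_cases i <;> rfl
    rw [mem_preimage, h3]
    exact q17_zero hU unc

/-- The sections of an unconditional sum are dilates of the first body. -/
lemma q17_sec {N d : ℕ} (hN : 0 < N) {K₁ : Set (E N)} {K₂ : Set (E d)} (h₁ : Sh K₁)
    {U : Set (E 2)} (hU : Convex ℝ U) (hUc : IsCompact U) (unc : Unc U) (y : E d)
    (hy : (interior (sec (usum U K₁ K₂) y)).Nonempty) :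
    ∃ m : ℝ, 0 < m ∧ sec (usum U K₁ K₂) y = m • K₁ := by
  have hmem : ∀ x : E N, x ∈ sec (usum U K₁ K₂) y ↔ !₂[gauge K₁ x, gauge K₂ y] ∈ U := by
    intro x
    show !₂[gauge K₁ (fst (app x y)), gauge K₂ (snd (app x y))] ∈ U ↔ _
    rw [fst_app, snd_app]
  set A : Set ℝ := {a | !₂[a, gauge K₂ y] ∈ U} with hA
  have hcA : Continuous fun a : ℝ => (!₂[a, gauge K₂ y] : E 2) := by
    refine (PiLp.continuous_toLp 2 _).comp (continuous_pi fun i => ?_)
    fin_cases i
    · exact continuous_id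
    · exact continuous_const
  have hAc : IsCompact A := by
    refine Metric.isCompact_of_isClosed_isBounded (hUc.isClosed.preimage hcA) ?_
    obtain ⟨R, hR⟩ := hUc.isBounded.exists_norm_le
    refine (Metric.isBounded_closedBall (x := (0 : ℝ)) (r := R)).subset ?_
    intro a ha
    rw [mem_closedBall_zero_iff]
    exact (PiLp.norm_apply_le (!₂[a, gauge K₂ y] : E 2) 0).trans (hR _ ha)
  obtain ⟨x₀, hx₀⟩ := hy
  have hx₀' := (hmem x₀).1 (interior_subset hx₀)
  have hAn : A.Nonempty := ⟨_, hx₀'⟩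
  have hmA : sSup A ∈ A := hAc.sSup_mem hAn
  have hle : ∀ x ∈ sec (usum U K₁ K₂) y, gauge K₁ x ≤ sSup A := fun x hx =>
    le_csSup hAc.bddAbove ((hmem x).1 hx)
  have hm : 0 < sSup A := by
    by_contra hneg
    rw [not_lt] at hneg
    have h1 : sec (usum U K₁ K₂) y ⊆ {(0 : E N)} := by
      intro x hx
      have h2 := (hle x hx).trans hneg
      exact (q17_eq_zero h₁).1 (le_antisymm h2 (gauge_nonneg _))
    have h3 := interior_mono h1 hx₀
    have : Nonempty (Fin N) := ⟨⟨0, hN⟩⟩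
    have : Nontrivial (E N) := inferInstance
    rw [interior_singleton] at h3
    exact h3
  refine ⟨sSup A, hm, ?_⟩
  rw [← q17_le h₁ hm]
  ext x
  constructor
  · intro hx
    exact hle x hx
  · intro hx
    rw [hmem]
    refine q17_mono hU unc hmA ?_ ?_
    · rw [abs_of_nonneg (gauge_nonneg _)]
      exact hx
    · rw [abs_of_nonneg (gauge_nonneg _)]

theorem usum_XB {N d : ℕ} (hN : 0 < N) {X : Set (E N) → Prop} {Y : Set (E d) → Prop}
    (hX : Thm X) (hY : Thm Y) (dil : ∀ K, X K → ∀ r : ℝ, 0 < r → X (r • K)) {U : Set (E 2)}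
    (hU : Body U) (unc : Unc U) {K₁ : Set (E N)} {K₂ : Set (E d)} (h₁ : X K₁) (h₂ : Y K₂) :
    XB X Y (usum U K₁ K₂) := by
  have hS₁ := hX.sh h₁
  have hS₂ := hY.sh h₂
  refine ⟨⟨q17_conv hS₁ hS₂ hU.conv unc, q17_comp hS₁ hS₂ hU.comp, q17_int hS₁ hS₂ hU unc⟩,
    ⟨K₂, h₂, ?_⟩, ?_⟩
  · intro x y y' hg hxy
    have h3 : !₂[gauge K₁ (fst (app x y)), gauge K₂ (snd (app x y))] ∈ U := hxy
    show !₂[gauge K₁ (fst (app x y')), gauge K₂ (snd (app x y'))] ∈ U
    rw [fst_app, snd_app] at h3 ⊢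
    rwa [hg]
  · intro y hy
    obtain ⟨m, hm, hs⟩ := q17_sec hN hS₁ hU.conv hU.comp unc y hy
    rw [hs]
    exact dil _ h₁ m hm

end R17

end Pool.Agent.Lib.MP_1dedaf_gt.BL

/-!
# MP_1dedaf_gt, BL, row 17b: dilates
-/

set_option autoImplicit false

open MeasureTheory Set Filter Topology
open scoped ENNReal NNReal Pointwise

namespace Pool.Agent.Lib.MP_1dedaf_gt.BL

open Pool.Agent.Lib.MP_1dedaf_gt.SC
open Pool.Agent.Lib.MP_1dedaf_gt.EG

lemma r17b_body {n : ℕ} {K : Set (E n)} (h : Body K) {r : ℝ} (hr : 0 < r) : Body (r • K) where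
  conv := h.conv.smul r
  comp := h.comp.smul r
  int := by
    rw [interior_smul₀ hr.ne']
    exact h.int.smul_set

/-- ROW 17b: dilates. -/
theorem dil_seg (K : Set (E 1)) (h : Body K ∧ ∀ x ∈ K, -x ∈ K) (r : ℝ) (hr : 0 < r) :
    Body (r • K) ∧ ∀ x ∈ r • K, -x ∈ r • K := by
  refine ⟨r17b_body h.1 hr, ?_⟩
  rintro _ ⟨x, hx, rfl⟩
  exact ⟨-x, h.2 x hx, smul_neg r x⟩

theorem dil_pl (K : Set (E 2)) (h : Body K ∧ ∫ x in K, x = 0) (r : ℝ) (hr : 0 < r) :
    Body (r • K) ∧ ∫ x in r • K, x = 0 := by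
  refine ⟨r17b_body h.1 hr, ?_⟩
  have h1 := Measure.setIntegral_comp_smul (volume : Measure (E 2)) (fun x : E 2 => x) K hr.ne'
  rw [integral_smul, h.2, smul_zero] at h1
  have h2 : |(r ^ Module.finrank ℝ (E 2))⁻¹| ≠ 0 := by positivity
  exact (smul_eq_zero.mp h1.symm).resolve_left h2

lemma r17b_mem {N d : ℕ} {K : Set (E (N + d))} {r : ℝ} (hr : 0 < r) (x : E N) (y : E d) :
    app x y ∈ r • K ↔ app (r⁻¹ • x) (r⁻¹ • y) ∈ K := by
  rw [Set.mem_smul_set_iff_inv_smul_mem₀ hr.ne', app_smul]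

theorem dil_XB {N d : ℕ} {X : Set (E N) → Prop} {Y : Set (E d) → Prop}
    (hX : ∀ K, X K → ∀ r : ℝ, 0 < r → X (r • K)) (K : Set (E (N + d))) (h : XB X Y K) (r : ℝ)
    (hr : 0 < r) : XB X Y (r • K) := by
  obtain ⟨hB, ⟨S, hS, hK⟩, hs⟩ := h
  refine ⟨r17b_body hB hr, ⟨S, hS, ?_⟩, ?_⟩
  · intro x y y' he hx
    rw [r17b_mem hr] at hx ⊢
    refine hK _ _ _ ?_ hx
    rw [gauge_smul_of_nonneg (inv_nonneg.mpr hr.le), gauge_smul_of_nonneg (inv_nonneg.mpr hr.le),
      he]
  · intro y hy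
    have h1 : sec (r • K) y = r • sec K (r⁻¹ • y) := by
      ext x
      rw [Set.mem_smul_set_iff_inv_smul_mem₀ hr.ne']
      exact r17b_mem hr x y
    rw [h1] at hy ⊢
    rw [interior_smul₀ hr.ne'] at hy
    exact hX _ (hs _ (Set.smul_set_nonempty.mp hy)) r hr

end Pool.Agent.Lib.MP_1dedaf_gt.BL

/-!
# MP_1dedaf_gt, BL: final form for a class
-/

set_option autoImplicit false

open MeasureTheory Set Filter Topology
open scoped ENNReal NNReal Pointwise

namespace Pool.Agent.Lib.MP_1dedaf_gt.BL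

open Pool.Agent.Lib.MP_1dedaf_gt.SC
open Pool.Agent.Lib.MP_1dedaf_gt.EG

/-- Subclasses. -/
theorem Thm.sub {n : ℕ} {X X' : Set (E n) → Prop} (h : Thm X) (hs : ∀ K, X' K → X K) :
    Thm X' :=
  ⟨fun K hK => h.body K (hs K hK), fun K hK => h.cent K (hs K hK),
    fun t ht0 ht1 K C hK hC => h.ineq t ht0 ht1 K C (hs K hK) (hs C hC),
    fun t ht0 ht1 K C hK hC => h.str t ht0 ht1 K C (hs K hK) (hs C hC)⟩

/-- The inequality and the equality cases in real numbers. -/
theorem eq_iff_thm {n : ℕ} {X : Set (E n) → Prop} (h : Thm X) {t : ℝ} (ht0 : 0 < t) (ht1 : t < 1)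
    {K C : Set (E n)} (hK : X K) (hC : X C) :
    (volume K).toReal ^ (1 - t) * (volume C).toReal ^ t ≤ (volume (logC t K C)).toReal ∧
    ((volume (logC t K C)).toReal = (volume K).toReal ^ (1 - t) * (volume C).toReal ^ t ↔
      EQ.DecN K C) := by
  have hs0 : 0 < 1 - t := by linarith
  have bK := h.body K hK
  have bC := h.body C hC
  have cK := h.cent K hK
  have cC := h.cent C hC
  have vpos : ∀ {A : Set (E n)}, (interior A).Nonempty → volume A ≠ 0 := fun {A} h =>
    ((isOpen_interior.measure_pos volume h).trans_le (measure_mono interior_subset)).ne'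
  have hKv := vpos bK.int
  have hCv := vpos bC.int
  have h0 := interior_subset (r18_interior bK.conv bK.comp hKv cK)
  have h0' := interior_subset (r18_interior bC.conv bC.comp hCv cC)
  have hKf : volume K ≠ ∞ := bK.comp.measure_lt_top.ne
  have hCf : volume C ≠ ∞ := bC.comp.measure_lt_top.ne
  have hf : volume K ^ (1 - t) * volume C ^ t ≠ ∞ :=
    ENNReal.mul_ne_top (ENNReal.rpow_ne_top_of_nonneg hs0.le hKf)
      (ENNReal.rpow_ne_top_of_nonneg ht0.le hCf)
  have hWf : volume (logC t K C) ≠ ∞ :=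
    (logC_bdd ht0 ht1 bK.comp bC.comp h0 h0').measure_lt_top.ne
  have hineq := h.ineq t ht0 ht1 K C hK hC
  refine ⟨?_, ?_⟩
  · rw [ENNReal.toReal_rpow, ENNReal.toReal_rpow, ← ENNReal.toReal_mul]
    exact ENNReal.toReal_mono hWf hineq
  have hiff : (volume (logC t K C)).toReal = (volume K).toReal ^ (1 - t) * (volume C).toReal ^ t ↔
      volume (logC t K C) = volume K ^ (1 - t) * volume C ^ t := by
    rw [ENNReal.toReal_rpow, ENNReal.toReal_rpow, ← ENNReal.toReal_mul,
      ENNReal.toReal_eq_toReal_iff' hWf hf]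
  rw [hiff]
  constructor
  · intro h1
    obtain ⟨Λ, π, H⟩ := h.str t ht0 ht1 K C hK hC h1
    exact decN_of_str bK.conv bK.comp bK.int H
  · intro h1
    exact le_antisymm (conv_cen ht0 ht1 bK.conv bK.comp bK.int cK bC.comp cC h1) hineq

end Pool.Agent.Lib.MP_1dedaf_gt.BL
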